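import Pool.Agent.H479.W.Stm

/-! # EE → 0 implies the alternative hypothesis for almost all spacings (proved by helper337) -/

/-! Subtask H479-W-EA: EE → 0 implies the alternative hypothesis for almost all spacings. -/

open MeasureTheory Filter Topology

namespace H479.W

open H479.P
open Pool.Agent.Y744
open H177.Lat (kI yy del)
open SG (ord NZ)

namespace EAx

lemma NZ_NN (T : ℝ) : (NZ T : ℝ) = (H370.NN riemannZeta 0 T : ℝ) := by
  have h1 : NZ T = H370.NN riemannZeta 0 T := by
    unfold SG.NZ H370.NN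
    have h2 : {s : ℂ | riemannZeta s = 0 ∧ 0 < s.re ∧ s.re < 1 ∧ 0 < s.im ∧ s.im ≤ T} =
        H370.zset riemannZeta 0 T := by
      ext s
      simp only [H370.zset, Set.mem_ofPred_eq]
      tauto
    rw [h2]
    rfl
  rw [h1]

/-- lower bound for `sinc²` away from the positive half-integers -/
lemma sinc_low (ε U : ℝ) (hε : 0 < ε) : ∃ c : ℝ, 0 < c ∧ ∀ x : ℝ, 0 ≤ x → x ≤ U →
    (∀ k : ℕ, 1 ≤ k → ε ≤ |x - k / 2|) → c ≤ Real.sinc (2 * Real.pi * x) ^ 2 := by
  have hpi := Real.pi_pos
  set K : Set ℝ := Set.Icc 0 U ∩ ⋂ k : ℕ, {x : ℝ | 1 ≤ k → ε ≤ |x - k / 2|} with hK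
  have hKc : IsCompact K := by
    apply isCompact_Icc.inter_right
    apply isClosed_iInter
    intro k
    by_cases hk : 1 ≤ k
    · have h1 : {x : ℝ | 1 ≤ k → ε ≤ |x - k / 2|} = {x : ℝ | ε ≤ |x - k / 2|} := by
        ext x
        simp [hk]
      rw [h1]
      exact isClosed_le continuous_const (by fun_prop)
    · have h1 : {x : ℝ | 1 ≤ k → ε ≤ |x - k / 2|} = Set.univ := by
        ext x
        simp [hk]
      rw [h1]
      exact isClosed_univ
  have hmem : ∀ x : ℝ, x ∈ K ↔ (0 ≤ x ∧ x ≤ U) ∧ ∀ k : ℕ, 1 ≤ k → ε ≤ |x - k / 2| := by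
    intro x
    rw [hK, Set.mem_inter_iff, Set.mem_Icc, Set.mem_iInter]
    rfl
  rcases K.eq_empty_or_nonempty with h0 | h0
  · refine ⟨1, one_pos, fun x h1 h2 h3 => ?_⟩
    have h4 : x ∈ K := (hmem x).2 ⟨⟨h1, h2⟩, h3⟩
    rw [h0] at h4
    exact absurd h4 (Set.notMem_empty x)
  · have hcont : Continuous fun x : ℝ => Real.sinc (2 * Real.pi * x) ^ 2 :=
      (Real.continuous_sinc.comp (by fun_prop : Continuous fun x : ℝ => 2 * Real.pi * x)).pow 2
    obtain ⟨x0, hx0, hmin⟩ := hKc.exists_isMinOn h0 hcont.continuousOn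
    refine ⟨Real.sinc (2 * Real.pi * x0) ^ 2, ?_, fun x h1 h2 h3 =>
      hmin ((hmem x).2 ⟨⟨h1, h2⟩, h3⟩)⟩
    have h5 := (hmem x0).1 hx0
    obtain ⟨⟨h6, h7⟩, h8⟩ := h5
    have h9 : Real.sinc (2 * Real.pi * x0) ≠ 0 := by
      rcases h6.lt_or_eq with h10 | h10
      · have h11 : 2 * Real.pi * x0 ≠ 0 := by positivity
        rw [Real.sinc_of_ne_zero h11]
        intro h12
        rw [div_eq_zero_iff] at h12
        rcases h12 with h12 | h12
        · rw [Real.sin_eq_zero_iff] at h12
          obtain ⟨n, hn⟩ := h12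
          have h13 : (n : ℝ) = 2 * x0 := by
            have h14 : (n : ℝ) * Real.pi = (2 * x0) * Real.pi := by rw [hn]; ring
            exact mul_right_cancel₀ hpi.ne' h14
          have h15 : 0 < n := by
            have : (0 : ℝ) < n := by rw [h13]; linarith
            exact_mod_cast this
          obtain ⟨m, rfl⟩ := Int.eq_ofNat_of_zero_le h15.le
          have h16 : 1 ≤ m := by
            have : 0 < m := by exact_mod_cast h15
            omega
          have h17 := h8 m h16
          rw [Int.cast_natCast] at h13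
          rw [h13] at h17
          have h18 : x0 - 2 * x0 / 2 = 0 := by ring
          rw [h18, abs_zero] at h17
          linarith
        · exact h11 h12
      · rw [← h10]
        simp
    positivity

/-- the number of bad indices up to `NZ T` -/
lemma count (δ ε U c E : ℝ) (T : ℝ) (hδ : 0 < δ) (hδ1 : δ < 1) (hε : 0 < ε) (hU : 0 < U)
    (hc : 0 < c) (hT1 : 1 < T)
    (hsinc : ∀ x : ℝ, 0 ≤ x → x ≤ U →
      (∀ k : ℕ, 1 ≤ k → ε / 2 ≤ |x - k / 2|) → c ≤ Real.sinc (2 * Real.pi * x) ^ 2)
    (hL1 : U * (1 - Real.log δ) ≤ ε / 2 * Real.log T) (hL2 : 2 * Real.pi * U ≤ Real.log T)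
    (hlow : (NZ (δ * T) : ℝ) ≤ 2 * δ * Xf T)
    (hE : 1 / 2 * ((Xf T)⁻¹ * ∑ n ∈ Finset.Ioc (NZ (δ * T)) (NZ T),
      ∑ n' ∈ Finset.Ioc (NZ (δ * T)) (NZ T),
      (if n ≠ n' ∧ |ord n - ord n'| ≤ 1 then Real.sinc (2 * Real.pi * (yy T n - yy T n')) ^ 2
        else 0)) ≤ E) (N : ℕ) (hN : N ≤ NZ T) :
    ({j : ℕ | 1 ≤ j ∧ j ≤ N ∧ ∀ k : ℕ, 1 ≤ k → ε ≤ |del j - k / 2|}.ncard : ℝ) ≤
      2 * δ * Xf T + 1 + Xf T / U + 2 * E / c * Xf T := by
  classical
  have hpi := Real.pi_pos
  have hTpos : 0 < T := by linarith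
  have hLpos : 0 < Real.log T := Real.log_pos hT1
  have hX : 0 < Xf T := by unfold Xf; positivity
  set a := NZ (δ * T) with ha
  set b := NZ T with hb
  set y := yy T with hy
  have hgapeq : ∀ j, y (j + 1) - y j = (ord (j + 1) - ord j) * Real.log T / (2 * Real.pi) := by
    intro j
    simp only [hy, yy]
    ring
  have hgap0 : ∀ j, 1 ≤ j → 0 ≤ y (j + 1) - y j := by
    intro j hj
    have h2 := SG.ord_mono hj (Nat.le_succ j)
    have h2' : ord j ≤ ord (j + 1) := h2
    rw [hgapeq]
    have h3 : 0 ≤ ord (j + 1) - ord j := by linarith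
    positivity
  set Bg := (Finset.Ico (a + 1) b).filter (fun j => ¬ (y (j + 1) - y j ≤ U)) with hBg
  set Md := (Finset.Ico (a + 1) b).filter (fun j => y (j + 1) - y j ≤ U ∧
    ∀ k : ℕ, 1 ≤ k → ε / 2 ≤ |y (j + 1) - y j - k / 2|) with hMd
  set S : Set ℕ := {j : ℕ | 1 ≤ j ∧ j ≤ N ∧ ∀ k : ℕ, 1 ≤ k → ε ≤ |del j - k / 2|} with hS
  -- big gaps
  have hBgc : (Bg.card : ℝ) ≤ Xf T / U := by
    by_cases hab : a + 1 ≤ b
    · rw [le_div_iff₀ hU]
      have h1 : ∑ j ∈ Bg, U ≤ ∑ j ∈ Bg, (y (j + 1) - y j) := by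
        refine Finset.sum_le_sum fun j hj => ?_
        have := (Finset.mem_filter.1 hj).2
        push Not at this
        exact this.le
      rw [Finset.sum_const, nsmul_eq_mul] at h1
      refine h1.trans ?_
      have h2 : ∑ j ∈ Bg, (y (j + 1) - y j) ≤ ∑ j ∈ Finset.Ico (a + 1) b, (y (j + 1) - y j) := by
        apply Finset.sum_le_sum_of_subset_of_nonneg (Finset.filter_subset _ _)
        intro j hj _
        rw [Finset.mem_Ico] at hj
        exact hgap0 j (by omega)
      rw [H177.Lat.sum_gaps a b y hab] at h2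
      refine h2.trans ?_
      have h3 : ord b ≤ T := (SG.ord_le_iff (by omega) _).mpr le_rfl
      have h4 : 0 < ord (a + 1) := SG.ord_pos (by omega)
      have h5 : y b - y (a + 1) = (ord b - ord (a + 1)) * Real.log T / (2 * Real.pi) := by
        simp only [hy, yy]
        ring
      rw [h5]
      unfold Xf
      apply div_le_div_of_nonneg_right _ (by positivity)
      apply mul_le_mul_of_nonneg_right _ hLpos.le
      linarith
    · have h1 : Bg = ∅ := by
        rw [hBg, Finset.filter_eq_empty_iff]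
        intro j hj
        rw [Finset.mem_Ico] at hj
        omega
      rw [h1, Finset.card_empty, Nat.cast_zero]
      positivity
  -- middle gaps
  have hMdc : (Md.card : ℝ) ≤ 2 * E / c * Xf T := by
    set F : ℕ → ℕ → ℝ := fun n n' => (if n ≠ n' ∧ |ord n - ord n'| ≤ 1 then
      Real.sinc (2 * Real.pi * (y n - y n')) ^ 2 else 0) with hF
    have hF0 : ∀ n n', 0 ≤ F n n' := by
      intro n n'
      simp only [hF]
      split_ifs
      · positivity
      · exact le_rfl
    have h1 : ∑ j ∈ Md, c ≤ ∑ j ∈ Md, F (j + 1) j := by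
      refine Finset.sum_le_sum fun j hj => ?_
      obtain ⟨h2, h3, h4⟩ := Finset.mem_filter.1 hj
      rw [Finset.mem_Ico] at h2
      have h5 : |ord (j + 1) - ord j| ≤ 1 := by
        have h6 := SG.ord_mono (by omega : 1 ≤ j) (Nat.le_succ j)
        have h6' : ord j ≤ ord (j + 1) := h6
        rw [abs_of_nonneg (by linarith)]
        rw [hgapeq, div_le_iff₀ (by positivity)] at h3
        have h7 : (ord (j + 1) - ord j) * Real.log T ≤ 1 * Real.log T := by linarith
        exact le_of_mul_le_mul_right h7 hLpos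
      simp only [hF]
      rw [if_pos ⟨by omega, h5⟩]
      exact hsinc _ (hgap0 j (by omega)) h3 h4
    have h2 : ∑ j ∈ Md, F (j + 1) j ≤ ∑ n ∈ Finset.Ioc a b, ∑ n' ∈ Finset.Ioc a b, F n n' := by
      rw [Finset.sum_comm]
      calc ∑ j ∈ Md, F (j + 1) j ≤ ∑ j ∈ Md, ∑ n ∈ Finset.Ioc a b, F n j := by
            refine Finset.sum_le_sum fun j hj => ?_
            obtain ⟨h3, -⟩ := Finset.mem_filter.1 hj
            rw [Finset.mem_Ico] at h3
            exact Finset.single_le_sum (f := fun n => F n j) (fun n _ => hF0 n j)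
              (Finset.mem_Ioc.2 ⟨by omega, by omega⟩)
        _ ≤ _ := by
            apply Finset.sum_le_sum_of_subset_of_nonneg
            · intro j hj
              obtain ⟨h3, -⟩ := Finset.mem_filter.1 hj
              rw [Finset.mem_Ico] at h3
              exact Finset.mem_Ioc.2 ⟨by omega, by omega⟩
            · intro j _ _
              exact Finset.sum_nonneg fun n _ => hF0 n j
    rw [Finset.sum_const, nsmul_eq_mul] at h1
    have h3 : ∑ n ∈ Finset.Ioc a b, ∑ n' ∈ Finset.Ioc a b, F n n' ≤ 2 * E * Xf T := by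
      have h4 : 1 / 2 * ((Xf T)⁻¹ * ∑ n ∈ Finset.Ioc a b, ∑ n' ∈ Finset.Ioc a b, F n n') ≤ E := hE
      have h5 : (Xf T)⁻¹ * ∑ n ∈ Finset.Ioc a b, ∑ n' ∈ Finset.Ioc a b, F n n' ≤ 2 * E := by
        linarith
      rwa [inv_mul_le_iff₀ hX, mul_comm] at h5
    have h4 : (Md.card : ℝ) * c ≤ 2 * E * Xf T := h1.trans (h2.trans h3)
    have h5 : 2 * E / c * Xf T = 2 * E * Xf T / c := by ring
    rw [h5, le_div_iff₀ hc]
    exact h4
  -- the covering
  have hsub : S ⊆ ((Finset.Icc 1 a ∪ {b} ∪ Bg ∪ Md : Finset ℕ) : Set ℕ) := by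
    rintro j ⟨hj1, hj2, hj3⟩
    rw [Finset.mem_coe, Finset.mem_union, Finset.mem_union, Finset.mem_union, Finset.mem_Icc,
      Finset.mem_singleton]
    by_cases hja : j ≤ a
    · exact Or.inl (Or.inl (Or.inl ⟨hj1, hja⟩))
    by_cases hjb : j = b
    · exact Or.inl (Or.inl (Or.inr hjb))
    have hjI : j ∈ Finset.Ico (a + 1) b := Finset.mem_Ico.2 ⟨by omega, by omega⟩
    by_cases hjU : y (j + 1) - y j ≤ U
    · right
      refine Finset.mem_filter.2 ⟨hjI, hjU, fun k hk => ?_⟩
      rw [Finset.mem_Ico] at hjI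
      have q1 : δ * T < ord j := by
        by_contra hcon2
        push Not at hcon2
        have := (SG.ord_le_iff hj1 (δ * T)).mp hcon2
        omega
      have q2 : ord (j + 1) ≤ T := (SG.ord_le_iff (by omega) _).mpr (by omega)
      have q3 : ord j ≤ ord (j + 1) := SG.ord_mono hj1 (Nat.le_succ j)
      have hδT : 0 < δ * T := by positivity
      have hx0 : 0 < ord j := by linarith
      set u := y (j + 1) - y j with hu
      have hu0 : 0 ≤ u := hgap0 j hj1
      have hu1 : u = (ord (j + 1) - ord j) * Real.log T / (2 * Real.pi) := hgapeq j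
      have hd0 : 0 ≤ ord (j + 1) - ord j := by linarith
      have hD0 : Real.log δ < 0 := Real.log_neg hδ hδ1
      -- comparison
      have hlogx : Real.log T + Real.log δ ≤ Real.log (ord j) := by
        have h1 : Real.log (δ * T) ≤ Real.log (ord j) := Real.log_le_log hδT q1.le
        rw [Real.log_mul hδ.ne' hTpos.ne'] at h1
        linarith
      have hlogy : Real.log (ord (j + 1)) ≤ Real.log T := Real.log_le_log (by linarith) q2
      have hlw : u + u * Real.log δ / Real.log T ≤ del j := by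
        have h5 : (ord (j + 1) - ord j) * (Real.log T + Real.log δ) / (2 * Real.pi) ≤ del j := by
          unfold H177.Lat.del
          apply div_le_div_of_nonneg_right _ (by positivity)
          refine le_trans ?_ (H177.Lat.xlog_low hx0 q3)
          exact mul_le_mul_of_nonneg_left (by linarith) hd0
        have h6 : (ord (j + 1) - ord j) * (Real.log T + Real.log δ) / (2 * Real.pi) =
            u + u * Real.log δ / Real.log T := by
          rw [hu1]
          field_simp
        linarith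
      have hup : del j ≤ u + u / Real.log T := by
        have h5 : del j ≤ (ord (j + 1) - ord j) * (Real.log T + 1) / (2 * Real.pi) := by
          unfold H177.Lat.del
          apply div_le_div_of_nonneg_right _ (by positivity)
          exact (H370.A3.xlog_aux hx0 q3).trans (mul_le_mul_of_nonneg_left (by linarith) hd0)
        have h6 : (ord (j + 1) - ord j) * (Real.log T + 1) / (2 * Real.pi) =
            u + u / Real.log T := by
          rw [hu1]
          field_simp
        linarith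
      have hsm : u * (1 - Real.log δ) / Real.log T ≤ ε / 2 := by
        rw [div_le_iff₀ hLpos]
        refine le_trans ?_ hL1
        exact mul_le_mul_of_nonneg_right hjU (by linarith)
      have he : u * (1 - Real.log δ) / Real.log T = u / Real.log T - u * Real.log δ / Real.log T := by
        ring
      have hp1 : 0 ≤ u / Real.log T := by positivity
      have hp2 : u * Real.log δ / Real.log T ≤ 0 :=
        div_nonpos_of_nonpos_of_nonneg (mul_nonpos_of_nonneg_of_nonpos hu0 hD0.le) hLpos.le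
      have h7 : |del j - u| ≤ ε / 2 := by
        rw [abs_le]
        constructor
        · linarith
        · linarith
      have h8 := hj3 k hk
      have h9 : |del j - k / 2| ≤ |del j - u| + |u - k / 2| := abs_sub_le _ _ _
      linarith
    · exact Or.inl (Or.inr (Finset.mem_filter.2 ⟨hjI, hjU⟩))
  have h1 := Set.ncard_le_ncard hsub (Finset.finite_toSet _)
  rw [Set.ncard_coe_finset] at h1
  have h2 : (Finset.Icc 1 a ∪ {b} ∪ Bg ∪ Md : Finset ℕ).card ≤ a + 1 + Bg.card + Md.card := by
    refine (Finset.card_union_le _ _).trans (Nat.add_le_add_right ?_ _)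
    refine (Finset.card_union_le _ _).trans (Nat.add_le_add_right ?_ _)
    refine (Finset.card_union_le _ _).trans ?_
    rw [Nat.card_Icc, Finset.card_singleton]
    omega
  have h3 : (S.ncard : ℝ) ≤ a + 1 + Bg.card + Md.card := by exact_mod_cast h1.trans h2
  linarith

end EAx

open EAx in
theorem ea : S_EA := by
  intro RH hH hEE ε hε
  have hpi := Real.pi_pos
  rw [Metric.tendsto_atTop]
  intro η hη
  -- parameters
  set δ : ℝ := min (1 / 2) (η / 80) with hδd
  have hδ0 : 0 < δ := by positivity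
  have hδ1 : δ < 1 := by
    have : δ ≤ 1 / 2 := min_le_left _ _
    linarith
  have hδη : δ ≤ η / 80 := min_le_right _ _
  set U : ℝ := 80 / η with hUd
  have hU : 0 < U := by positivity
  obtain ⟨c, hc, hsinc⟩ := sinc_low (ε / 2) U (by positivity)
  obtain ⟨T0, hT0, hNN⟩ := Pool.Agent.W54.TCF.NT_asymp' (1 / 2) (by norm_num)
  have evL : Tendsto Real.log atTop atTop := Real.tendsto_log_atTop
  have ev : ∀ᶠ T : ℝ in atTop, (U * (1 - Real.log δ) ≤ ε / 2 * Real.log T) ∧
      (2 * Real.pi * U ≤ Real.log T) ∧ (T0 ≤ δ * T) ∧ (2 * T0 + 10 ≤ T) ∧ (80 / η ≤ Xf T) ∧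
      EE T < c * η / 80 ∧
      1 / 2 * ((Xf T)⁻¹ * ∑ n ∈ Finset.Ioc (NZ (δ * T)) (NZ T),
        ∑ n' ∈ Finset.Ioc (NZ (δ * T)) (NZ T),
        (if n ≠ n' ∧ |ord n - ord n'| ≤ 1 then Real.sinc (2 * Real.pi * (yy T n - yy T n')) ^ 2
          else 0)) ≤ EE T := by
    have e1 : ∀ᶠ T : ℝ in atTop, U * (1 - Real.log δ) ≤ ε / 2 * Real.log T :=
      (evL.const_mul_atTop (by positivity : 0 < ε / 2)).eventually_ge_atTop _
    have e2 : ∀ᶠ T : ℝ in atTop, 2 * Real.pi * U ≤ Real.log T := evL.eventually_ge_atTop _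
    have e3 : ∀ᶠ T : ℝ in atTop, T0 ≤ δ * T :=
      (tendsto_id.const_mul_atTop hδ0).eventually_ge_atTop _
    have e4 : ∀ᶠ T : ℝ in atTop, 2 * T0 + 10 ≤ T := eventually_ge_atTop _
    have e5 : ∀ᶠ T : ℝ in atTop, 80 / η ≤ Xf T := by
      filter_upwards [eventually_ge_atTop (1 : ℝ), eventually_ge_atTop (2 * Real.pi * (80 / η)),
        evL.eventually_ge_atTop 1] with T f1 f2 f3
      unfold Xf
      rw [le_div_iff₀ (by positivity)]
      have f4 : T * 1 ≤ T * Real.log T := mul_le_mul_of_nonneg_left f3 (by linarith)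
      linarith
    have e6 : ∀ᶠ T : ℝ in atTop, EE T < c * η / 80 :=
      hEE.eventually_lt_const (by positivity)
    have e7 := hH RH δ hδ0 hδ1
    filter_upwards [e1, e2, e3, e4, e5, e6, e7] with T f1 f2 f3 f4 f5 f6 f7
    exact ⟨f1, f2, f3, f4, f5, f6, f7⟩
  have evN := SG.ord_tendsto.eventually ev
  obtain ⟨N0, hN0⟩ := (evN.and (eventually_ge_atTop 1)).exists_forall_of_atTop
  refine ⟨N0, fun N hN => ?_⟩
  obtain ⟨⟨f1, f2, f3, f4, f5, f6, f7⟩, hN1⟩ := hN0 N hN
  set T := ord N with hT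
  have hT1 : 1 < T := by linarith
  have hTpos : 0 < T := by linarith
  have hLpos : 0 < Real.log T := Real.log_pos hT1
  have hX : 0 < Xf T := by unfold Xf; positivity
  have hNle : N ≤ NZ T := SG.le_NZ_ord hN1
  have hlow : (NZ (δ * T) : ℝ) ≤ 2 * δ * Xf T := by
    have h1 := (hNN (δ * T) f3).2
    rw [← NZ_NN] at h1
    have h2 : Real.log (δ * T) ≤ Real.log T :=
      Real.log_le_log (by positivity) (by nlinarith)
    have h3 : (1 + 1 / 2) * (δ * T / (2 * Real.pi) * Real.log (δ * T)) ≤
        (1 + 1 / 2) * (δ * T / (2 * Real.pi) * Real.log T) := by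
      apply mul_le_mul_of_nonneg_left _ (by norm_num)
      exact mul_le_mul_of_nonneg_left h2 (by positivity)
    have h4 : (1 + 1 / 2) * (δ * T / (2 * Real.pi) * Real.log T) = 3 / 2 * (δ * Xf T) := by
      unfold Xf
      ring
    have h5 : 0 < δ * Xf T := by positivity
    linarith
  have hNlow : Xf T ≤ 8 * N := by
    have h1 := (hNN (T / 2) (by linarith)).1
    rw [← NZ_NN] at h1
    have h2 : NZ (T / 2) ≤ N := by
      by_contra hcon
      push Not at hcon
      have h3 := (SG.ord_le_iff hN1 (T / 2)).mpr hcon.le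
      linarith
    have h3 : (NZ (T / 2) : ℝ) ≤ N := by exact_mod_cast h2
    have h4 : 1 / 2 * Real.log T ≤ Real.log (T / 2) := by
      have h5 : Real.log T ≤ Real.log ((T / 2) ^ 2) :=
        Real.log_le_log hTpos (by nlinarith)
      rw [Real.log_pow] at h5
      push_cast at h5
      linarith
    have h5 : (1 - 1 / 2) * (T / 2 / (2 * Real.pi) * (1 / 2 * Real.log T)) ≤
        (1 - 1 / 2) * (T / 2 / (2 * Real.pi) * Real.log (T / 2)) := by
      apply mul_le_mul_of_nonneg_left _ (by norm_num)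
      exact mul_le_mul_of_nonneg_left h4 (by positivity)
    have h6 : (1 - 1 / 2) * (T / 2 / (2 * Real.pi) * (1 / 2 * Real.log T)) = Xf T / 8 := by
      unfold Xf
      ring
    linarith
  have hcount := count δ ε U c (EE T) T hδ0 hδ1 hε hU hc hT1 hsinc f1 f2 hlow f7 N hNle
  have hNpos : (0 : ℝ) < N := by exact_mod_cast hN1
  rw [Real.dist_eq, sub_zero, abs_of_nonneg (by positivity), div_lt_iff₀ hNpos]
  refine lt_of_le_of_lt hcount ?_
  have g1 : 2 * δ * Xf T ≤ η / 40 * Xf T := by
    apply mul_le_mul_of_nonneg_right _ hX.le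
    linarith
  have g2 : 1 ≤ η / 80 * Xf T := by
    rw [div_le_iff₀ hη] at f5
    linarith
  have g3 : Xf T / U = η / 80 * Xf T := by
    rw [hUd]
    field_simp
  have g4 : 2 * EE T / c * Xf T ≤ η / 40 * Xf T := by
    apply mul_le_mul_of_nonneg_right _ hX.le
    rw [div_le_iff₀ hc]
    linarith
  have g5 : η * Xf T ≤ η * (8 * N) := mul_le_mul_of_nonneg_left hNlow hη.le
  have g6 : 0 < η * Xf T := by positivity
  linarith

end H479.W
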