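import Pool.Agent.H479.W.Stm

/-! # the alternative hypothesis for almost all spacings implies EE → 0 (assembly) (proved by helper894) -/


open MeasureTheory Filter Topology

namespace H479.W

open H479.P
open Pool.Agent.Y744
open H177.Lat (kI yy del)
open SG (ord NZ)

namespace AEaux

theorem sinc_sq_le {x : ℝ} (hx : x ≠ 0) : Real.sinc (2 * Real.pi * x) ^ 2 ≤ 1 / x ^ 2 := by
  have hpi := Real.pi_gt_three
  have h0 : 2 * Real.pi * x ≠ 0 := mul_ne_zero (by positivity) hx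
  rw [Real.sinc_of_ne_zero h0, div_pow]
  have h1 : Real.sin (2 * Real.pi * x) ^ 2 ≤ 1 := Real.sin_sq_le_one _
  have hx2 : 0 < x ^ 2 := by positivity
  have h2 : x ^ 2 ≤ (2 * Real.pi * x) ^ 2 := by
    have h3 : (2 * Real.pi * x) ^ 2 = (2 * Real.pi) ^ 2 * x ^ 2 := by ring
    rw [h3]
    have h4 : (1 : ℝ) ≤ (2 * Real.pi) ^ 2 := by nlinarith
    nlinarith
  rw [div_le_div_iff₀ (by positivity) hx2]
  nlinarith

theorem near_far (I : Finset ℕ) (y : ℕ → ℝ) (R : ℕ) (hR : 2 ≤ R) :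
    ∑ n ∈ I, ∑ n' ∈ I, (if n = n' then 0 else Real.sinc (2 * Real.pi * (y n - y n')) ^ 2) ≤
      (∑ n ∈ I, ∑ n' ∈ I, (if n ≠ n' ∧ |y n - y n'| ≤ R then
        Real.sinc (2 * Real.pi * (y n - y n')) ^ 2 else 0)) +
      16 / (R : ℝ) * ∑ n ∈ I, (kI I y 1 n : ℝ) := by
  refine le_trans ?_ (add_le_add_right (H177.Lat.far_pairs I y R hR) _)
  rw [← Finset.sum_add_distrib]
  refine Finset.sum_le_sum fun n _ => ?_
  rw [Finset.sum_filter, ← Finset.sum_add_distrib]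
  refine Finset.sum_le_sum fun n' _ => ?_
  by_cases h1 : n = n'
  · rw [if_pos h1, if_neg (fun h => h.1 h1)]
    split_ifs <;> positivity
  · rw [if_neg h1]
    by_cases h2 : |y n - y n'| ≤ R
    · rw [if_pos ⟨h1, h2⟩, if_neg (not_lt.2 h2), add_zero]
    · rw [if_neg (fun h => h2 h.2), if_pos (not_le.1 h2), zero_add]
      apply sinc_sq_le
      intro h
      rw [h, abs_zero] at h2
      exact h2 (Nat.cast_nonneg _)

theorem EE_nonneg {T : ℝ} (hT : 1 < T) : 0 ≤ EE T := by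
  have hX := Xf_pos (V := T) hT
  unfold EE
  refine mul_nonneg (inv_nonneg.2 hX.le) ?_
  rw [sub_nonneg]
  refine Finset.sum_le_sum fun s hs => ?_
  have hdd : dd T s s = 0 := by
    unfold dd
    simp
  have h1 : mz s ≤ mz s * mz s * (wgt (s.im - s.im) * Real.sinc (2 * Real.pi * dd T s s) ^ 2) := by
    rw [hdd, sub_self, mul_zero, Real.sinc_zero]
    have h2 : wgt 0 = 1 := by unfold wgt; norm_num
    rw [h2]
    have h3 : mz s ≤ mz s * mz s := by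
      unfold mz
      exact_mod_cast Nat.le_mul_self _
    linarith
  refine h1.trans ?_
  refine Finset.single_le_sum (f := fun s' => mz s * mz s' *
    (wgt (s.im - s'.im) * Real.sinc (2 * Real.pi * dd T s s') ^ 2)) ?_ hs
  intro s' _
  refine mul_nonneg (mul_nonneg (mz_nonneg _) (mz_nonneg _)) (mul_nonneg ?_ (sq_nonneg _))
  unfold wgt
  positivity

end AEaux

open AEaux

theorem ae : S_AE := by
  intro hRH hTH3 hCMB hLOWP hBAD hAH
  rw [Metric.tendsto_nhds]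
  intro ε hε
  obtain ⟨δ, hδ0, hδ1, hlow⟩ := hLOWP hRH (ε / 4) (by positivity)
  obtain ⟨C1, T1, hC1, hT1⟩ := hTH3 hRH 1 δ (by norm_num) hδ0 hδ1
  -- the choice of R
  obtain ⟨R, hRbig⟩ : ∃ R : ℕ, 16 * C1 / (ε / 8) ≤ R := exists_nat_ge _
  obtain ⟨R', hR'⟩ : ∃ R' : ℕ, R' = R + 2 := ⟨_, rfl⟩
  have hR2 : 2 ≤ R' := by omega
  have hR'pos : (0 : ℝ) < R' := by exact_mod_cast (show 0 < R' by omega)
  have hR'big : 16 * C1 / R' ≤ ε / 8 := by
    rw [div_le_iff₀ (by positivity)] at hRbig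
    rw [div_le_iff₀ hR'pos]
    have : (R : ℝ) ≤ R' := by exact_mod_cast (show R ≤ R' by omega)
    nlinarith
  obtain ⟨CR, T2, hCR, hT2⟩ := hTH3 hRH R' δ (Nat.cast_nonneg _) hδ0 hδ1
  -- the choice of K
  obtain ⟨K0, hK0⟩ : ∃ K : ℕ, 2 * CR / (ε / 16) ≤ K := exists_nat_ge _
  obtain ⟨K, hK⟩ : ∃ K : ℕ, K = K0 + 1 := ⟨_, rfl⟩
  have hK1 : 1 ≤ K := by omega
  have hKpos : (0 : ℝ) < K := by exact_mod_cast (show 0 < K by omega)
  have hKbig : 2 * CR / K ≤ ε / 16 := by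
    rw [div_le_iff₀ (by positivity)] at hK0
    rw [div_le_iff₀ hKpos]
    have : (K0 : ℝ) ≤ K := by exact_mod_cast (show K0 ≤ K by omega)
    nlinarith
  -- the choice of ε'
  obtain ⟨ε', hε'0, hε'1, hε'2⟩ : ∃ ε' : ℝ, 0 < ε' ∧ K * ε' ≤ 1 / 4 ∧
      32 * (K : ℝ) ^ 2 * ε' ^ 2 * CR ≤ ε / 16 := by
    have hA : 0 < 1 / (4 * (K : ℝ)) := by positivity
    have hB : 0 < ε / 16 / (32 * (K : ℝ) ^ 2 * CR) := by positivity
    refine ⟨min (1 / (4 * K)) (min 1 (ε / 16 / (32 * (K : ℝ) ^ 2 * CR))), by positivity, ?_, ?_⟩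
    · have h1 : min (1 / (4 * (K : ℝ))) (min 1 (ε / 16 / (32 * (K : ℝ) ^ 2 * CR))) ≤ 1 / (4 * K) :=
        min_le_left _ _
      calc (K : ℝ) * min (1 / (4 * (K : ℝ))) (min 1 (ε / 16 / (32 * (K : ℝ) ^ 2 * CR)))
          ≤ K * (1 / (4 * K)) := mul_le_mul_of_nonneg_left h1 hKpos.le
        _ = 1 / 4 := by field_simp
    · obtain ⟨m, hm⟩ : ∃ m : ℝ, m = min (1 / (4 * (K : ℝ))) (min 1 (ε / 16 / (32 * (K : ℝ) ^ 2 * CR))) :=
        ⟨_, rfl⟩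
      have hm0 : 0 < m := by rw [hm]; positivity
      have hm1 : m ≤ 1 := by
        rw [hm]
        exact (min_le_right _ _).trans (min_le_left _ _)
      have hm2 : m ≤ ε / 16 / (32 * (K : ℝ) ^ 2 * CR) := by
        rw [hm]
        exact (min_le_right _ _).trans (min_le_right _ _)
      rw [← hm]
      rw [le_div_iff₀ (by positivity)] at hm2
      have h2 : m ^ 2 ≤ m := by nlinarith
      calc 32 * (K : ℝ) ^ 2 * m ^ 2 * CR = m ^ 2 * (32 * (K : ℝ) ^ 2 * CR) := by ring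
        _ ≤ m * (32 * (K : ℝ) ^ 2 * CR) := mul_le_mul_of_nonneg_right h2 (by positivity)
        _ ≤ ε / 16 := hm2
  -- the choice of η
  obtain ⟨η, hη0, hη1⟩ : ∃ η : ℝ, 0 < η ∧ 2 * (K : ℝ) ^ 2 * η ≤ ε / 16 := by
    refine ⟨ε / 16 / (2 * (K : ℝ) ^ 2), by positivity, le_of_eq ?_⟩
    field_simp
  filter_upwards [hlow, hBAD hAH δ ε' η hδ0 hδ1 hε'0 hη0, eventually_ge_atTop T1,
    eventually_ge_atTop T2, eventually_ge_atTop 2] with T hTlow hTbad hTT1 hTT2 hTge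
  have hX := Xf_pos (V := T) (by linarith)
  rw [Real.dist_eq, sub_zero, abs_of_nonneg (EE_nonneg (by linarith))]
  obtain ⟨a, ha⟩ : ∃ a, a = NZ (δ * T) := ⟨_, rfl⟩
  obtain ⟨b, hb⟩ : ∃ b, b = NZ T := ⟨_, rfl⟩
  obtain ⟨y, hy⟩ : ∃ y, y = yy T := ⟨_, rfl⟩
  have h1 := hT1 T hTT1
  have h2 := hT2 T hTT2
  unfold EI at hTlow
  rw [← ha, ← hb, ← hy] at h1 h2 hTlow hTbad
  have hmono : ∀ n ∈ Finset.Ioc a b, ∀ m ∈ Finset.Ioc a b, n ≤ m → y n ≤ y m := by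
    intro n hn m _ hnm
    rw [Finset.mem_Ioc] at hn
    have h3 : ord n ≤ ord m := SG.ord_mono (by omega) hnm
    have hlog : 0 ≤ Real.log T := Real.log_nonneg (by linarith)
    rw [hy]
    unfold yy
    have hpi := Real.pi_pos
    gcongr
  classical
  obtain ⟨Bd, hBd⟩ : ∃ Bd : Finset ℕ, Bd = (Finset.Ioc a b).filter (fun j => j + 1 ≤ b ∧
      ∀ k : ℕ, 1 ≤ k → ε' < |y (j + 1) - y j - k / 2|) := ⟨_, rfl⟩
  have hBdcard : (Bd.card : ℝ) ≤ η * Xf T := by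
    refine le_trans (le_of_eq ?_) hTbad
    rw [← Set.ncard_coe_finset]
    congr 2
    ext j
    rw [hBd, Finset.coe_filter]
  have hnb : ∀ j ∈ Finset.Ioc a b, j + 1 ≤ b → j ∉ Bd →
      ∃ k : ℕ, 1 ≤ k ∧ |y (j + 1) - y j - k / 2| ≤ ε' := by
    intro j hj hj1 hjB
    by_contra hcon
    push Not at hcon
    apply hjB
    rw [hBd, Finset.mem_filter]
    exact ⟨hj, hj1, hcon⟩
  have h3 := hCMB a b K R' ε' CR (Xf T) y Bd hK1 hε'0 hε'1 (Nat.cast_nonneg _) hX.le hmono hnb h2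
  have h4 := near_far (Finset.Ioc a b) y R' hR2
  have h5 : ∑ n ∈ Finset.Ioc a b, (kI (Finset.Ioc a b) y 1 n : ℝ) ≤ C1 * Xf T := by
    refine le_trans (Finset.sum_le_sum fun n _ => ?_) h1
    have h6 : ((kI (Finset.Ioc a b) y 1 n : ℕ) : ℝ) ≤ ((kI (Finset.Ioc a b) y 1 n ^ 2 : ℕ) : ℝ) := by
      exact_mod_cast Nat.le_self_pow (by norm_num) _
    push_cast at h6
    exact h6
  have h6 : 16 / (R' : ℝ) * ∑ n ∈ Finset.Ioc a b, (kI (Finset.Ioc a b) y 1 n : ℝ) ≤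
      ε / 8 * Xf T := by
    calc 16 / (R' : ℝ) * ∑ n ∈ Finset.Ioc a b, (kI (Finset.Ioc a b) y 1 n : ℝ)
        ≤ 16 / (R' : ℝ) * (C1 * Xf T) := mul_le_mul_of_nonneg_left h5 (by positivity)
      _ = 16 * C1 / R' * Xf T := by ring
      _ ≤ ε / 8 * Xf T := mul_le_mul_of_nonneg_right hR'big hX.le
  have h7 : 2 * (16 * (K : ℝ) ^ 2 * ε' ^ 2 * (CR * Xf T) + CR * Xf T / K +
      (K : ℝ) ^ 2 * (Bd.card : ℝ)) ≤ 3 * (ε / 16) * Xf T := by
    have e1 : 32 * (K : ℝ) ^ 2 * ε' ^ 2 * CR * Xf T ≤ ε / 16 * Xf T :=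
      mul_le_mul_of_nonneg_right hε'2 hX.le
    have e2 : 2 * CR / K * Xf T ≤ ε / 16 * Xf T := mul_le_mul_of_nonneg_right hKbig hX.le
    have e3 : 2 * (K : ℝ) ^ 2 * (Bd.card : ℝ) ≤ ε / 16 * Xf T := by
      calc 2 * (K : ℝ) ^ 2 * (Bd.card : ℝ) ≤ 2 * (K : ℝ) ^ 2 * (η * Xf T) :=
            mul_le_mul_of_nonneg_left hBdcard (by positivity)
        _ = 2 * (K : ℝ) ^ 2 * η * Xf T := by ring
        _ ≤ ε / 16 * Xf T := mul_le_mul_of_nonneg_right hη1 hX.le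
    have e4 : 2 * (16 * (K : ℝ) ^ 2 * ε' ^ 2 * (CR * Xf T) + CR * Xf T / K +
      (K : ℝ) ^ 2 * (Bd.card : ℝ)) = 32 * (K : ℝ) ^ 2 * ε' ^ 2 * CR * Xf T + 2 * CR / K * Xf T +
        2 * (K : ℝ) ^ 2 * (Bd.card : ℝ) := by ring
    rw [e4]
    linarith
  have h8 : (Xf T)⁻¹ * ∑ n ∈ Finset.Ioc a b, ∑ n' ∈ Finset.Ioc a b,
      (if n = n' then 0 else Real.sinc (2 * Real.pi * (y n - y n')) ^ 2) ≤ ε / 2 := by
    rw [inv_mul_le_iff₀ hX]
    have : 0 < ε * Xf T := by positivity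
    nlinarith
  linarith

end H479.W
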