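import Pool.Agent.H479.W.Stm

/-! # from the normalised spacings to the gaps at the scale of T (proved by helper282) -/

/-!
# From the normalised spacings to the gaps at the scale of `T` (task W-BAD of helper479)
-/

open MeasureTheory Filter Topology

namespace H479.W.WBad

open H479.P
open Pool.Agent.Y744
open H177.Lat (kI yy del)
open SG (ord NZ)

theorem NZ_eq_NN (T : ℝ) : NZ T = H370.NN riemannZeta 0 T := by
  unfold SG.NZ H370.NN
  have h : {s : ℂ | riemannZeta s = 0 ∧ 0 < s.re ∧ s.re < 1 ∧ 0 < s.im ∧ s.im ≤ T} =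
      H370.zset riemannZeta 0 T := by
    ext s
    unfold H370.zset
    simp only [Set.mem_ofPred_eq]
    tauto
  rw [h]
  rfl

theorem NZ_bounds : ∃ T0 : ℝ, 10 ≤ T0 ∧ ∀ T : ℝ, T0 ≤ T →
    1 / 2 * Xf T ≤ (NZ T : ℝ) ∧ (NZ T : ℝ) ≤ 2 * Xf T := by
  obtain ⟨T0, hT0, h⟩ := Pool.Agent.W54.TCF.NT_asymp' (1 / 2) (by norm_num)
  refine ⟨T0, hT0, fun T hT => ?_⟩
  have hπ := Real.pi_pos
  have hX : T / (2 * Real.pi) * Real.log T = Xf T := by
    unfold Xf; ring
  obtain ⟨h1, h2⟩ := h T hT
  rw [hX] at h1 h2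
  rw [NZ_eq_NN]
  have h3 : 0 < Xf T := Xf_pos (by linarith)
  constructor <;> linarith

theorem NZ_tendsto : Tendsto NZ atTop atTop := by
  obtain ⟨T0, hT0, h⟩ := NZ_bounds
  rw [← tendsto_natCast_atTop_iff (R := ℝ)]
  have h1 : Tendsto (fun T : ℝ => T / (4 * Real.pi)) atTop atTop :=
    tendsto_id.atTop_div_const (by positivity)
  refine tendsto_atTop_mono' _ ?_ h1
  filter_upwards [eventually_ge_atTop T0] with T hT
  refine le_trans ?_ (h T hT).1
  have hπ := Real.pi_pos
  have hL : 1 ≤ Real.log T := by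
    have h3 : Real.exp 1 ≤ T := by
      have := Real.exp_one_lt_d9
      linarith
    rw [← Real.log_exp 1]
    exact Real.log_le_log (Real.exp_pos 1) h3
  unfold Xf
  have h4 : T / (4 * Real.pi) = 1 / 2 * (T * 1 / (2 * Real.pi)) := by ring
  rw [h4]
  have hT0' : 0 ≤ T := by linarith
  gcongr

end H479.W.WBad

namespace H479.W

open H479.P
open Pool.Agent.Y744
open H177.Lat (kI yy del)
open SG (ord NZ)
open WBad

theorem bad : S_BAD := by
  classical
  intro hAH δ ε η hδ hδ1 hε hη
  have hπ := Real.pi_pos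
  obtain ⟨T0, hT0, hN⟩ := NZ_bounds
  set U : ℝ := 2 / η with hU
  have hU0 : 0 < U := by positivity
  have hlδ : 0 ≤ 1 - Real.log δ := by
    have := Real.log_neg hδ hδ1
    linarith
  -- the count from the alternative hypothesis
  have hA := hAH (ε / 2) (by linarith)
  have hA1 : ∀ᶠ N : ℕ in atTop, ({j : ℕ | 1 ≤ j ∧ j ≤ N ∧ ∀ k : ℕ, 1 ≤ k →
      ε / 2 ≤ |del j - k / 2|}.ncard : ℝ) / N < η / 4 :=
    hA.eventually (gt_mem_nhds (by positivity))
  have hA2 := NZ_tendsto.eventually hA1
  have hA3 := NZ_tendsto.eventually (eventually_ge_atTop 1)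
  have hlog : ∀ᶠ T : ℝ in atTop, U * (1 - Real.log δ) / (ε / 2) ≤ Real.log T :=
    Real.tendsto_log_atTop.eventually_ge_atTop _
  filter_upwards [hA2, hA3, hlog, eventually_ge_atTop T0] with T hT1 hT2 hT3 hT4
  have hT10 : 10 ≤ T := hT0.trans hT4
  have hTpos : 0 < T := by linarith
  have hLpos : 0 < Real.log T := Real.log_pos (by linarith)
  have hX0 : 0 < Xf T := Xf_pos (by linarith)
  obtain ⟨-, hNup⟩ := hN T hT4
  set a := NZ (δ * T) with ha
  set b := NZ T with hb
  set y := yy T with hy
  have hgap0 : ∀ j, 1 ≤ j → 0 ≤ y (j + 1) - y j := by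
    intro j hj
    have h2 := SG.ord_mono hj (Nat.le_succ j)
    have h3 : y (j + 1) - y j = (ord (j + 1) - ord j) * (Real.log T / (2 * Real.pi)) := by
      simp only [hy, yy]; ring
    rw [h3]
    exact mul_nonneg (by linarith) (by positivity)
  -- the bad set
  set Bd : Finset ℕ := (Finset.Ioc a b).filter (fun j => j + 1 ≤ b ∧
    ∀ k : ℕ, 1 ≤ k → ε < |y (j + 1) - y j - k / 2|) with hBd
  have hset : {j : ℕ | j ∈ Finset.Ioc a b ∧ j + 1 ≤ b ∧
      ∀ k : ℕ, 1 ≤ k → ε < |y (j + 1) - y j - k / 2|} = (Bd : Set ℕ) := by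
    ext j
    simp only [hBd, Finset.coe_filter, Set.mem_ofPred_eq]
  rw [hset, Set.ncard_coe_finset]
  rcases Finset.eq_empty_or_nonempty Bd with hemp | hne
  · rw [hemp, Finset.card_empty, Nat.cast_zero]
    positivity
  obtain ⟨j0, hj0⟩ := hne
  have hBdmem : ∀ j ∈ Bd, a < j ∧ j + 1 ≤ b ∧
      ∀ k : ℕ, 1 ≤ k → ε < |y (j + 1) - y j - k / 2| := by
    intro j hj
    rw [hBd, Finset.mem_filter, Finset.mem_Ioc] at hj
    exact ⟨hj.1.1, hj.2.1, hj.2.2⟩
  have hab : a + 1 ≤ b := by
    have := hBdmem j0 hj0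
    omega
  have htot : ∑ j ∈ Bd, (y (j + 1) - y j) ≤ Xf T := by
    have h1 : ∑ j ∈ Bd, (y (j + 1) - y j) ≤ ∑ j ∈ Finset.Ico (a + 1) b, (y (j + 1) - y j) := by
      apply Finset.sum_le_sum_of_subset_of_nonneg
      · intro j hj
        have := hBdmem j hj
        rw [Finset.mem_Ico]
        omega
      · intro j hj _
        rw [Finset.mem_Ico] at hj
        exact hgap0 j (by omega)
    rw [H177.Lat.sum_gaps a b y hab] at h1
    refine h1.trans ?_
    have h2 : ord b ≤ T := (SG.ord_le_iff (by omega) _).mpr le_rfl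
    have h3 : δ * T < ord (a + 1) := by
      by_contra hcon2
      push Not at hcon2
      have := (SG.ord_le_iff (by omega : 1 ≤ a + 1) (δ * T)).mp hcon2
      omega
    have h5 : 0 < δ * T := by positivity
    have h4 : y b - y (a + 1) = (ord b - ord (a + 1)) * (Real.log T / (2 * Real.pi)) := by
      simp only [hy, yy]; ring
    have h6 : Xf T = T * (Real.log T / (2 * Real.pi)) := by unfold Xf; ring
    rw [h4, h6]
    apply mul_le_mul_of_nonneg_right _ (by positivity)
    linarith
  set Bs := Bd.filter (fun j => y (j + 1) - y j ≤ U) with hBs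
  have hbig : ((Bd.filter (fun j => ¬ (y (j + 1) - y j ≤ U))).card : ℝ) * U ≤ Xf T := by
    refine le_trans ?_ htot
    have h1 : ∑ j ∈ Bd.filter (fun j => ¬ (y (j + 1) - y j ≤ U)), U ≤
        ∑ j ∈ Bd.filter (fun j => ¬ (y (j + 1) - y j ≤ U)), (y (j + 1) - y j) := by
      refine Finset.sum_le_sum fun j hj => ?_
      have := (Finset.mem_filter.1 hj).2
      push Not at this
      exact this.le
    rw [Finset.sum_const, nsmul_eq_mul] at h1
    refine h1.trans ?_
    apply Finset.sum_le_sum_of_subset_of_nonneg (Finset.filter_subset _ _)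
    intro j hj _
    exact hgap0 j (by have := hBdmem j hj; omega)
  have hcard : (Bd.card : ℝ) = Bs.card + (Bd.filter (fun j => ¬ (y (j + 1) - y j ≤ U))).card := by
    rw [hBs]
    exact_mod_cast (Finset.card_filter_add_card_filter_not
      (s := Bd) (fun j => y (j + 1) - y j ≤ U)).symm
  have hbig2 : ((Bd.filter (fun j => ¬ (y (j + 1) - y j ≤ U))).card : ℝ) ≤ η / 2 * Xf T := by
    have h2 : ((Bd.filter (fun j => ¬ (y (j + 1) - y j ≤ U))).card : ℝ) ≤ Xf T / U := by
      rw [le_div_iff₀ hU0]; exact hbig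
    have h3 : Xf T / U = η / 2 * Xf T := by rw [hU]; field_simp
    rw [h3] at h2
    exact h2
  -- the small gaps
  set S : Set ℕ := {j : ℕ | 1 ≤ j ∧ j ≤ b ∧ ∀ k : ℕ, 1 ≤ k → ε / 2 ≤ |del j - k / 2|} with hS
  have hSfin : S.Finite := by
    refine (Set.finite_Iic b).subset ?_
    rintro n ⟨h1, h2, h3⟩
    exact h2
  have hsub : (Bs : Set ℕ) ⊆ S := by
    intro j hj
    rw [Finset.mem_coe, hBs, Finset.mem_filter] at hj
    obtain ⟨hj1, hj2⟩ := hj
    obtain ⟨g1, g2, g3⟩ := hBdmem j hj1
    have hj0' : 1 ≤ j := by omega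
    have q1 : δ * T < ord j := by
      by_contra hcon2
      push Not at hcon2
      have := (SG.ord_le_iff hj0' (δ * T)).mp hcon2
      omega
    have q2 : ord (j + 1) ≤ T := (SG.ord_le_iff (by omega) _).mpr g2
    have q3 : ord j ≤ ord (j + 1) := SG.ord_mono hj0' (Nat.le_succ j)
    have hδT : 0 < δ * T := by positivity
    have hx0 : 0 < ord j := by linarith
    refine ⟨hj0', by omega, fun k hk => ?_⟩
    set u := y (j + 1) - y j with hu
    have hu0 : 0 ≤ u := hgap0 j hj0'
    have hu1 : u = (ord (j + 1) - ord j) * Real.log T / (2 * Real.pi) := by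
      simp only [hu, hy, yy]; ring
    have hd0 : 0 ≤ ord (j + 1) - ord j := by linarith
    have hlogx : Real.log T + Real.log δ ≤ Real.log (ord j) := by
      rw [add_comm, ← Real.log_mul hδ.ne' hTpos.ne']
      exact Real.log_le_log hδT q1.le
    have hlogz : Real.log (ord (j + 1)) ≤ Real.log T :=
      Real.log_le_log (hx0.trans_le q3) q2
    have hlow : u - U * (1 - Real.log δ) / Real.log T ≤ del j := by
      have h5 : (ord (j + 1) - ord j) * (Real.log T + Real.log δ + 1) / (2 * Real.pi) ≤ del j := by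
        unfold H177.Lat.del
        apply div_le_div_of_nonneg_right _ (by positivity)
        refine le_trans ?_ (H177.Lat.xlog_low hx0 q3)
        exact mul_le_mul_of_nonneg_left (by linarith) hd0
      have h6 : (ord (j + 1) - ord j) * (Real.log T + Real.log δ + 1) / (2 * Real.pi) =
          u + u * (Real.log δ + 1) / Real.log T := by
        rw [hu1]
        field_simp
        ring
      rw [h6] at h5
      have h7 : -(U * (1 - Real.log δ) / Real.log T) ≤ u * (Real.log δ + 1) / Real.log T := by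
        rw [← neg_div]
        apply div_le_div_of_nonneg_right _ hLpos.le
        have h8 : Real.log δ < 0 := Real.log_neg hδ hδ1
        nlinarith [mul_le_mul_of_nonneg_right hj2 hlδ]
      linarith
    have hup : del j ≤ u + U * (1 - Real.log δ) / Real.log T := by
      have h5 : del j ≤ (ord (j + 1) - ord j) * (Real.log T + 1) / (2 * Real.pi) := by
        unfold H177.Lat.del
        apply div_le_div_of_nonneg_right _ (by positivity)
        exact (H370.A3.xlog_aux hx0 q3).trans (mul_le_mul_of_nonneg_left (by linarith) hd0)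
      have h6 : (ord (j + 1) - ord j) * (Real.log T + 1) / (2 * Real.pi) =
          u + u / Real.log T := by
        rw [hu1]
        field_simp
      rw [h6] at h5
      refine h5.trans ?_
      have h7 : u / Real.log T ≤ U * (1 - Real.log δ) / Real.log T := by
        apply div_le_div_of_nonneg_right _ hLpos.le
        have h8 : Real.log δ < 0 := Real.log_neg hδ hδ1
        nlinarith [mul_pos hU0 (neg_pos.2 h8)]
      linarith
    have hsmall : U * (1 - Real.log δ) / Real.log T ≤ ε / 2 := by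
      rw [div_le_iff₀ (by positivity)] at hT3
      rw [div_le_iff₀ hLpos]
      linarith
    have h9 : |del j - u| ≤ ε / 2 := abs_le.2 ⟨by linarith, by linarith⟩
    have h10 := g3 k hk
    have h11 : |u - (k : ℝ) / 2| ≤ |del j - u| + |del j - k / 2| := by
      have e1 : u - (k : ℝ) / 2 = -(del j - u) + (del j - k / 2) := by ring
      rw [e1]
      refine (abs_add_le _ _).trans ?_
      rw [abs_neg]
    linarith
  have hBsc : (Bs.card : ℝ) ≤ η / 2 * Xf T := by
    have h1 : Bs.card ≤ S.ncard := by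
      rw [← Set.ncard_coe_finset Bs]
      exact Set.ncard_le_ncard hsub hSfin
    have h2 : (Bs.card : ℝ) ≤ (S.ncard : ℝ) := by exact_mod_cast h1
    have hb0 : (0 : ℝ) < b := by
      have : 0 < b := hT2
      exact_mod_cast this
    rw [div_lt_iff₀ hb0] at hT1
    have h3 : η / 4 * (b : ℝ) ≤ η / 4 * (2 * Xf T) :=
      mul_le_mul_of_nonneg_left hNup (by positivity)
    linarith
  rw [hcard]
  linarith

end H479.W
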