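import Pool.Agent.H479.W.Stm

/-! # near pairs and bad gaps (pure finite combinatorics) (proved by helper784) -/

open MeasureTheory Filter Topology

namespace H479.W

open H479.P
open Pool.Agent.Y744
open H177.Lat (kI yy del)
open SG (ord NZ)

namespace CMBaux

lemma sinc_sq_le_one (x : ℝ) : Real.sinc x ^ 2 ≤ 1 := by
  have h := Real.abs_sinc_le_one x
  have := pow_le_pow_left₀ (abs_nonneg _) h 2
  simpa [sq_abs] using this

/-- near a positive multiple of `1/2` -/
lemma sinc_sq_near (d η : ℝ) (p : ℕ) (hp : 1 ≤ p) (hη : η ≤ 1 / 4)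
    (h : |d - p / 2| ≤ η) : Real.sinc (2 * Real.pi * d) ^ 2 ≤ 16 * η ^ 2 := by
  have hp' : (1 : ℝ) ≤ p := by exact_mod_cast hp
  have h1 := abs_le.1 h
  have hd : 1 / 4 ≤ d := by linarith
  have hη0 : 0 ≤ η := (abs_nonneg _).trans h
  have hpi := Real.pi_pos
  have hx : 0 < 2 * Real.pi * d := by positivity
  rw [Real.sinc_of_ne_zero hx.ne', div_pow]
  have hs : |Real.sin (2 * Real.pi * d)| ≤ 2 * Real.pi * η := by
    have e : 2 * Real.pi * d = 2 * Real.pi * (d - p / 2) + p * Real.pi := by ring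
    rw [e, Real.sin_add_nat_mul_pi, abs_mul, abs_pow, abs_neg, abs_one, one_pow, one_mul]
    refine Real.abs_sin_le_abs.trans ?_
    rw [abs_mul, abs_of_pos (by positivity : (0 : ℝ) < 2 * Real.pi)]
    exact mul_le_mul_of_nonneg_left h (by positivity)
  have hs2 : Real.sin (2 * Real.pi * d) ^ 2 ≤ (2 * Real.pi * η) ^ 2 := by
    rw [← sq_abs]
    exact pow_le_pow_left₀ (abs_nonneg _) hs 2
  rw [div_le_iff₀ (by positivity)]
  have h3 : (2 * Real.pi * (1 / 4)) ^ 2 ≤ (2 * Real.pi * d) ^ 2 :=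
    pow_le_pow_left₀ (by positivity) (mul_le_mul_of_nonneg_left hd (by positivity)) 2
  calc Real.sin (2 * Real.pi * d) ^ 2 ≤ (2 * Real.pi * η) ^ 2 := hs2
    _ = 16 * η ^ 2 * (2 * Real.pi * (1 / 4)) ^ 2 := by ring
    _ ≤ 16 * η ^ 2 * (2 * Real.pi * d) ^ 2 := mul_le_mul_of_nonneg_left h3 (by positivity)

lemma chain (a b : ℕ) (ε : ℝ) (y : ℕ → ℝ) (Bd : Finset ℕ)
    (hgap : ∀ j ∈ Finset.Ioc a b, j + 1 ≤ b → j ∉ Bd →
      ∃ k : ℕ, 1 ≤ k ∧ |y (j + 1) - y j - k / 2| ≤ ε) (n : ℕ) (hn : n ∈ Finset.Ioc a b) :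
    ∀ k : ℕ, n + k ≤ b → (∀ j, n ≤ j → j < n + k → j ∉ Bd) →
      ∃ p : ℕ, k ≤ p ∧ |y (n + k) - y n - p / 2| ≤ k * ε := by
  intro k
  induction k with
  | zero =>
    intro _ _
    exact ⟨0, le_rfl, by simp⟩
  | succ k ih =>
    intro hk hb
    obtain ⟨p, hp, hp'⟩ := ih (by omega) (fun j h1 h2 => hb j h1 (by omega))
    have hn' := Finset.mem_Ioc.1 hn
    obtain ⟨q, hq, hq'⟩ := hgap (n + k) (Finset.mem_Ioc.2 ⟨by omega, by omega⟩) (by omega)
      (hb (n + k) (by omega) (by omega))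
    refine ⟨p + q, by omega, ?_⟩
    have e : y (n + (k + 1)) - y n - ((p + q : ℕ) : ℝ) / 2 =
        (y (n + k + 1) - y (n + k) - q / 2) + (y (n + k) - y n - p / 2) := by
      rw [← add_assoc]
      push_cast
      ring
    rw [e]
    refine (abs_add_le _ _).trans ?_
    push_cast
    linarith

end CMBaux

open CMBaux in
theorem cmb : S_CMB := by
  intro a b K R ε C2 M y Bd hK hε hKε hR hM hmono hgap hsum
  classical
  set I := Finset.Ioc a b with hI
  have hK0 : (0 : ℝ) < K := by exact_mod_cast hK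
  -- the half sum
  set g : ℕ → ℕ → ℝ := fun n n' =>
    if n < n' ∧ |y n - y n'| ≤ R then Real.sinc (2 * Real.pi * (y n - y n')) ^ 2 else 0 with hg
  have hfg : ∀ n n', (if n ≠ n' ∧ |y n - y n'| ≤ R then
      Real.sinc (2 * Real.pi * (y n - y n')) ^ 2 else 0) = g n n' + g n' n := by
    intro n n'
    simp only [hg]
    rw [abs_sub_comm (y n') (y n)]
    have es : Real.sinc (2 * Real.pi * (y n' - y n)) = Real.sinc (2 * Real.pi * (y n - y n')) := by
      rw [← Real.sinc_neg]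
      congr 1
      ring
    rw [es]
    rcases lt_trichotomy n n' with h | h | h
    · by_cases hr : |y n - y n'| ≤ R
      · rw [if_pos ⟨h.ne, hr⟩, if_pos ⟨h, hr⟩, if_neg (fun x => lt_asymm h x.1), add_zero]
      · rw [if_neg (fun x => hr x.2), if_neg (fun x => hr x.2), if_neg (fun x => hr x.2), add_zero]
    · subst h
      simp
    · by_cases hr : |y n - y n'| ≤ R
      · rw [if_pos ⟨h.ne', hr⟩, if_neg (fun x => lt_asymm h x.1), if_pos ⟨h, hr⟩, zero_add]
      · rw [if_neg (fun x => hr x.2), if_neg (fun x => hr x.2), if_neg (fun x => hr x.2), add_zero]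
  have hdouble : ∑ n ∈ I, ∑ n' ∈ I, (if n ≠ n' ∧ |y n - y n'| ≤ R then
      Real.sinc (2 * Real.pi * (y n - y n')) ^ 2 else 0) = 2 * ∑ n ∈ I, ∑ n' ∈ I, g n n' := by
    simp only [hfg, Finset.sum_add_distrib]
    rw [Finset.sum_comm (f := fun n n' => g n' n)]
    ring
  rw [hdouble]
  refine mul_le_mul_of_nonneg_left ?_ (by norm_num)
  -- indicator bounds
  set A : ℕ → ℕ → ℝ := fun n n' => if n < n' ∧ |y n - y n'| ≤ R ∧ n + K < n' then 1 else 0 with hA
  set B : ℕ → ℕ → ℝ := fun n n' =>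
    if n < n' ∧ n' ≤ n + K ∧ ∃ j ∈ Bd, n ≤ j ∧ j < n' then 1 else 0 with hB
  set C : ℕ → ℕ → ℝ := fun n n' => if |y n - y n'| ≤ R then 1 else 0 with hC
  have hA0 : ∀ n n', 0 ≤ A n n' := fun n n' => by
    simp only [hA]; split_ifs <;> norm_num
  have hB0 : ∀ n n', 0 ≤ B n n' := fun n n' => by
    simp only [hB]; split_ifs <;> norm_num
  have hC0 : ∀ n n', 0 ≤ C n n' := fun n n' => by
    simp only [hC]; split_ifs <;> norm_num
  have hc : (0 : ℝ) ≤ 16 * (K : ℝ) ^ 2 * ε ^ 2 := by positivity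
  have key : ∀ n ∈ I, ∀ n' ∈ I, g n n' ≤ 16 * (K : ℝ) ^ 2 * ε ^ 2 * C n n' + A n n' + B n n' := by
    intro n hn n' hn'
    by_cases h : n < n' ∧ |y n - y n'| ≤ R
    · have hgv : g n n' = Real.sinc (2 * Real.pi * (y n - y n')) ^ 2 := by
        simp only [hg]; rw [if_pos h]
      rw [hgv]
      by_cases h1 : n + K < n'
      · have hAv : A n n' = 1 := by simp only [hA]; rw [if_pos ⟨h.1, h.2, h1⟩]
        have := sinc_sq_le_one (2 * Real.pi * (y n - y n'))
        have := mul_nonneg hc (hC0 n n')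
        have := hB0 n n'
        linarith
      · push Not at h1
        by_cases h2 : ∃ j ∈ Bd, n ≤ j ∧ j < n'
        · have hBv : B n n' = 1 := by simp only [hB]; rw [if_pos ⟨h.1, h1, h2⟩]
          have := sinc_sq_le_one (2 * Real.pi * (y n - y n'))
          have := mul_nonneg hc (hC0 n n')
          have := hA0 n n'
          linarith
        · push Not at h2
          have hCv : C n n' = 1 := by simp only [hC]; rw [if_pos h.2]
          obtain ⟨k, rfl⟩ : ∃ k, n' = n + k := ⟨n' - n, by omega⟩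
          have hn'b := (Finset.mem_Ioc.1 hn').2
          obtain ⟨p, hp, hp'⟩ := chain a b ε y Bd hgap n hn k hn'b
            (fun j h3 h4 h5 => absurd h4 (not_lt.2 (h2 j h5 h3)))
          have hkK : (k : ℝ) * ε ≤ K * ε := by
            apply mul_le_mul_of_nonneg_right _ hε.le
            exact_mod_cast (by omega : k ≤ K)
          have h6 := sinc_sq_near (y (n + k) - y n) (K * ε) p (by omega) hKε (hp'.trans hkK)
          have es : Real.sinc (2 * Real.pi * (y n - y (n + k))) =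
              Real.sinc (2 * Real.pi * (y (n + k) - y n)) := by
            rw [← Real.sinc_neg]
            congr 1
            ring
          rw [es, hCv]
          have := hA0 n (n + k)
          have := hB0 n (n + k)
          calc Real.sinc (2 * Real.pi * (y (n + k) - y n)) ^ 2 ≤ 16 * (K * ε) ^ 2 := h6
            _ = 16 * (K : ℝ) ^ 2 * ε ^ 2 * 1 := by ring
            _ ≤ _ := by linarith
    · have hgv : g n n' = 0 := by simp only [hg]; rw [if_neg h]
      rw [hgv]
      have := mul_nonneg hc (hC0 n n')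
      have := hA0 n n'
      have := hB0 n n'
      linarith
  -- the sum of C
  have hkC : ∀ n, ∑ n' ∈ I, C n n' = (kI I y R n : ℝ) := by
    intro n
    simp only [hC, kI]
    rw [Finset.sum_boole]
  have hsumC : ∑ n ∈ I, ∑ n' ∈ I, C n n' ≤ C2 * M := by
    refine le_trans (Finset.sum_le_sum fun n _ => ?_) hsum
    rw [hkC]
    have : (kI I y R n : ℝ) ≤ ((kI I y R n ^ 2 : ℕ) : ℝ) := by
      exact_mod_cast Nat.le_self_pow two_ne_zero _
    simpa using this
  -- the sum of A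
  have hsumA : ∑ n ∈ I, ∑ n' ∈ I, A n n' ≤ C2 * M / K := by
    rw [le_div_iff₀ hK0, Finset.sum_mul]
    refine le_trans (Finset.sum_le_sum fun n hn => ?_) hsum
    by_cases hex : ∃ n' ∈ I, n < n' ∧ |y n - y n'| ≤ R ∧ n + K < n'
    · obtain ⟨m, hm, h1, h2, h3⟩ := hex
      have hle : ∑ n' ∈ I, A n n' ≤ (kI I y R n : ℝ) := by
        rw [← hkC]
        refine Finset.sum_le_sum fun n' _ => ?_
        simp only [hA, hC]
        by_cases h : |y n - y n'| ≤ R
        · rw [if_pos h]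
          split_ifs <;> norm_num
        · rw [if_neg (fun x => h x.2.1), if_neg h]
      have hKk : (K : ℝ) ≤ (kI I y R n : ℝ) := by
        have hsub : Finset.Ioc n m ⊆ I.filter (fun n' => |y n - y n'| ≤ R) := by
          intro j hj
          rw [Finset.mem_Ioc] at hj
          have hn' := Finset.mem_Ioc.1 hn
          have hm' := Finset.mem_Ioc.1 hm
          have hjI : j ∈ I := Finset.mem_Ioc.2 ⟨by omega, by omega⟩
          refine Finset.mem_filter.2 ⟨hjI, ?_⟩
          have l1 := hmono n hn j hjI (by omega)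
          have l2 := hmono j hjI m hm (by omega)
          rw [abs_le] at h2 ⊢
          constructor <;> linarith [h2.1, h2.2]
        have hcard := Finset.card_le_card hsub
        rw [Nat.card_Ioc] at hcard
        have : K ≤ kI I y R n := by
          unfold kI
          omega
        exact_mod_cast this
      calc (∑ n' ∈ I, A n n') * K ≤ (kI I y R n : ℝ) * (kI I y R n : ℝ) :=
            mul_le_mul hle hKk hK0.le (Nat.cast_nonneg _)
        _ = (kI I y R n : ℝ) ^ 2 := by ring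
    · have h0 : ∑ n' ∈ I, A n n' = 0 := by
        refine Finset.sum_eq_zero fun n' hn' => ?_
        simp only [hA]
        rw [if_neg]
        exact fun h => hex ⟨n', hn', h⟩
      rw [h0, zero_mul]
      positivity
  -- the sum of B
  have hsumB : ∑ n ∈ I, ∑ n' ∈ I, B n n' ≤ (K : ℝ) ^ 2 * (Bd.card : ℝ) := by
    rw [← Finset.sum_product']
    simp only [hB]
    rw [Finset.sum_boole]
    have hsub : (I ×ˢ I).filter (fun x : ℕ × ℕ => x.1 < x.2 ∧ x.2 ≤ x.1 + K ∧
        ∃ j ∈ Bd, x.1 ≤ j ∧ j < x.2) ⊆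
        Bd.biUnion fun j => Finset.Ioc (j - K) j ×ˢ Finset.Ioc j (j + K) := by
      rintro ⟨n, n'⟩ h
      rw [Finset.mem_filter] at h
      obtain ⟨hI2, h1, h2, j, hj, h3, h4⟩ := h
      have hn := Finset.mem_Ioc.1 (Finset.mem_product.1 hI2).1
      simp only at hn h1 h2 h3 h4
      refine Finset.mem_biUnion.2 ⟨j, hj, Finset.mem_product.2 ⟨?_, ?_⟩⟩
      · exact Finset.mem_Ioc.2 ⟨by simp only; omega, h3⟩
      · exact Finset.mem_Ioc.2 ⟨h4, by simp only; omega⟩
    have hcard := (Finset.card_le_card hsub).trans Finset.card_biUnion_le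
    have hb : ∑ j ∈ Bd, (Finset.Ioc (j - K) j ×ˢ Finset.Ioc j (j + K)).card ≤
        ∑ j ∈ Bd, K * K := by
      refine Finset.sum_le_sum fun j _ => ?_
      rw [Finset.card_product, Nat.card_Ioc, Nat.card_Ioc]
      exact Nat.mul_le_mul (by omega) (by omega)
    rw [Finset.sum_const, smul_eq_mul] at hb
    have h5 := hcard.trans hb
    have h6 : (((I ×ˢ I).filter (fun x : ℕ × ℕ => x.1 < x.2 ∧ x.2 ≤ x.1 + K ∧
        ∃ j ∈ Bd, x.1 ≤ j ∧ j < x.2)).card : ℝ) ≤ ((Bd.card * (K * K) : ℕ) : ℝ) := by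
      exact_mod_cast h5
    refine h6.trans (le_of_eq ?_)
    push_cast
    ring
  calc ∑ n ∈ I, ∑ n' ∈ I, g n n'
      ≤ ∑ n ∈ I, ∑ n' ∈ I, (16 * (K : ℝ) ^ 2 * ε ^ 2 * C n n' + A n n' + B n n') :=
        Finset.sum_le_sum fun n hn => Finset.sum_le_sum fun n' hn' => key n hn n' hn'
    _ = 16 * (K : ℝ) ^ 2 * ε ^ 2 * (∑ n ∈ I, ∑ n' ∈ I, C n n') + (∑ n ∈ I, ∑ n' ∈ I, A n n') +
          ∑ n ∈ I, ∑ n' ∈ I, B n n' := by
        simp only [Finset.sum_add_distrib, Finset.mul_sum]
    _ ≤ 16 * (K : ℝ) ^ 2 * ε ^ 2 * (C2 * M) + C2 * M / K + (K : ℝ) ^ 2 * (Bd.card : ℝ) := by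
        have := mul_le_mul_of_nonneg_left hsumC hc
        linarith
end H479.W
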