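import Pool.Agent.H479.W.Stm

/-! # the windows in [1, 2) (proved by helper548) -/

open MeasureTheory Filter Topology

namespace H479.W

open H479.P
open Pool.Agent.Y744
open H177.Lat (kI yy del)
open SG (ord NZ)

namespace DW548

/-- smooth bumps -/
lemma bump {a b η : ℝ} (h : a < b) (hη : 0 < η) : ∃ φ : ℝ → ℝ, ContDiff ℝ (⊤ : ℕ∞) φ ∧
    HasCompactSupport φ ∧ (∀ x, 0 ≤ φ x) ∧ (∀ x, φ x ≤ 1) ∧ (∀ x ∈ Set.Icc a b, φ x = 1) ∧
    ∀ x, x ∉ Set.Ioo (a - η) (b + η) → φ x = 0 := by
  let f : ContDiffBump ((a + b) / 2) := ⟨(b - a) / 2, (b - a) / 2 + η, by linarith, by linarith⟩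
  refine ⟨f, f.contDiff, f.hasCompactSupport, fun x => f.nonneg, fun x => f.le_one,
    fun x hx => ?_, fun x hx => ?_⟩
  · apply f.one_of_mem_closedBall
    rw [Metric.mem_closedBall, Real.dist_eq, abs_le]
    have h1 : f.rIn = (b - a) / 2 := rfl
    rw [h1]
    constructor <;> linarith [hx.1, hx.2]
  · apply f.zero_of_le_dist
    have h1 : f.rOut = (b - a) / 2 + η := rfl
    rw [h1, Real.dist_eq]
    by_contra hcon
    push Not at hcon
    rw [abs_lt] at hcon
    exact hx ⟨by linarith [hcon.1], by linarith [hcon.2]⟩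

lemma mono_int {f φ : ℝ → ℝ} (hf : Continuous f) (hφ : Continuous φ) {a b η : ℝ} (hab : a < b)
    (hη : 0 < η) (h1 : 1 ≤ a - η) (h2 : b + η ≤ 2) (f0 : ∀ x ∈ Set.Icc (1 : ℝ) 2, 0 ≤ f x)
    (φ0 : ∀ x, 0 ≤ φ x) (φ1 : ∀ x, φ x ≤ 1) (φI : ∀ x ∈ Set.Icc a b, φ x = 1)
    (φO : ∀ x, x ∉ Set.Ioo (a - η) (b + η) → φ x = 0) :
    ∫ x in a..b, f x ≤ ∫ x in (1 : ℝ)..2, φ x * f x ∧
      ∫ x in (1 : ℝ)..2, φ x * f x ≤ ∫ x in (a - η)..(b + η), f x := by
  have hc : Continuous fun x => φ x * f x := hφ.mul hf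
  have ii : ∀ x y : ℝ, IntervalIntegrable (fun x => φ x * f x) volume x y := fun x y =>
    hc.intervalIntegrable _ _
  constructor
  · have e1 : ∫ x in a..b, f x = ∫ x in a..b, φ x * f x := by
      refine intervalIntegral.integral_congr fun x hx => ?_
      rw [Set.uIcc_of_le hab.le] at hx
      rw [φI x hx, one_mul]
    rw [e1]
    refine intervalIntegral.integral_mono_interval (by linarith) hab.le (by linarith) ?_ (ii _ _)
    refine (ae_restrict_iff' measurableSet_Ioc).2 (Eventually.of_forall fun x hx => ?_)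
    exact mul_nonneg (φ0 x) (f0 x ⟨hx.1.le, hx.2⟩)
  · have e1 := intervalIntegral.integral_add_adjacent_intervals (ii 1 (a - η)) (ii (a - η) (b + η))
    have e2 := intervalIntegral.integral_add_adjacent_intervals (ii 1 (b + η)) (ii (b + η) 2)
    have z1 : ∫ x in (1 : ℝ)..(a - η), φ x * f x = 0 := by
      rw [intervalIntegral.integral_congr (g := fun _ => (0 : ℝ)) fun x hx => ?_]
      · simp
      · rw [Set.uIcc_of_le h1] at hx
        simp only
        rw [φO x (fun h => by linarith [h.1, hx.2]), zero_mul]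
    have z2 : ∫ x in (b + η)..(2 : ℝ), φ x * f x = 0 := by
      rw [intervalIntegral.integral_congr (g := fun _ => (0 : ℝ)) fun x hx => ?_]
      · simp
      · rw [Set.uIcc_of_le h2] at hx
        simp only
        rw [φO x (fun h => by linarith [h.2, hx.1]), zero_mul]
    have z3 : ∫ x in (a - η)..(b + η), φ x * f x ≤ ∫ x in (a - η)..(b + η), f x := by
      refine intervalIntegral.integral_mono_on (by linarith) (ii _ _)
        (hf.intervalIntegrable _ _) fun x hx => ?_
      have h3 := f0 x ⟨by linarith [hx.1], by linarith [hx.2]⟩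
      have h4 := mul_le_mul_of_nonneg_right (φ1 x) h3
      linarith
    linarith

/-- the integral over a slightly larger interval -/
lemma near {h : ℝ → ℝ} (hh : Continuous h) {a b c d : ℝ} (h1 : 1 ≤ a) (hac : a ≤ c)
    (hcd : c ≤ d) (hdb : d ≤ b) (h2 : b ≤ 2) (h0 : ∀ x ∈ Set.Icc (1 : ℝ) 2, 0 ≤ h x)
    (hle : ∀ x ∈ Set.Icc (1 : ℝ) 2, h x ≤ 1) :
    ∫ x in c..d, h x ≤ ∫ x in a..b, h x ∧
      ∫ x in a..b, h x ≤ (∫ x in c..d, h x) + ((c - a) + (b - d)) := by
  have ii : ∀ x y : ℝ, IntervalIntegrable h volume x y := fun x y => hh.intervalIntegrable _ _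
  have e1 := intervalIntegral.integral_add_adjacent_intervals (ii a c) (ii c d)
  have e2 := intervalIntegral.integral_add_adjacent_intervals (ii a d) (ii d b)
  have key : ∀ x y : ℝ, x ≤ y → 1 ≤ x → y ≤ 2 → 0 ≤ ∫ t in x..y, h t ∧
      ∫ t in x..y, h t ≤ y - x := by
    intro x y hxy hx hy
    constructor
    · exact intervalIntegral.integral_nonneg hxy fun t ht =>
        h0 t ⟨by linarith [ht.1], by linarith [ht.2]⟩
    · have h3 : ∫ t in x..y, h t ≤ ∫ t in x..y, (1 : ℝ) :=
        intervalIntegral.integral_mono_on hxy (ii _ _) intervalIntegrable_const fun t ht =>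
          hle t ⟨by linarith [ht.1], by linarith [ht.2]⟩
      simpa using h3
  have k1 := key a c hac h1 (by linarith)
  have k2 := key d b hdb (by linarith) h2
  constructor <;> linarith [k1.1, k1.2, k2.1, k2.2]

lemma sixth : ∫ α in (1 : ℝ)..2, (1 - α / 2) * (2 - α) = 1 / 6 := by
  have e : (fun α : ℝ => (1 - α / 2) * (2 - α)) = fun α => α ^ 2 / 2 - 2 * α + 2 := by
    funext α
    ring
  rw [e, intervalIntegral.integral_add (by apply Continuous.intervalIntegrable; fun_prop)
    (by apply Continuous.intervalIntegrable; fun_prop),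
    intervalIntegral.integral_sub (by apply Continuous.intervalIntegrable; fun_prop)
    (by apply Continuous.intervalIntegrable; fun_prop), intervalIntegral.integral_const_mul,
    integral_id, intervalIntegral.integral_div, integral_pow]
  norm_num

section core

variable {F : ℝ → ℝ → ℝ} (hc : ∀ T, Continuous (F T)) (h0 : ∀ᶠ T in atTop, ∀ α, 0 ≤ F T α)
  (hw : ∀ w : ℝ → ℝ, ContDiff ℝ (⊤ : ℕ∞) w → HasCompactSupport w →
    (∀ x, x ∉ Set.Ioo (1 : ℝ) 2 → w x = 0) →
    Tendsto (fun T => ∫ α in (1 : ℝ)..2, w α * F T α) atTop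
      (𝓝 (∫ α in (1 : ℝ)..2, w α * (2 - α))))

include hc h0 hw

/-- windows inside the open interval -/
lemma claimA {a b : ℝ} (ha : 1 < a) (hab : a < b) (hb : b < 2) {ε : ℝ} (hε : 0 < ε) :
    ∀ᶠ T in atTop, |(∫ α in a..b, F T α) - ∫ α in a..b, (2 - α)| ≤ ε := by
  obtain ⟨η, hη, h1, h2, h3, h4⟩ : ∃ η : ℝ, 0 < η ∧ η ≤ a - 1 ∧ η ≤ 2 - b ∧ 4 * η ≤ ε ∧
      4 * η ≤ b - a := by
    refine ⟨min (min (a - 1) (2 - b)) (min (ε / 4) ((b - a) / 4)), ?_, ?_, ?_, ?_, ?_⟩
    · refine lt_min (lt_min (by linarith) (by linarith)) (lt_min (by linarith) (by linarith))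
    · exact (min_le_left _ _).trans (min_le_left _ _)
    · exact (min_le_left _ _).trans (min_le_right _ _)
    · have := (min_le_right (min (a - 1) (2 - b)) (min (ε / 4) ((b - a) / 4))).trans
        (min_le_left _ _)
      linarith
    · have := (min_le_right (min (a - 1) (2 - b)) (min (ε / 4) ((b - a) / 4))).trans
        (min_le_right _ _)
      linarith
  have hlc : Continuous fun α : ℝ => 2 - α := by fun_prop
  have hl0 : ∀ x ∈ Set.Icc (1 : ℝ) 2, (0 : ℝ) ≤ 2 - x := fun x hx => by linarith [hx.2]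
  have hl1 : ∀ x ∈ Set.Icc (1 : ℝ) 2, (2 : ℝ) - x ≤ 1 := fun x hx => by linarith [hx.1]
  obtain ⟨φ, p1, p2, p3, p4, p5, p6⟩ := bump hab hη
  obtain ⟨ψ, q1, q2, q3, q4, q5, q6⟩ := bump (a := a + η) (b := b - η) (by linarith) hη
  have tφ := hw φ p1 p2 fun x hx => p6 x fun h => hx ⟨by linarith [h.1], by linarith [h.2]⟩
  have tψ := hw ψ q1 q2 fun x hx => q6 x fun h => hx ⟨by linarith [h.1], by linarith [h.2]⟩
  have mφ := mono_int hlc p1.continuous hab hη (by linarith) (by linarith) hl0 p3 p4 p5 p6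
  have mψ := mono_int hlc q1.continuous (a := a + η) (b := b - η) (by linarith) hη
    (by linarith) (by linarith) hl0 q3 q4 q5 q6
  have n1 := near hlc (a := a - η) (b := b + η) (c := a) (d := b) (by linarith) (by linarith)
    hab.le (by linarith) (by linarith) hl0 hl1
  have n2 := near hlc (a := a) (b := b) (c := a + η) (d := b - η) (by linarith) (by linarith)
    (by linarith) (by linarith) (by linarith) hl0 hl1
  have t1 := tφ.eventually (gt_mem_nhds (show ∫ α in (1 : ℝ)..2, φ α * (2 - α) <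
    (∫ α in (1 : ℝ)..2, φ α * (2 - α)) + η by linarith))
  have t2 := tψ.eventually (lt_mem_nhds (show (∫ α in (1 : ℝ)..2, ψ α * (2 - α)) - η <
    ∫ α in (1 : ℝ)..2, ψ α * (2 - α) by linarith))
  filter_upwards [h0, t1, t2] with T hT0 hT1 hT2
  have r1 := (mono_int (hc T) p1.continuous hab hη (by linarith) (by linarith)
    (fun x _ => hT0 x) p3 p4 p5 p6).1
  have r2 := (mono_int (hc T) q1.continuous (a := a + η) (b := b - η) (by linarith) hη
    (by linarith) (by linarith) (fun x _ => hT0 x) q3 q4 q5 q6).2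
  rw [add_sub_cancel_right, sub_add_cancel] at r2
  rw [abs_le]
  constructor <;> linarith [mφ.1, mφ.2, mψ.1, mψ.2, n1.1, n1.2, n2.1, n2.2]

variable (hJ : Tendsto (fun T => ∫ α in (1 : ℝ)..2, (1 - α / 2) * F T α) atTop (𝓝 (1 / 6)))

include hJ

/-- small windows at the left end -/
lemma claimB {η : ℝ} (hη : 0 < η) (hη' : η ≤ 1 / 8) :
    ∀ᶠ T in atTop, ∫ α in (1 : ℝ)..(1 + η / 2), F T α ≤ 16 * η := by
  obtain ⟨φ, p1, p2, p3, p4, p5, p6⟩ := bump (a := 1 + η) (b := 2 - η) (η := η / 2)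
    (by linarith) (by linarith)
  obtain ⟨w, hwd⟩ : ∃ w : ℝ → ℝ, w = fun α => (1 - α / 2) * φ α := ⟨_, rfl⟩
  have w1 : ContDiff ℝ (⊤ : ℕ∞) w := by
    rw [hwd]
    exact (contDiff_const.sub (contDiff_id.div_const 2)).mul p1
  have w2 : HasCompactSupport w := by
    rw [hwd]
    exact p2.mul_left
  have w3 : ∀ x, x ∉ Set.Ioo (1 + η / 2) (2 - η / 2) → w x = 0 := by
    intro x hx
    rw [hwd]
    simp only
    rw [p6 x fun h => hx ⟨by linarith [h.1], by linarith [h.2]⟩, mul_zero]
  have tw := hw w w1 w2 fun x hx => w3 x fun h => hx ⟨by linarith [h.1], by linarith [h.2]⟩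
  -- the limit
  obtain ⟨g, hg⟩ : ∃ g : ℝ → ℝ, g = fun α => (1 - α / 2) * (2 - α) := ⟨_, rfl⟩
  have gc : Continuous g := by
    rw [hg]
    fun_prop
  have g0 : ∀ x ∈ Set.Icc (1 : ℝ) 2, 0 ≤ g x := by
    intro x hx
    rw [hg]
    exact mul_nonneg (by linarith [hx.2]) (by linarith [hx.2])
  have g1 : ∀ x ∈ Set.Icc (1 : ℝ) 2, g x ≤ 1 := by
    intro x hx
    rw [hg]
    simp only
    nlinarith [hx.1, hx.2]
  have m1 := (mono_int gc p1.continuous (a := 1 + η) (b := 2 - η) (η := η / 2) (by linarith)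
    (by linarith) (by linarith) (by linarith) g0 p3 p4 p5 p6).1
  have m2 := (near gc (a := 1) (b := 2) (c := 1 + η) (d := 2 - η) le_rfl (by linarith)
    (by linarith) (by linarith) le_rfl g0 g1).2
  have e6 : ∫ α in (1 : ℝ)..2, g α = 1 / 6 := by
    rw [hg]
    exact sixth
  have e7 : ∫ α in (1 : ℝ)..2, w α * (2 - α) = ∫ α in (1 : ℝ)..2, φ α * g α := by
    refine intervalIntegral.integral_congr fun x _ => ?_
    simp only [hwd, hg]
    ring
  have tJ := (hJ.sub tw).eventually (gt_mem_nhds (show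
    1 / 6 - ∫ α in (1 : ℝ)..2, w α * (2 - α) < 4 * η by rw [e7]; linarith))
  filter_upwards [h0, tJ] with T hT0 hT1
  have iF : ∀ x y : ℝ, IntervalIntegrable (F T) volume x y := fun x y =>
    (hc T).intervalIntegrable _ _
  have c1 : Continuous fun α => (1 - α / 2) * F T α := by
    have := hc T
    fun_prop
  have c2 : Continuous fun α => w α * F T α := w1.continuous.mul (hc T)
  have c3 : Continuous fun α => (1 - α / 2) * F T α - w α * F T α := c1.sub c2
  have s1 : ∫ α in (1 : ℝ)..2, ((1 - α / 2) * F T α - w α * F T α) =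
      (∫ α in (1 : ℝ)..2, (1 - α / 2) * F T α) - ∫ α in (1 : ℝ)..2, w α * F T α :=
    intervalIntegral.integral_sub (c1.intervalIntegrable _ _) (c2.intervalIntegrable _ _)
  have s2 : ∫ α in (1 : ℝ)..(1 + η / 2), ((1 - α / 2) * F T α - w α * F T α) ≤
      ∫ α in (1 : ℝ)..2, ((1 - α / 2) * F T α - w α * F T α) := by
    refine intervalIntegral.integral_mono_interval le_rfl (by linarith) (by linarith) ?_
      (c3.intervalIntegrable _ _)
    refine (ae_restrict_iff' measurableSet_Ioc).2 (Eventually.of_forall fun x hx => ?_)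
    have h1 : (1 - x / 2) * φ x ≤ (1 - x / 2) * 1 :=
      mul_le_mul_of_nonneg_left (p4 x) (by linarith [hx.2])
    have h2 := mul_le_mul_of_nonneg_right h1 (hT0 x)
    simp only [hwd, Pi.zero_apply]
    linarith
  have s3 : ∫ α in (1 : ℝ)..(1 + η / 2), (1 / 4 : ℝ) * F T α ≤
      ∫ α in (1 : ℝ)..(1 + η / 2), ((1 - α / 2) * F T α - w α * F T α) := by
    refine intervalIntegral.integral_mono_on (by linarith) ((iF _ _).const_mul _)
      (c3.intervalIntegrable _ _) fun x hx => ?_
    rw [w3 x fun h => by linarith [h.1, hx.2], zero_mul, sub_zero]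
    exact mul_le_mul_of_nonneg_right (by linarith [hx.2]) (hT0 x)
  rw [intervalIntegral.integral_const_mul] at s3
  linarith

theorem core {a b : ℝ} (ha : 1 ≤ a) (hab : a < b) (hb : b < 2) :
    Tendsto (fun T => ∫ α in a..b, F T α) atTop (𝓝 (∫ α in a..b, (2 - α))) := by
  rw [Metric.tendsto_nhds]
  intro ε hε
  have key : ∀ᶠ T in atTop, |(∫ α in a..b, F T α) - ∫ α in a..b, (2 - α)| ≤ ε / 2 := by
    rcases ha.lt_or_eq with ha | rfl
    · exact claimA hc h0 hw ha hab hb (by linarith)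
    · obtain ⟨η, hη, h1, h2, h3⟩ : ∃ η : ℝ, 0 < η ∧ η ≤ 1 / 8 ∧ η ≤ b - 1 ∧ 80 * η ≤ ε := by
        refine ⟨min (1 / 8) (min (b - 1) (ε / 80)), ?_, min_le_left _ _, ?_, ?_⟩
        · exact lt_min (by norm_num) (lt_min (by linarith) (by linarith))
        · exact (min_le_right _ _).trans (min_le_left _ _)
        · have := (min_le_right (1 / 8) (min (b - 1) (ε / 80))).trans (min_le_right _ _)
          linarith
      have hlc : Continuous fun α : ℝ => 2 - α := by fun_prop
      have n1 := near hlc (a := 1) (b := b) (c := 1 + η / 2) (d := b) le_rfl (by linarith)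
        (by linarith) le_rfl hb.le (fun x hx => by linarith [hx.2]) (fun x hx => by linarith [hx.1])
      filter_upwards [h0, claimB hc h0 hw hJ hη h1, claimA hc h0 hw (a := 1 + η / 2) (b := b)
        (by linarith) (by linarith) hb (ε := η) hη] with T hT0 hT1 hT2
      have iF : ∀ x y : ℝ, IntervalIntegrable (F T) volume x y := fun x y =>
        (hc T).intervalIntegrable _ _
      have e1 := intervalIntegral.integral_add_adjacent_intervals (iF 1 (1 + η / 2))
        (iF (1 + η / 2) b)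
      have e2 : 0 ≤ ∫ α in (1 : ℝ)..(1 + η / 2), F T α :=
        intervalIntegral.integral_nonneg (by linarith) fun t _ => hT0 t
      rw [abs_le] at hT2 ⊢
      constructor <;> linarith [n1.1, n1.2, hT2.1, hT2.2]
  filter_upwards [key] with T hT
  rw [Real.dist_eq]
  linarith

end core


/-- windows against smooth functions supported in the open interval -/
theorem p1 (RH : RiemannHypothesis) (hM : S_MON) (hP : S_PER) (hE : Tendsto EE atTop (𝓝 0))
    (w : ℝ → ℝ) (hw1 : ContDiff ℝ (⊤ : ℕ∞) w) (hw2 : HasCompactSupport w)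
    (hw3 : ∀ x, x ∉ Set.Ioo (1 : ℝ) 2 → w x = 0) :
    Tendsto (fun T => ∫ α in (1 : ℝ)..2, w α * Fr T α) atTop
      (𝓝 (∫ α in (1 : ℝ)..2, w α * (2 - α))) := by
  have hwc := hw1.continuous
  have h1 := hP RH hE w hw1 hw2
  have hw20 : w 2 = 0 := hw3 2 fun h => lt_irrefl _ h.2
  have h2 := hM RH (fun u => w (2 - u)) (hwc.comp (continuous_const.sub continuous_id))
  have e1 : ∀ g : ℝ → ℝ, ∫ u in (0 : ℝ)..1, w (2 - u) * g u =
      ∫ α in (1 : ℝ)..2, w α * g (2 - α) := by
    intro g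
    have h3 := intervalIntegral.integral_comp_sub_left (a := 0) (b := 1)
      (fun α => w α * g (2 - α)) (2 : ℝ)
    have h4 : ∫ u in (0 : ℝ)..1, w (2 - u) * g u =
        ∫ u in (0 : ℝ)..1, (fun α => w α * g (2 - α)) (2 - u) := by
      refine intervalIntegral.integral_congr fun u _ => ?_
      simp only [sub_sub_cancel]
    rw [h4, h3]
    norm_num
  have e2 : ∀ T, ∫ α, w α * (Fr T α - Fr T (α - 2)) =
      (∫ α in (1 : ℝ)..2, w α * Fr T α) - ∫ u in (0 : ℝ)..1, w (2 - u) * Fr T u := by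
    intro T
    have hc1 : Continuous fun α => w α * Fr T α := hwc.mul (Fr_cont T)
    have hc2 : Continuous fun α => w α * Fr T (2 - α) :=
      hwc.mul ((Fr_cont T).comp (continuous_const.sub continuous_id))
    rw [e1 (Fr T), ← intervalIntegral.integral_sub (hc1.intervalIntegrable _ _)
      (hc2.intervalIntegrable _ _)]
    have h3 : (fun α => w α * (Fr T α - Fr T (α - 2))) =
        fun α => w α * Fr T α - w α * Fr T (2 - α) := by
      funext α
      rw [← Fr_neg T (α - 2), neg_sub]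
      ring
    rw [h3]
    symm
    refine intervalIntegral.integral_eq_integral_of_support_subset fun α hα => ?_
    by_contra h4
    apply hα
    have h5 := hw3 α fun h => h4 ⟨h.1, h.2.le⟩
    simp only [h5, zero_mul, sub_zero]
  have h3 := h1.add h2
  have h4 : (fun T => (∫ α, w α * (Fr T α - Fr T (α - 2))) +
      ∫ α in (0 : ℝ)..1, (fun u => w (2 - u)) α * Fr T α) =
      fun T => ∫ α in (1 : ℝ)..2, w α * Fr T α := by
    funext T
    rw [e2 T]
    simp only [sub_add_cancel]
  rw [h4] at h3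
  have h5 : (0 : ℝ) + ((fun u => w (2 - u)) 0 / 2 +
      ∫ α in (0 : ℝ)..1, (fun u => w (2 - u)) α * α) = ∫ α in (1 : ℝ)..2, w α * (2 - α) := by
    simp only [sub_zero, hw20, zero_div, zero_add]
    exact e1 fun u => u
  rw [h5] at h3
  exact h3

end DW548

theorem dw : S_DW := by
  intro RH hM hP hE hJ a b ha hab hb
  refine DW548.core (F := Fr) Fr_cont ?_ (fun w hw1 hw2 hw3 => DW548.p1 RH hM hP hE w hw1 hw2 hw3)
    ?_ ha hab hb
  · filter_upwards [eventually_ge_atTop 1] with T hT α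
    exact Fr_nonneg hT α
  · exact hJ

end H479.W
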