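import Pool.Agent.H479.W.Stm

/-! # lower bound for EE by the pairs in (δT, T] at distance at most one (proved by helper289) -/

open MeasureTheory Filter Topology

namespace H479.W

open H479.P
open Pool.Agent.Y744
open H177.Lat (kI yy del)
open SG (ord NZ)

namespace HighP

/-- the summand -/
noncomputable def q (T : ℝ) (s s' : ℂ) : ℝ := mz s * mz s' *
  (wgt (s.im - s'.im) * Real.sinc (2 * Real.pi * dd T s s') ^ 2)

lemma q_nonneg (T : ℝ) (s s' : ℂ) : 0 ≤ q T s s' := by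
  unfold q
  exact mul_nonneg (mul_nonneg (mz_nonneg _) (mz_nonneg _))
    (mul_nonneg (wgt_nonneg _) (sq_nonneg _))

lemma wgt_zero : wgt 0 = 1 := by
  unfold wgt
  norm_num

lemma q_self (T : ℝ) (s : ℂ) : mz s ≤ q T s s := by
  unfold q
  have e : dd T s s = 0 := by
    unfold dd
    rw [sub_self, zero_mul, zero_div]
  rw [e, sub_self, mul_zero, Real.sinc_zero, wgt_zero, one_pow, mul_one, mul_one]
  unfold mz
  have h : H370.mult riemannZeta s ≤ H370.mult riemannZeta s * H370.mult riemannZeta s := by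
    rcases Nat.eq_zero_or_pos (H370.mult riemannZeta s) with h0 | h0
    · rw [h0]
    · exact Nat.le_mul_of_pos_left _ h0
  exact_mod_cast h

lemma wgt_half {v : ℝ} (h : |v| ≤ 1) : 1 / 2 ≤ wgt v := by
  unfold wgt
  have h1 : v ^ 2 ≤ 1 := by
    rw [← sq_abs]
    nlinarith [abs_nonneg v]
  rw [div_le_div_iff₀ (by norm_num) (by positivity)]
  linarith

/-- the function of the two ordinates -/
noncomputable def ff (T x x' : ℝ) : ℝ :=
  wgt (x - x') * Real.sinc (2 * Real.pi * ((x - x') * Real.log T / (2 * Real.pi))) ^ 2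

end HighP

open HighP

theorem highp : S_HIGHP := by
  intro RH δ hδ hδ1
  filter_upwards [eventually_ge_atTop (2 : ℝ), eventually_ge_atTop (1 / δ)] with T hT hT2
  have hV : 1 ≤ δ * T := by
    rw [div_le_iff₀ hδ] at hT2
    linarith
  have hVT : δ * T ≤ T := by nlinarith
  have hX : 0 < Xf T := Xf_pos (by linarith)
  have hXi : 0 ≤ (Xf T)⁻¹ := inv_nonneg.2 hX.le
  unfold EE
  rw [← mul_assoc, mul_comm (1 / 2 : ℝ) _, mul_assoc]
  refine mul_le_mul_of_nonneg_left ?_ hXi
  change _ ≤ (∑ s ∈ Zt T, ∑ s' ∈ Zt T, q T s s') - ∑ s ∈ Zt T, mz s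
  -- restriction to the high zeros
  have h1 : (∑ s ∈ Zb (δ * T) T, ∑ s' ∈ Zb (δ * T) T, q T s s') - ∑ s ∈ Zb (δ * T) T, mz s ≤
      (∑ s ∈ Zt T, ∑ s' ∈ Zt T, q T s s') - ∑ s ∈ Zt T, mz s := by
    rw [← Finset.sum_sub_distrib, ← Finset.sum_sub_distrib, Zt_split hV hVT,
      Finset.sum_union (Zt_disj hV), ← Zt_split hV hVT]
    have h2 : 0 ≤ ∑ s ∈ Zt (δ * T), ((∑ s' ∈ Zt T, q T s s') - mz s) := by
      refine Finset.sum_nonneg fun s hs => ?_
      have hsT : s ∈ Zt T := by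
        rw [Zt_split hV hVT]
        exact Finset.mem_union_left _ hs
      have h3 := Finset.single_le_sum (f := fun s' => q T s s') (fun s' _ => q_nonneg T s s') hsT
      have h4 := q_self T s
      have h5 : q T s s ≤ ∑ s' ∈ Zt T, q T s s' := h3
      linarith
    have h3 : ∑ s ∈ Zb (δ * T) T, ((∑ s' ∈ Zb (δ * T) T, q T s s') - mz s) ≤
        ∑ s ∈ Zb (δ * T) T, ((∑ s' ∈ Zt T, q T s s') - mz s) := by
      refine Finset.sum_le_sum fun s _ => sub_le_sub_right ?_ _
      refine Finset.sum_le_sum_of_subset_of_nonneg ?_ fun s' _ _ => q_nonneg T s s'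
      rw [Zt_split hV hVT]
      exact Finset.subset_union_right
    linarith
  refine le_trans ?_ h1
  have e1 : ∑ s ∈ Zb (δ * T) T, ∑ s' ∈ Zb (δ * T) T, q T s s' =
      ∑ n ∈ Finset.Ioc (NZ (δ * T)) (NZ T), ∑ n' ∈ Finset.Ioc (NZ (δ * T)) (NZ T),
        ff T (ord n) (ord n') := by
    rw [← H177.Lat.double_conv RH hV (fun x x' => ff T x x')]
    rfl
  have e2 : ∑ s ∈ Zb (δ * T) T, mz s = ∑ n ∈ Finset.Ioc (NZ (δ * T)) (NZ T), (1 : ℝ) := by
    rw [← H177.Lat.sum_conv RH hV (fun _ => 1)]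
    refine Finset.sum_congr rfl fun s _ => ?_
    rw [mul_one]
    rfl
  rw [e1, e2, ← Finset.sum_sub_distrib, Finset.mul_sum]
  refine Finset.sum_le_sum fun n hn => ?_
  have e3 : (1 : ℝ) = ∑ n' ∈ Finset.Ioc (NZ (δ * T)) (NZ T), (if n = n' then (1 : ℝ) else 0) := by
    rw [Finset.sum_ite_eq, if_pos hn]
  rw [e3, ← Finset.sum_sub_distrib, ← e3, Finset.mul_sum]
  refine Finset.sum_le_sum fun n' _ => ?_
  have e4 : yy T n - yy T n' = (ord n - ord n') * Real.log T / (2 * Real.pi) := by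
    unfold yy
    ring
  by_cases hnn : n = n'
  · subst hnn
    rw [if_neg (fun h => h.1 rfl), if_pos rfl, mul_zero]
    unfold ff
    rw [sub_self, zero_mul, zero_div, mul_zero, Real.sinc_zero, wgt_zero, one_pow, mul_one, sub_self]
  · rw [if_neg hnn, sub_zero]
    have h5 : 0 ≤ Real.sinc (2 * Real.pi * ((ord n - ord n') * Real.log T / (2 * Real.pi))) ^ 2 :=
      sq_nonneg _
    by_cases h6 : |ord n - ord n'| ≤ 1
    · rw [if_pos ⟨hnn, h6⟩, e4]
      unfold ff
      exact mul_le_mul_of_nonneg_right (wgt_half h6) h5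
    · rw [if_neg (fun h => h6 h.2), mul_zero]
      unfold ff
      exact mul_nonneg (wgt_nonneg _) h5

end H479.W
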