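import Pool.Agent.H479.W.Stm

/-! # the identity for the kernel 2 sinc²(2πx) (proved by helper921) -/

/-!
# The identity for the kernel `2 sinc²(2πx)`
-/

open MeasureTheory Filter Topology

namespace H479.W.H921ID

open H479.W
open H479.P
open Pool.Agent.Y744
open H177.Lat (kI yy del tri KK tri_cont tri_even tri_zero tri_in KK_zero KK_ne)
open SG (ord NZ)

lemma ct_tri (x : ℝ) : ct (tri 2) x = 2 * Real.sinc (2 * Real.pi * x) ^ 2 := by
  have h0 : ct (tri 2) x = KK 2 x := by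
    unfold ct KK
    congr 1
    funext α
    rw [mul_right_comm (2 * Real.pi) x α]
  rw [h0]
  rcases eq_or_ne x 0 with h | h
  · rw [h, KK_zero two_pos, mul_zero, Real.sinc_zero]
    norm_num
  · rw [KK_ne two_pos h, Real.sinc_of_ne_zero (by
      have := Real.pi_pos
      positivity)]
    have e : Real.pi * (2 * x) = 2 * Real.pi * x := by ring
    rw [e]

lemma CE_tri : CE 2 (tri 2) :=
  ⟨tri_cont 2, tri_even 2, fun _ hx => tri_zero two_pos hx.le⟩

lemma eqEE (RH : RiemannHypothesis) (T : ℝ) : ∫ α, tri 2 α * Fr T α =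
    2 * EE T + 2 * ((Xf T)⁻¹ * ∑ s ∈ Zt T, mz s) := by
  rw [F_int RH CE_tri T]
  unfold EE
  have h : ∑ s ∈ Zt T, ∑ s' ∈ Zt T, mz s * mz s' * (wgt (s.im - s'.im) * ct (tri 2) (dd T s s')) =
      2 * ∑ s ∈ Zt T, ∑ s' ∈ Zt T, mz s * mz s' *
        (wgt (s.im - s'.im) * Real.sinc (2 * Real.pi * dd T s s') ^ 2) := by
    rw [Finset.mul_sum]
    refine Finset.sum_congr rfl fun s _ => ?_
    rw [Finset.mul_sum]
    refine Finset.sum_congr rfl fun s' _ => ?_
    rw [ct_tri]
    ring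
  rw [h]
  ring

lemma eqJJ (T : ℝ) : ∫ α, tri 2 α * Fr T α =
    2 * (∫ α in (0 : ℝ)..1, (1 - α / 2) * Fr T α) + 2 * JJ T := by
  have hc : Continuous fun α => tri 2 α * Fr T α := (tri_cont 2).mul (Fr_cont T)
  rw [int_even hc (fun x => by rw [tri_even, Fr_neg]) (A := 2) (by norm_num)
    (fun x hx => by rw [CE_tri.supp x hx, zero_mul])]
  rw [← intervalIntegral.integral_add_adjacent_intervals (a := 0) (b := 1) (c := 2)
    (hc.intervalIntegrable _ _) (hc.intervalIntegrable _ _)]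
  unfold JJ
  have h1 : ∫ α in (0 : ℝ)..1, tri 2 α * Fr T α = ∫ α in (0 : ℝ)..1, (1 - α / 2) * Fr T α := by
    apply intervalIntegral.integral_congr
    intro α hα
    rw [Set.uIcc_of_le (by norm_num)] at hα
    simp only
    rw [tri_in two_pos (by rw [abs_of_nonneg hα.1]; linarith [hα.2]), abs_of_nonneg hα.1]
  have h2 : ∫ α in (1 : ℝ)..2, tri 2 α * Fr T α = ∫ α in (1 : ℝ)..2, (1 - α / 2) * Fr T α := by
    apply intervalIntegral.integral_congr
    intro α hα
    rw [Set.uIcc_of_le (by norm_num)] at hα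
    simp only
    have h0 : 0 ≤ α := by linarith [hα.1]
    rw [tri_in two_pos (by rw [abs_of_nonneg h0]; linarith [hα.2]), abs_of_nonneg h0]
  rw [h1, h2]
  ring

lemma count : Tendsto (fun T => (Xf T)⁻¹ * ∑ s ∈ Zt T, mz s) atTop (𝓝 1) := by
  rw [Metric.tendsto_nhds]
  intro ε hε
  obtain ⟨T1, hT1, h1⟩ := N0_upper (ε / 2) (by positivity)
  obtain ⟨T2, hT2, h2⟩ := H479.U.N0_lower (ε / 2) (by positivity)
  filter_upwards [eventually_ge_atTop T1, eventually_ge_atTop T2] with T ha hb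
  have hX : 0 < Xf T := Xf_pos (by linarith)
  have k1 := h1 T ha
  have k2 := h2 T hb
  rw [Xf_eq] at k1 k2
  have e0 : (∑ s ∈ Zt T, mz s) = H479.U.N0 T := rfl
  rw [e0, Real.dist_eq]
  have e1 : (Xf T)⁻¹ * H479.U.N0 T - 1 = (Xf T)⁻¹ * (H479.U.N0 T - Xf T) := by
    field_simp
  rw [e1, abs_mul, abs_of_pos (inv_pos.2 hX), inv_mul_lt_iff₀ hX]
  have : |H479.U.N0 T - Xf T| ≤ ε / 2 * Xf T := by
    rw [abs_le]
    constructor <;> linarith
  refine this.trans_lt ?_
  nlinarith

end H479.W.H921ID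

namespace H479.W

open H479.P
open Pool.Agent.Y744
open H479.W.H921ID

theorem idn : S_ID := by
  intro RH hM
  have h1 := hM RH (fun α => 1 - α / 2) (by fun_prop)
  have h2 : (fun α : ℝ => 1 - α / 2) 0 / 2 + ∫ α in (0 : ℝ)..1, (fun α : ℝ => 1 - α / 2) α * α =
      5 / 6 := by
    have e : ∀ α ∈ Set.uIcc (0 : ℝ) 1, (fun α : ℝ => 1 - α / 2) α * α = α - 1 / 2 * α ^ 2 := by
      intro α _
      simp only
      ring
    rw [intervalIntegral.integral_congr e, intervalIntegral.integral_sub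
      ((by fun_prop : Continuous fun α : ℝ => α).intervalIntegrable _ _)
      ((by fun_prop : Continuous fun α : ℝ => 1 / 2 * α ^ 2).intervalIntegrable _ _),
      intervalIntegral.integral_const_mul, integral_id, integral_pow]
    norm_num
  rw [h2] at h1
  have h3 := (count.sub h1).sub_const (1 / 6)
  have h4 : (1 : ℝ) - 5 / 6 - 1 / 6 = 0 := by norm_num
  rw [h4] at h3
  refine h3.congr fun T => ?_
  have h5 := eqEE RH T
  rw [eqJJ T] at h5
  linarith

end H479.W
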