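import Pool.Agent.H479.W.Stm
import Pool.Graph.R_pool_sql_team_seeded_63374d34.N804.CS

/-! # periodicity of F in the mean (proved by helper225) -/

open MeasureTheory Filter Topology

namespace H479.W.Per

open Pool.Agent.N804 (SC)

lemma ST_bd {h : ℝ → ℝ} (H : SC h) : ∃ A : ℝ, ∀ x : ℝ, |Pool.Agent.N804.ST h x| ≤ A := by
  refine ⟨∫ α : ℝ, |h α|, fun x => ?_⟩
  unfold Pool.Agent.N804.ST
  refine (abs_integral_le_integral_abs).trans (integral_mono_of_nonneg
    (ae_of_all _ fun α => abs_nonneg _)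
    (H.cont.integrable_of_hasCompactSupport H.cs).abs (ae_of_all _ fun α => ?_))
  simp only []
  rw [abs_mul]
  exact mul_le_of_le_one_right (abs_nonneg _) (Real.abs_sin_le_one _)

lemma dec {h : ℝ → ℝ} (H : SC h) : ∃ A : ℝ, 0 < A ∧ ∀ x : ℝ,
    (1 + x ^ 2) * (|Pool.Agent.N804.CT h x| + |Pool.Agent.N804.ST h x|) ≤ A := by
  obtain ⟨A0, hA0⟩ := Pool.Agent.N804.CT_bd H
  obtain ⟨A1, hA1⟩ := Pool.Agent.N804.CT_dec H 1
  obtain ⟨B0, hB0⟩ := ST_bd H
  obtain ⟨B1, hB1⟩ := ST_bd H.deriv.deriv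
  have hpi := Real.pi_gt_three
  refine ⟨A0 + A1 + B0 + B1 + 1, ?_, fun x => ?_⟩
  · have h1 := (abs_nonneg _).trans (hA0 0)
    have h2 : 0 ≤ A1 := le_trans (by positivity) (hA1 0)
    have h3 := (abs_nonneg _).trans (hB0 0)
    have h4 := (abs_nonneg _).trans (hB1 0)
    linarith
  · have h1 := hA0 x
    have h2 := hA1 x
    rw [mul_one] at h2
    have h3 := hB0 x
    have h4 : x ^ 2 * |Pool.Agent.N804.ST h x| ≤ B1 := by
      refine le_trans ?_ (hB1 x)
      rw [Pool.Agent.N804.ST_deriv H.deriv, Pool.Agent.N804.CT_deriv H]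
      rw [show -(2 * Real.pi * x * (2 * Real.pi * x * Pool.Agent.N804.ST h x)) =
        -((2 * Real.pi * x) ^ 2 * Pool.Agent.N804.ST h x) by ring, abs_neg, abs_mul,
        abs_of_nonneg (sq_nonneg (2 * Real.pi * x))]
      apply mul_le_mul_of_nonneg_right _ (abs_nonneg _)
      rw [mul_pow]
      have : 1 ≤ (2 * Real.pi) ^ 2 := one_le_pow₀ (by linarith)
      nlinarith [sq_nonneg x]
    nlinarith

/-- the transform of the difference -/
noncomputable def Cd (w : ℝ → ℝ) (d : ℝ) : ℝ :=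
  ∫ α, w α * (Real.cos (2 * Real.pi * d * α) - Real.cos (2 * Real.pi * d * (α - 2)))

lemma Cd_eq {w : ℝ → ℝ} (H : SC w) (d : ℝ) : Cd w d = 2 * Real.sin (2 * Real.pi * d) *
    (Pool.Agent.N804.CT w d * Real.sin (2 * Real.pi * d) -
      Pool.Agent.N804.ST w d * Real.cos (2 * Real.pi * d)) := by
  have h1 : ∀ α : ℝ, w α * (Real.cos (2 * Real.pi * d * α) - Real.cos (2 * Real.pi * d * (α - 2))) =
      (2 * Real.sin (2 * Real.pi * d) * Real.sin (2 * Real.pi * d)) *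
        (w α * Real.cos (2 * Real.pi * α * d)) -
      (2 * Real.sin (2 * Real.pi * d) * Real.cos (2 * Real.pi * d)) *
        (w α * Real.sin (2 * Real.pi * α * d)) := by
    intro α
    have e1 : 2 * Real.pi * d * (α - 2) = 2 * Real.pi * α * d - 2 * (2 * Real.pi * d) := by ring
    have e2 : 2 * Real.pi * d * α = 2 * Real.pi * α * d := by ring
    rw [e1, e2, Real.cos_sub, Real.cos_two_mul, Real.sin_two_mul]
    have := Real.sin_sq_add_cos_sq (2 * Real.pi * d)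
    linear_combination (2 * w α * Real.cos (2 * Real.pi * α * d)) * (-this)
  unfold Cd
  simp_rw [h1]
  rw [integral_sub ((H.int_cos d).const_mul _) ((H.int_sin d).const_mul _), integral_const_mul,
    integral_const_mul]
  unfold Pool.Agent.N804.CT Pool.Agent.N804.ST
  ring

lemma Cd_bound {w : ℝ → ℝ} (H : SC w) : ∃ A : ℝ, 0 < A ∧ ∀ ε : ℝ, 0 < ε → ∀ d : ℝ,
    |Cd w d| ≤ A * (ε⁻¹ * Real.sinc (2 * Real.pi * d) ^ 2 + ε * (1 / (1 + d ^ 2))) := by
  obtain ⟨A, hA, hdec⟩ := dec H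
  have hpi := Real.pi_pos
  refine ⟨4 * Real.pi * A, by positivity, fun ε hε d => ?_⟩
  have hs : Real.sin (2 * Real.pi * d) = 2 * Real.pi * d * Real.sinc (2 * Real.pi * d) := by
    by_cases h0 : 2 * Real.pi * d = 0
    · rw [h0]; simp
    · rw [Real.sinc_of_ne_zero h0, mul_div_assoc', mul_div_cancel_left₀ _ h0]
  set x : ℝ := |Real.sinc (2 * Real.pi * d)| with hx
  set B : ℝ := |Pool.Agent.N804.CT w d| + |Pool.Agent.N804.ST w d| with hB
  have hx0 : 0 ≤ x := abs_nonneg _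
  have hB0 : 0 ≤ B := by positivity
  have h1 : |Cd w d| ≤ 4 * Real.pi * (x * (|d| * B)) := by
    rw [Cd_eq H, abs_mul, abs_mul, hs, abs_mul, abs_mul, abs_mul]
    rw [abs_of_pos (show (0:ℝ) < 2 by norm_num), abs_of_pos hpi]
    have h2 : |Pool.Agent.N804.CT w d * (2 * Real.pi * d * Real.sinc (2 * Real.pi * d)) -
        Pool.Agent.N804.ST w d * Real.cos (2 * Real.pi * d)| ≤ B := by
      rw [← hs]
      refine (abs_sub _ _).trans ?_
      rw [abs_mul, abs_mul]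
      exact add_le_add (mul_le_of_le_one_right (abs_nonneg _) (Real.abs_sin_le_one _))
        (mul_le_of_le_one_right (abs_nonneg _) (Real.abs_cos_le_one _))
    calc 2 * (2 * Real.pi * |d| * |Real.sinc (2 * Real.pi * d)|) * _
        ≤ 2 * (2 * Real.pi * |d| * |Real.sinc (2 * Real.pi * d)|) * B :=
          mul_le_mul_of_nonneg_left h2 (by positivity)
      _ = 4 * Real.pi * (x * (|d| * B)) := by rw [hx]; ring
  have hD : 0 < 1 + d ^ 2 := by positivity
  have h3 : B ≤ A / (1 + d ^ 2) := by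
    rw [le_div_iff₀ hD]
    have := hdec d
    linarith
  have h4 : x * (|d| * B) ≤ A * (x * (|d| / (1 + d ^ 2))) := by
    calc x * (|d| * B) ≤ x * (|d| * (A / (1 + d ^ 2))) := by gcongr
      _ = A * (x * (|d| / (1 + d ^ 2))) := by ring
  have h5 : x * (|d| / (1 + d ^ 2)) ≤ ε⁻¹ * x ^ 2 + ε * (1 / (1 + d ^ 2)) := by
    set y : ℝ := |d| / (1 + d ^ 2) with hy
    have hy2 : y ^ 2 ≤ 1 / (1 + d ^ 2) := by
      rw [hy, div_pow, sq_abs, div_le_div_iff₀ (by positivity) hD]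
      nlinarith [sq_nonneg d]
    have h6 : 0 ≤ (ε⁻¹ * x - y) ^ 2 * ε := by positivity
    have h7 : (ε⁻¹ * x - y) ^ 2 * ε = ε⁻¹ * x ^ 2 - 2 * (x * y) + ε * y ^ 2 := by
      have h71 : ε⁻¹ * ε = 1 := inv_mul_cancel₀ hε.ne'
      linear_combination (ε⁻¹ * x ^ 2 - 2 * x * y) * h71
    have h8 : ε * y ^ 2 ≤ ε * (1 / (1 + d ^ 2)) := mul_le_mul_of_nonneg_left hy2 hε.le
    have h9 : 0 ≤ ε⁻¹ * x ^ 2 := by positivity
    have h10 : 0 ≤ ε * (1 / (1 + d ^ 2)) := by positivity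
    nlinarith
  have hx2 : x ^ 2 = Real.sinc (2 * Real.pi * d) ^ 2 := by rw [hx, sq_abs]
  rw [hx2] at h5
  calc |Cd w d| ≤ 4 * Real.pi * (x * (|d| * B)) := h1
    _ ≤ 4 * Real.pi * (A * (x * (|d| / (1 + d ^ 2)))) := by gcongr
    _ ≤ 4 * Real.pi * (A * (ε⁻¹ * Real.sinc (2 * Real.pi * d) ^ 2 + ε * (1 / (1 + d ^ 2)))) := by
        gcongr
    _ = _ := by ring

end H479.W.Per

namespace H479.W.Per

open H479.P
open Pool.Agent.Y744
open Pool.Agent.N804 (SC)

/-- Montgomery's function as a sum over the pairs -/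
lemma Fr_eq (RH : RiemannHypothesis) (T α : ℝ) : Fr T α = (Xf T)⁻¹ * ∑ s ∈ Zt T, ∑ s' ∈ Zt T,
    mz s * mz s' * (wgt (s.im - s'.im) * Real.cos (2 * Real.pi * dd T s s' * α)) := by
  unfold Fr
  rw [Xf_eq, Wp_rh_eq RH, div_eq_inv_mul]
  congr 1
  refine Finset.sum_congr rfl fun s _ => Finset.sum_congr rfl fun s' _ => ?_
  have : α * Real.log T * (s.im - s'.im) = 2 * Real.pi * dd T s s' * α := by
    unfold dd
    have := Real.pi_pos
    field_simp
  rw [this]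
  ring

lemma int_eq (RH : RiemannHypothesis) {w : ℝ → ℝ} (H : SC w) (T : ℝ) :
    ∫ α, w α * (Fr T α - Fr T (α - 2)) = (Xf T)⁻¹ * ∑ s ∈ Zt T, ∑ s' ∈ Zt T,
      mz s * mz s' * (wgt (s.im - s'.im) * Cd w (dd T s s')) := by
  have e1 : ∀ α, w α * (Fr T α - Fr T (α - 2)) = (Xf T)⁻¹ * ∑ s ∈ Zt T, ∑ s' ∈ Zt T,
      mz s * mz s' * (wgt (s.im - s'.im) * (w α * (Real.cos (2 * Real.pi * dd T s s' * α) -
        Real.cos (2 * Real.pi * dd T s s' * (α - 2))))) := by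
    intro α
    rw [Fr_eq RH, Fr_eq RH, ← mul_sub, ← Finset.sum_sub_distrib, mul_left_comm, Finset.mul_sum]
    congr 1
    refine Finset.sum_congr rfl fun s _ => ?_
    rw [← Finset.sum_sub_distrib, Finset.mul_sum]
    refine Finset.sum_congr rfl fun s' _ => ?_
    ring
  simp_rw [e1]
  have hi : ∀ d : ℝ, Integrable fun α => w α * (Real.cos (2 * Real.pi * d * α) -
      Real.cos (2 * Real.pi * d * (α - 2))) := fun d =>
    (H.cont.mul (by fun_prop)).integrable_of_hasCompactSupport H.cs.mul_right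
  rw [integral_const_mul, integral_finsetSum _ fun s _ => integrable_finsetSum _ fun s' _ =>
    ((hi _).const_mul _).const_mul _]
  congr 1
  refine Finset.sum_congr rfl fun s _ => ?_
  rw [integral_finsetSum _ fun s' _ => ((hi _).const_mul _).const_mul _]
  refine Finset.sum_congr rfl fun s' _ => ?_
  rw [integral_const_mul, integral_const_mul]
  rfl

lemma wgt_le_one (v : ℝ) : wgt v ≤ 1 := by
  unfold wgt
  rw [div_le_one (by positivity)]
  nlinarith [sq_nonneg v]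

lemma wgt_zero : wgt 0 = 1 := by
  unfold wgt
  norm_num

lemma mz_le_sq (s : ℂ) : mz s ≤ mz s * mz s := by
  unfold mz
  exact_mod_cast Nat.le_mul_self _

lemma dd_self (T : ℝ) (s : ℂ) : dd T s s = 0 := by
  unfold dd
  simp

lemma Cd_zero (w : ℝ → ℝ) : Cd w 0 = 0 := by
  unfold Cd
  simp

/-- the main inequality -/
lemma main_le {w : ℝ → ℝ} {A : ℝ} (hA : 0 < A) (hC : ∀ ε : ℝ, 0 < ε → ∀ d : ℝ,
    |Cd w d| ≤ A * (ε⁻¹ * Real.sinc (2 * Real.pi * d) ^ 2 + ε * (1 / (1 + d ^ 2)))) (T ε : ℝ)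
    (hε : 0 < ε) :
    |∑ s ∈ Zt T, ∑ s' ∈ Zt T, mz s * mz s' * (wgt (s.im - s'.im) * Cd w (dd T s s'))| ≤
      A * ε⁻¹ * ((∑ s ∈ Zt T, ∑ s' ∈ Zt T, mz s * mz s' *
        (wgt (s.im - s'.im) * Real.sinc (2 * Real.pi * dd T s s') ^ 2)) - ∑ s ∈ Zt T, mz s) +
      A * ε * ∑ s ∈ Zt T, ∑ s' ∈ Zt T, mz s * mz s' * (1 / (1 + (dd T s s') ^ 2)) := by
  classical
  have hterm : ∀ s ∈ Zt T, ∀ s' ∈ Zt T,
      |mz s * mz s' * (wgt (s.im - s'.im) * Cd w (dd T s s'))| ≤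
      A * ε⁻¹ * (mz s * mz s' * (wgt (s.im - s'.im) * Real.sinc (2 * Real.pi * dd T s s') ^ 2)) +
      A * ε * (mz s * mz s' * (1 / (1 + (dd T s s') ^ 2))) -
      (if s = s' then A * ε⁻¹ * mz s else 0) := by
    intro s _ s' _
    have hm : 0 ≤ mz s * mz s' := mul_nonneg (mz_nonneg s) (mz_nonneg s')
    have hE : 0 ≤ ε⁻¹ := by positivity
    by_cases h : s = s'
    · subst h
      rw [if_pos rfl, dd_self, Cd_zero, sub_self, wgt_zero]
      have h1 := mz_le_sq s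
      have h2 : 0 ≤ A * ε := by positivity
      have h3 : 0 ≤ A * ε⁻¹ := by positivity
      simp only [mul_zero, abs_zero, Real.sinc_zero, one_pow, mul_one, ne_eq, OfNat.ofNat_ne_zero,
        not_false_eq_true, zero_pow, add_zero, div_one]
      nlinarith [mul_nonneg h2 hm, mul_le_mul_of_nonneg_left h1 h3]
    · rw [if_neg h, sub_zero, abs_mul, abs_of_nonneg hm, abs_mul, abs_of_nonneg (wgt_nonneg _)]
      have h1 := hC ε hε (dd T s s')
      have hw0 := wgt_nonneg (s.im - s'.im)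
      have hw1 := wgt_le_one (s.im - s'.im)
      have h2 : 0 ≤ 1 / (1 + (dd T s s') ^ 2) := by positivity
      calc mz s * mz s' * (wgt (s.im - s'.im) * |Cd w (dd T s s')|)
          ≤ mz s * mz s' * (wgt (s.im - s'.im) * (A * (ε⁻¹ * Real.sinc (2 * Real.pi * dd T s s') ^ 2
            + ε * (1 / (1 + (dd T s s') ^ 2))))) := by gcongr
        _ = A * ε⁻¹ * (mz s * mz s' * (wgt (s.im - s'.im) *
              Real.sinc (2 * Real.pi * dd T s s') ^ 2)) +
            A * ε * (mz s * mz s' * (wgt (s.im - s'.im) * (1 / (1 + (dd T s s') ^ 2)))) := by ring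
        _ ≤ A * ε⁻¹ * (mz s * mz s' * (wgt (s.im - s'.im) *
              Real.sinc (2 * Real.pi * dd T s s') ^ 2)) +
            A * ε * (mz s * mz s' * (1 * (1 / (1 + (dd T s s') ^ 2)))) := by gcongr
        _ = _ := by rw [one_mul]
  refine (Finset.abs_sum_le_sum_abs _ _).trans ?_
  refine (Finset.sum_le_sum fun s _ => Finset.abs_sum_le_sum_abs _ _).trans ?_
  refine (Finset.sum_le_sum fun s hs => Finset.sum_le_sum fun s' hs' => hterm s hs s' hs').trans ?_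
  apply le_of_eq
  simp only [Finset.sum_sub_distrib, Finset.sum_add_distrib, ← Finset.mul_sum]
  have h1 : ∑ s ∈ Zt T, ∑ s' ∈ Zt T, (if s = s' then A * ε⁻¹ * mz s else 0) =
      A * ε⁻¹ * ∑ s ∈ Zt T, mz s := by
    rw [Finset.mul_sum]
    refine Finset.sum_congr rfl fun s hs => ?_
    rw [Finset.sum_ite_eq, if_pos hs]
  rw [h1]
  ring

end H479.W.Per

namespace H479.W

open H479.P
open Pool.Agent.Y744
open H177.Lat (kI yy del)
open SG (ord NZ)

theorem per : S_PER := by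
  intro RH hEE w hw1 hw2
  have H : Pool.Agent.N804.SC w := ⟨hw1, hw2⟩
  obtain ⟨A, hA, hC⟩ := Per.Cd_bound H
  obtain ⟨C, T0, hC0, hT0, hpair⟩ := pair_bdd RH
  rw [Metric.tendsto_atTop] at hEE ⊢
  intro η hη
  set ε : ℝ := η / (2 * A * C) with hεd
  have hε : 0 < ε := by positivity
  obtain ⟨T1, hT1⟩ := hEE (η * ε / (2 * A)) (by positivity)
  refine ⟨max T0 T1, fun T hT => ?_⟩
  have hTT0 : T0 ≤ T := (le_max_left _ _).trans hT
  have hTT1 : T1 ≤ T := (le_max_right _ _).trans hT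
  have hX : 0 < Xf T := by
    unfold Xf
    have h1 : 0 < Real.log T := Real.log_pos (by linarith)
    have h2 := Real.pi_pos
    have h3 : 0 < T := by linarith
    positivity
  have hE := hT1 T hTT1
  rw [Real.dist_eq, sub_zero] at hE ⊢
  have hE2 := (le_abs_self _).trans_lt hE
  rw [Per.int_eq RH H T, abs_mul, abs_of_pos (inv_pos.2 hX)]
  have h1 := Per.main_le hA hC T ε hε
  have h2 := hpair T hTT0
  set S1 : ℝ := ∑ s ∈ Zt T, ∑ s' ∈ Zt T, mz s * mz s' * (1 / (1 + (dd T s s') ^ 2)) with hS1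
  set S2 : ℝ := (∑ s ∈ Zt T, ∑ s' ∈ Zt T, mz s * mz s' *
        (wgt (s.im - s'.im) * Real.sinc (2 * Real.pi * dd T s s') ^ 2)) - ∑ s ∈ Zt T, mz s with hS2
  have hEE2 : EE T = (Xf T)⁻¹ * S2 := rfl
  have h3 : (Xf T)⁻¹ * S1 ≤ C := by
    rw [inv_mul_le_iff₀ hX]
    linarith
  calc (Xf T)⁻¹ * |∑ s ∈ Zt T, ∑ s' ∈ Zt T, mz s * mz s' * (wgt (s.im - s'.im) *
        Per.Cd w (dd T s s'))| ≤ (Xf T)⁻¹ * (A * ε⁻¹ * S2 + A * ε * S1) :=
        mul_le_mul_of_nonneg_left h1 (inv_pos.2 hX).le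
    _ = A * ε⁻¹ * EE T + A * ε * ((Xf T)⁻¹ * S1) := by rw [hEE2]; ring
    _ ≤ A * ε⁻¹ * EE T + A * ε * C := by gcongr
    _ < A * ε⁻¹ * (η * ε / (2 * A)) + A * ε * C := by gcongr
    _ = η := by
        rw [hεd]
        field_simp
        ring

end H479.W
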