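import Pool.Agent.H479.W.Stm

/-! # second moments of the local counts, over (δT, T] (proved by helper400) -/

set_option autoImplicit false

open MeasureTheory Filter Topology

namespace H479.W

open H479.P
open Pool.Agent.Y744
open H177.Lat (kI yy del)
open SG (ord NZ)

namespace TH3aux

lemma mem_win {n : ℕ} {A B : ℝ} (hn : n ∈ Finset.Ioc (NZ A) (NZ B)) : A < ord n ∧ ord n ≤ B := by
  rw [Finset.mem_Ioc] at hn
  have h1 : 1 ≤ n := by omega
  constructor
  · by_contra h
    push Not at h
    have := (SG.ord_le_iff h1 A).mp h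
    omega
  · exact (SG.ord_le_iff h1 B).mpr hn.2

lemma win_mem {n : ℕ} {A B : ℝ} (h1 : 1 ≤ n) (hA : A < ord n) (hB : ord n ≤ B) :
    n ∈ Finset.Ioc (NZ A) (NZ B) := by
  rw [Finset.mem_Ioc]
  constructor
  · by_contra h
    push Not at h
    have := (SG.ord_le_iff h1 A).mpr h
    linarith
  · exact (SG.ord_le_iff h1 B).mp hB

/-- comparison of the local counts -/
lemma kI_le {I J : Finset ℕ} {y z : ℕ → ℝ} {ρ : ℝ} {n : ℕ}
    (h : ∀ n' ∈ I, |y n - y n'| ≤ ρ → n' ∈ J ∧ |z n - z n'| ≤ ρ) :
    kI I y ρ n ≤ kI J z ρ n := by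
  unfold H177.Lat.kI
  apply Finset.card_le_card
  intro n' hn'
  rw [Finset.mem_filter] at hn' ⊢
  exact h n' hn'.1 hn'.2

lemma yy_sub (T : ℝ) (n m : ℕ) : yy T n - yy T m = (ord n - ord m) * (Real.log T / (2 * Real.pi)) := by
  unfold H177.Lat.yy
  ring

end TH3aux

open TH3aux in
theorem th3 : S_TH3 := by
  intro hRH ρ δ hρ hδ hδ1
  have hpi := Real.pi_pos
  obtain ⟨C1, T1, hC1, hT1, hth⟩ := H177.Lat.third hRH (1 / 2) ρ (by norm_num) (by norm_num) hρ
  set M : ℕ := ⌈16 / δ⌉₊ with hM
  have hM1 : 16 / δ ≤ M := Nat.le_ceil _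
  have hM2 : (M : ℝ) < 16 / δ + 1 := Nat.ceil_lt_add_one (by positivity)
  have hMpos : (0 : ℝ) < M := lt_of_lt_of_le (by positivity) hM1
  -- eventual conditions
  have ev1 : ∀ᶠ T : ℝ in atTop, 2 * Real.pi * ρ ≤ Real.log T :=
    Real.tendsto_log_atTop.eventually_ge_atTop _
  have ev2 : ∀ᶠ T : ℝ in atTop, (T1 + 100) / δ ≤ T := eventually_ge_atTop _
  have ev3 : ∀ᶠ T : ℝ in atTop, (3 * T) ^ (1 / 2 : ℝ) ≤ δ * T / 16 := by
    filter_upwards [eventually_ge_atTop (768 / δ ^ 2)] with T hT
    have hT0 : 0 < T := lt_of_lt_of_le (by positivity) hT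
    rw [← Real.sqrt_eq_rpow]
    rw [Real.sqrt_le_left (by positivity)]
    rw [div_le_iff₀ (by positivity)] at hT
    have : (δ * T / 16) ^ 2 = T * δ ^ 2 * T / 256 := by ring
    rw [this]
    nlinarith
  obtain ⟨T2, hT2⟩ := (ev1.and (ev2.and ev3)).exists_forall_of_atTop
  refine ⟨2 * M * C1, max T2 100, by positivity, fun T hT => ?_⟩
  have hT100 : 100 ≤ T := (le_max_right _ _).trans hT
  obtain ⟨h1, h2, h3⟩ := hT2 T ((le_max_left _ _).trans hT)
  have hT0 : 0 < T := by linarith
  have hlog1 : 1 ≤ Real.log T := by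
    rw [Real.le_log_iff_exp_le hT0]
    have := Real.exp_one_lt_d9
    linarith
  rw [div_le_iff₀ hδ] at h2
  have h2' : T1 + 100 ≤ δ * T := by linarith
  set H : ℝ := δ * T / 16 with hH
  have hHpos : 0 < H := by positivity
  have hδT : δ * T ≤ T := by nlinarith
  -- windows
  set tb : ℕ → ℝ := fun i => δ * T + i * H - 1 with htb
  set J : ℕ → Finset ℕ := fun i => Finset.Ioc (NZ (tb i)) (NZ (tb i + (H + 2))) with hJ
  set I : Finset ℕ := Finset.Ioc (NZ (δ * T)) (NZ T) with hI
  have htb_lo : ∀ i, δ * T - 1 ≤ tb i := by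
    intro i
    simp only [htb]
    have : 0 ≤ (i : ℝ) * H := by positivity
    linarith
  have htb_hi : ∀ i < M, tb i ≤ 3 * T := by
    intro i hi
    simp only [htb]
    have hi' : (i : ℝ) ≤ M := by exact_mod_cast hi.le
    have h5 : (i : ℝ) * H ≤ (16 / δ + 1) * H := by
      apply mul_le_mul_of_nonneg_right _ hHpos.le
      linarith
    have h6 : (16 / δ + 1) * H = T + H := by
      rw [hH]
      field_simp
    have h7 : H ≤ T / 16 := by
      rw [hH]
      linarith
    linarith
  -- the third moment on each window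
  have hwin : ∀ i < M, ∑ n ∈ J i, (kI (J i) (yy (tb i)) ρ n : ℝ) ^ 2 ≤
      C1 * (2 * Xf T) := by
    intro i hi
    have a1 := htb_lo i
    have a2 := htb_hi i hi
    have b1 : T1 ≤ tb i := by linarith
    have b2 : 100 ≤ tb i := by linarith
    have b3 : (tb i) ^ (1 / 2 : ℝ) ≤ H + 2 := by
      calc (tb i) ^ (1 / 2 : ℝ) ≤ (3 * T) ^ (1 / 2 : ℝ) :=
            Real.rpow_le_rpow (by linarith) a2 (by norm_num)
        _ ≤ H := h3
        _ ≤ H + 2 := by linarith
    have b4 : H + 2 ≤ tb i / 8 := by
      rw [hH]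
      linarith
    have key := hth (tb i) b1 (H + 2) b3 b4 (tb i) le_rfl (by linarith)
    refine key.trans ?_
    apply mul_le_mul_of_nonneg_left _ hC1.le
    have c1 : Real.log (tb i) ≤ 2 * Real.log T := by
      have : Real.log (tb i) ≤ Real.log (T * T) := by
        apply Real.log_le_log (by linarith)
        nlinarith
      rw [Real.log_mul hT0.ne' hT0.ne'] at this
      linarith
    have c2 : H + 2 ≤ T := by
      rw [hH]
      linarith
    have c3 : 0 ≤ Real.log (tb i) := Real.log_nonneg (by linarith)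
    have hX : 2 * Xf T = T * (2 * Real.log T) / (2 * Real.pi) := by
      unfold Xf
      ring
    rw [hX]
    apply div_le_div_of_nonneg_right _ (by positivity)
    exact mul_le_mul c2 c1 c3 hT0.le
  -- each index lies in a window
  have hcov : ∀ n ∈ I, ∃ i ∈ Finset.range M, n ∈ J i ∧
      kI I (yy T) ρ n ≤ kI (J i) (yy (tb i)) ρ n := by
    intro n hn
    have hn1 : 1 ≤ n := by
      have := (Finset.mem_Ioc.mp hn).1
      omega
    obtain ⟨hA, hB⟩ := mem_win hn
    set q : ℝ := (ord n - δ * T) / H with hq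
    have hqpos : 0 < q := div_pos (by linarith) hHpos
    have hqM : q ≤ M := by
      refine le_trans ?_ hM1
      rw [hq, div_le_div_iff₀ hHpos hδ, hH]
      nlinarith
    set N : ℕ := ⌈q⌉₊ with hN
    have hN1 : 1 ≤ N := Nat.ceil_pos.mpr hqpos
    have hNM : N ≤ M := Nat.ceil_le.mpr hqM
    have hq1 : q ≤ N := Nat.le_ceil _
    have hq2 : (N : ℝ) < q + 1 := Nat.ceil_lt_add_one hqpos.le
    have hord : ord n = δ * T + q * H := by
      rw [hq]
      field_simp
      ring
    have hcast : ((N - 1 : ℕ) : ℝ) = N - 1 := by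
      push_cast [Nat.cast_sub hN1]
      ring
    have e1 : δ * T + ((N - 1 : ℕ) : ℝ) * H < ord n := by
      rw [hord, hcast]
      nlinarith
    have e2 : ord n ≤ δ * T + ((N - 1 : ℕ) : ℝ) * H + H := by
      rw [hord, hcast]
      nlinarith
    refine ⟨N - 1, Finset.mem_range.mpr (by omega), ?_, ?_⟩
    · apply win_mem hn1
      · simp only [htb]
        linarith
      · simp only [htb]
        linarith
    · apply kI_le
      intro n' hn' hd
      have hn1' : 1 ≤ n' := by
        have := (Finset.mem_Ioc.mp hn').1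
        omega
      have hlogpos : 0 < Real.log T := by linarith
      rw [yy_sub, abs_mul, abs_of_pos (show 0 < Real.log T / (2 * Real.pi) by positivity)] at hd
      have hd1 : |ord n - ord n'| ≤ 1 := by
        by_contra hcon
        push Not at hcon
        have h8 : 1 * (Real.log T / (2 * Real.pi)) < |ord n - ord n'| * (Real.log T / (2 * Real.pi)) :=
          mul_lt_mul_of_pos_right hcon (by positivity)
        have h9 : ρ ≤ Real.log T / (2 * Real.pi) := by
          rw [le_div_iff₀ (by positivity)]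
          linarith
        linarith
      have hd2 := abs_le.mp hd1
      constructor
      · apply win_mem hn1'
        · simp only [htb]
          linarith [hd2.2]
        · simp only [htb]
          linarith [hd2.1]
      · rw [yy_sub, abs_mul]
        refine le_trans ?_ hd
        apply mul_le_mul_of_nonneg_left _ (abs_nonneg _)
        have i1 := htb_lo (N - 1)
        have i2 : tb (N - 1) ≤ T := by
          simp only [htb]
          linarith
        have i3 : 0 ≤ Real.log (tb (N - 1)) := Real.log_nonneg (by linarith)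
        rw [abs_of_nonneg (by positivity)]
        apply div_le_div_of_nonneg_right _ (by positivity)
        exact Real.log_le_log (by linarith) i2
  calc ∑ n ∈ I, (kI I (yy T) ρ n : ℝ) ^ 2
      ≤ ∑ n ∈ I, ∑ i ∈ Finset.range M,
          (if n ∈ J i then (kI (J i) (yy (tb i)) ρ n : ℝ) ^ 2 else 0) := by
        apply Finset.sum_le_sum
        intro n hn
        obtain ⟨i, hi, hni, hk⟩ := hcov n hn
        have h10 : (kI I (yy T) ρ n : ℝ) ^ 2 ≤
            (if n ∈ J i then (kI (J i) (yy (tb i)) ρ n : ℝ) ^ 2 else 0) := by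
          rw [if_pos hni]
          have : (kI I (yy T) ρ n : ℝ) ≤ (kI (J i) (yy (tb i)) ρ n : ℝ) := by exact_mod_cast hk
          gcongr
        refine h10.trans ?_
        apply Finset.single_le_sum (f := fun i =>
          (if n ∈ J i then (kI (J i) (yy (tb i)) ρ n : ℝ) ^ 2 else 0)) _ hi
        intro j _
        split_ifs <;> positivity
    _ = ∑ i ∈ Finset.range M, ∑ n ∈ I,
          (if n ∈ J i then (kI (J i) (yy (tb i)) ρ n : ℝ) ^ 2 else 0) := Finset.sum_comm
    _ ≤ ∑ i ∈ Finset.range M, ∑ n ∈ J i, (kI (J i) (yy (tb i)) ρ n : ℝ) ^ 2 := by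
        apply Finset.sum_le_sum
        intro i _
        rw [← Finset.sum_filter]
        apply Finset.sum_le_sum_of_subset_of_nonneg
        · intro n hn
          exact (Finset.mem_filter.mp hn).2
        · intro n _ _
          positivity
    _ ≤ ∑ i ∈ Finset.range M, C1 * (2 * Xf T) := by
        apply Finset.sum_le_sum
        intro i hi
        exact hwin i (Finset.mem_range.mp hi)
    _ = 2 * M * C1 * Xf T := by
        rw [Finset.sum_const, Finset.card_range, nsmul_eq_mul]
        ring

end H479.W
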