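import Pool.Agent.H479.W.Mon
import Pool.Agent.H479.W.Idn
import Pool.Agent.H479.W.Th3
import Pool.Agent.H479.W.Cmb
import Pool.Agent.H479.W.Highp
import Pool.Agent.H479.W.Bad
import Pool.Agent.H479.W.Ae
import Pool.Agent.H479.W.Ea
import Pool.Agent.H479.W.Per
import Pool.Agent.H479.W.Dw

open MeasureTheory Filter Topology

namespace H479.W

open H479.P
open Pool.Agent.Y744
open H177.Lat (kI yy del)
open SG (ord NZ)

noncomputable section

lemma EE_nonneg {T : ℝ} (hT : 1 < T) : 0 ≤ EE T := by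
  unfold EE
  refine mul_nonneg (inv_nonneg.2 (Xf_pos hT).le) ?_
  rw [sub_nonneg]
  refine Finset.sum_le_sum fun s hs => ?_
  have hn : ∀ s' ∈ Zt T, 0 ≤ mz s * mz s' *
      (wgt (s.im - s'.im) * Real.sinc (2 * Real.pi * dd T s s') ^ 2) := fun s' _ =>
    mul_nonneg (mul_nonneg (mz_nonneg _) (mz_nonneg _))
      (mul_nonneg (wgt_nonneg _) (sq_nonneg _))
  refine le_trans ?_ (Finset.single_le_sum hn hs)
  have h1 : dd T s s = 0 := by unfold dd; simp
  have h2 : wgt (s.im - s.im) = 1 := by unfold wgt; simp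
  rw [h1, h2, mul_zero, Real.sinc_zero]
  have h3 : mz s ≤ mz s * mz s := by
    unfold mz
    rcases Nat.eq_zero_or_pos (H370.mult riemannZeta s) with h5 | h5
    · rw [h5]; simp
    · have h6 : (1 : ℝ) ≤ (H370.mult riemannZeta s : ℝ) := by exact_mod_cast h5
      nlinarith
  linarith

/-- the lower bound -/
theorem JJ_lower (RH : RiemannHypothesis) (hI : S_ID) {ε : ℝ} (hε : 0 < ε) :
    ∀ᶠ T in atTop, 1 / 6 - ε ≤ JJ T := by
  have h1 := hI RH mon
  filter_upwards [(tendsto_order.1 h1).1 (-ε) (by linarith), eventually_gt_atTop 1] with T hT hT1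
  have := EE_nonneg hT1
  linarith

theorem EE_of_JJ (RH : RiemannHypothesis) (hI : S_ID) (h : Tendsto JJ atTop (𝓝 (1 / 6))) :
    Tendsto EE atTop (𝓝 0) := by
  have h1 := (h.sub_const (1 / 6)).sub (hI RH mon)
  rw [sub_self, sub_zero] at h1
  refine h1.congr fun T => ?_
  ring

theorem JJ_of_EE (RH : RiemannHypothesis) (hI : S_ID) (h : Tendsto EE atTop (𝓝 0)) :
    Tendsto JJ atTop (𝓝 (1 / 6)) := by
  have h1 := ((hI RH mon).add h).add_const (1 / 6)
  rw [add_zero, zero_add] at h1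
  refine h1.congr fun T => ?_
  ring

theorem JJ_of_upper (RH : RiemannHypothesis) (hI : S_ID)
    (h : ∀ ε : ℝ, 0 < ε → ∀ᶠ T in atTop, JJ T ≤ 1 / 6 + ε) : Tendsto JJ atTop (𝓝 (1 / 6)) := by
  rw [tendsto_order]
  constructor
  · intro a ha
    filter_upwards [JJ_lower RH hI (ε := (1 / 6 - a) / 2) (by linarith)] with T hT
    linarith
  · intro a ha
    filter_upwards [h ((a - 1 / 6) / 2) (by linarith)] with T hT
    linarith

end

end H479.W
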