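import Pool.Agent.H479.W.Stm

/-! # one-sided windows imply the weighted bound (proved by helper215) -/


open MeasureTheory Filter Topology

namespace H479.W

open H479.P
open Pool.Agent.Y744
open H177.Lat (kI yy del)
open SG (ord NZ)

namespace CAaux

open H177.Lat (tri tri_nonneg tri_zero tri_in tri_even tri_cont KK KK_nonneg KK_le KK_sq)

lemma CE_tri : CE 4 (tri 4) :=
  ⟨tri_cont 4, tri_even 4, fun _ hx => tri_zero (by norm_num) hx.le⟩

lemma ct_tri (x : ℝ) : ct (tri 4) x = KK 4 x := by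
  unfold ct KK
  refine integral_congr_ae (Eventually.of_forall fun u => ?_)
  simp only
  congr 2
  ring

lemma ct_bound (x : ℝ) : 0 ≤ ct (tri 4) x ∧ ct (tri 4) x ≤ 5 * (1 / (1 + x ^ 2)) := by
  rw [ct_tri]
  have h1 := KK_nonneg (e := 4) (by norm_num) x
  have h2 := KK_le (e := 4) (by norm_num) x
  have h3 := KK_sq (e := 4) (by norm_num) x
  refine ⟨h1, ?_⟩
  rw [mul_one_div, le_div_iff₀ (by positivity)]
  nlinarith

lemma wgt_le (v : ℝ) : wgt v ≤ 1 := by
  unfold wgt
  rw [div_le_one (by positivity)]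
  nlinarith [sq_nonneg v]

/-- bound for the integral over `[1, 2]` -/
lemma bound12 (RH : RiemannHypothesis) : ∃ C T0 : ℝ, 0 < C ∧ 20 ≤ T0 ∧ ∀ T : ℝ, T0 ≤ T →
    ∫ α in (1 : ℝ)..2, Fr T α ≤ C := by
  obtain ⟨C, T0, hC, hT0, h⟩ := pair_bdd RH
  refine ⟨10 * C, T0, by positivity, hT0, fun T hT => ?_⟩
  have hT20 : 20 ≤ T := hT0.trans hT
  have hX := Xf_pos (V := T) (by linarith)
  have hF : ∀ α, 0 ≤ Fr T α := Fr_nonneg (by linarith)
  have h1 := F_int RH CE_tri T
  have h2 : ∑ s ∈ Zt T, ∑ s' ∈ Zt T, mz s * mz s' * (wgt (s.im - s'.im) * ct (tri 4) (dd T s s')) ≤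
      5 * (C * Xf T) := by
    refine le_trans ?_ (mul_le_mul_of_nonneg_left (h T hT) (by norm_num))
    rw [Finset.mul_sum]
    refine Finset.sum_le_sum fun s _ => ?_
    rw [Finset.mul_sum]
    refine Finset.sum_le_sum fun s' _ => ?_
    have hm : 0 ≤ mz s * mz s' := mul_nonneg (mz_nonneg _) (mz_nonneg _)
    obtain ⟨c1, c2⟩ := ct_bound (dd T s s')
    have h3 : wgt (s.im - s'.im) * ct (tri 4) (dd T s s') ≤
        1 * (5 * (1 / (1 + (dd T s s') ^ 2))) :=
      mul_le_mul (wgt_le _) c2 c1 zero_le_one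
    calc mz s * mz s' * (wgt (s.im - s'.im) * ct (tri 4) (dd T s s')) ≤
          mz s * mz s' * (1 * (5 * (1 / (1 + (dd T s s') ^ 2)))) :=
          mul_le_mul_of_nonneg_left h3 hm
      _ = 5 * (mz s * mz s' * (1 / (1 + (dd T s s') ^ 2))) := by ring
  have h3 : ∫ α, tri 4 α * Fr T α ≤ 5 * C := by
    rw [h1]
    calc (Xf T)⁻¹ * _ ≤ (Xf T)⁻¹ * (5 * (C * Xf T)) :=
          mul_le_mul_of_nonneg_left h2 (inv_nonneg.2 hX.le)
      _ = 5 * C := by field_simp
  have hint : Integrable fun α => tri 4 α * Fr T α := CE_tri.mul_int (Fr_cont T)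
  have h4 : ∫ α in (1 : ℝ)..2, tri 4 α * Fr T α ≤ ∫ α, tri 4 α * Fr T α := by
    rw [intervalIntegral.integral_of_le (by norm_num)]
    exact setIntegral_le_integral hint
      (Eventually.of_forall fun α => mul_nonneg (tri_nonneg 4 α) (hF α))
  have h5 : ∫ α in (1 : ℝ)..2, Fr T α ≤ ∫ α in (1 : ℝ)..2, 2 * (tri 4 α * Fr T α) := by
    refine intervalIntegral.integral_mono_on (by norm_num) ((Fr_cont T).intervalIntegrable _ _)
      (((tri_cont 4).mul (Fr_cont T)).const_mul 2 |>.intervalIntegrable _ _) fun α hα => ?_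
    have e : tri 4 α = 1 - |α| / 4 := tri_in (by norm_num) (by
      rw [abs_of_nonneg (by linarith [hα.1])]
      linarith [hα.2])
    rw [e, abs_of_nonneg (by linarith [hα.1])]
    have := hF α
    nlinarith [hα.2]
  rw [intervalIntegral.integral_const_mul] at h5
  linarith

/-- the points of the partition -/
noncomputable def tt (M : ℝ) (i : ℕ) : ℝ := 1 + i / M

lemma tt_zero (M : ℝ) : tt M 0 = 1 := by unfold tt; simp

lemma tt_le {M : ℝ} (hM : 0 < M) (i : ℕ) : tt M i ≤ tt M (i + 1) := by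
  unfold tt
  have : (i : ℝ) / M ≤ ((i + 1 : ℕ) : ℝ) / M := by
    apply div_le_div_of_nonneg_right _ hM.le
    push_cast
    linarith
  linarith

/-- Abel summation -/
lemma abel {F : ℝ → ℝ} (hF : Continuous F) (h0 : ∀ x, 0 ≤ F x) {M : ℕ} (hM : 0 < M) (N : ℕ)
    (hN : N ≤ M) : 2 * (M : ℝ) * (∫ α in (1 : ℝ)..tt M N, (1 - α / 2) * F α) ≤
      ∑ i ∈ Finset.range N, (∫ α in (1 : ℝ)..tt M (i + 1), F α) +
        ((M : ℝ) - N) * ∫ α in (1 : ℝ)..tt M N, F α := by
  have hM' : (0 : ℝ) < M := by exact_mod_cast hM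
  induction N with
  | zero => rw [tt_zero]; simp
  | succ N ih =>
    have ih' := ih (by omega)
    have hle := tt_le hM' N
    have hG : Continuous fun α : ℝ => (1 - α / 2) * F α := by fun_prop
    have e1 : (∫ α in (1 : ℝ)..tt M (N + 1), (1 - α / 2) * F α) =
        (∫ α in (1 : ℝ)..tt M N, (1 - α / 2) * F α) +
          ∫ α in tt M N..tt M (N + 1), (1 - α / 2) * F α :=
      (intervalIntegral.integral_add_adjacent_intervals (hG.intervalIntegrable _ _)
        (hG.intervalIntegrable _ _)).symm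
    have e2 : (∫ α in (1 : ℝ)..tt M (N + 1), F α) =
        (∫ α in (1 : ℝ)..tt M N, F α) + ∫ α in tt M N..tt M (N + 1), F α :=
      (intervalIntegral.integral_add_adjacent_intervals (hF.intervalIntegrable _ _)
        (hF.intervalIntegrable _ _)).symm
    have h1 : (∫ α in tt M N..tt M (N + 1), (1 - α / 2) * F α) ≤
        (1 - tt M N / 2) * ∫ α in tt M N..tt M (N + 1), F α := by
      rw [← intervalIntegral.integral_const_mul]
      refine intervalIntegral.integral_mono_on hle (hG.intervalIntegrable _ _)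
        ((hF.const_mul _).intervalIntegrable _ _) fun α hα => ?_
      exact mul_le_mul_of_nonneg_right (by linarith [hα.1]) (h0 α)
    have e3 : 2 * (M : ℝ) * (1 - tt M N / 2) = M - N := by
      unfold tt
      field_simp
      ring
    have h2 : 2 * (M : ℝ) * (∫ α in tt M N..tt M (N + 1), (1 - α / 2) * F α) ≤
        ((M : ℝ) - N) * ∫ α in tt M N..tt M (N + 1), F α := by
      rw [← e3, mul_assoc (2 * (M : ℝ))]
      exact mul_le_mul_of_nonneg_left h1 (by positivity)
    rw [e1, Finset.sum_range_succ, mul_add]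
    push_cast
    rw [e2]
    linarith

lemma sum_G {M : ℝ} (hM : 0 < M) (N : ℕ) :
    ∑ i ∈ Finset.range N, (((i : ℝ) + 1) / M - (((i : ℝ) + 1) / M) ^ 2 / 2) =
      (N : ℝ) * (N + 1) / (2 * M) - (N : ℝ) * (N + 1) * (2 * N + 1) / (12 * M ^ 2) := by
  induction N with
  | zero => simp
  | succ N ih =>
    rw [Finset.sum_range_succ, ih]
    push_cast
    field_simp
    ring

lemma int_G (t : ℝ) : ∫ α in (1 : ℝ)..t, (2 - α) = (t - 1) - (t - 1) ^ 2 / 2 := by
  rw [intervalIntegral.integral_sub (by simp) (by simp)]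
  simp
  ring

end CAaux

open CAaux in
theorem ca : S_CA := by
  intro RH hwin ε hε
  obtain ⟨C, T0, hC, hT0, h12⟩ := bound12 RH
  obtain ⟨m, hm⟩ : ∃ m : ℕ, C / ε ≤ m := exists_nat_ge _
  have hmC : C ≤ ε * m := by
    rw [div_le_iff₀ hε] at hm
    linarith
  set M : ℕ := m + 1 with hM
  have hM0 : (0 : ℝ) < (M : ℝ) := by
    rw [hM]
    positivity
  have hMm : (M : ℝ) = m + 1 := by rw [hM]; push_cast; ring
  have hev : ∀ᶠ T in atTop, ∀ i ∈ Finset.range m,
      ∫ α in (1 : ℝ)..tt M (i + 1), Fr T α ≤ (∫ α in (1 : ℝ)..tt M (i + 1), (2 - α)) + ε := by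
    rw [Filter.eventually_all_finset]
    intro i hi
    rw [Finset.mem_range] at hi
    have hi' : ((i + 1 : ℕ) : ℝ) < M := by exact_mod_cast (by omega : i + 1 < M)
    refine hwin 1 (tt M (i + 1)) le_rfl ?_ ?_ ε hε
    · unfold tt
      have : (0 : ℝ) < ((i + 1 : ℕ) : ℝ) / M := div_pos (by positivity) hM0
      linarith
    · unfold tt
      have : ((i + 1 : ℕ) : ℝ) / M < 1 := by
        rw [div_lt_one hM0]
        exact hi'
      linarith
  filter_upwards [hev, eventually_ge_atTop T0] with T h1 hT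
  have hT20 : 20 ≤ T := hT0.trans hT
  have h2 := abel (Fr_cont T) (Fr_nonneg (by linarith)) (M := M) (by omega) M le_rfl
  have hMM : tt M M = 2 := by
    unfold tt
    rw [div_self hM0.ne']
    norm_num
  rw [hMM, sub_self, zero_mul, add_zero] at h2
  rw [hM, Finset.sum_range_succ, ← hM, hMM] at h2
  have h3 := h12 T hT
  have h4 : ∑ i ∈ Finset.range m, (∫ α in (1 : ℝ)..tt M (i + 1), Fr T α) ≤
      ∑ i ∈ Finset.range m, ((((i : ℝ) + 1) / M - (((i : ℝ) + 1) / M) ^ 2 / 2) + ε) := by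
    refine Finset.sum_le_sum fun i hi => (h1 i hi).trans (le_of_eq ?_)
    rw [int_G]
    unfold tt
    push_cast
    ring
  rw [Finset.sum_add_distrib, sum_G hM0, Finset.sum_const, Finset.card_range, nsmul_eq_mul] at h4
  have h5 : (m : ℝ) * (m + 1) / (2 * M) - (m : ℝ) * (m + 1) * (2 * m + 1) / (12 * (M : ℝ) ^ 2) ≤
      M / 3 := by
    rw [hMm]
    have hm0 : (0 : ℝ) ≤ m := Nat.cast_nonneg m
    rw [← sub_nonneg]
    have e : ((m : ℝ) + 1) / 3 - ((m : ℝ) * (m + 1) / (2 * ((m : ℝ) + 1)) -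
        (m : ℝ) * (m + 1) * (2 * m + 1) / (12 * ((m : ℝ) + 1) ^ 2)) =
        (3 * m + 4) / (12 * ((m : ℝ) + 1)) := by
      field_simp
      ring
    rw [e]
    positivity
  have h6 : 2 * (M : ℝ) * JJ T ≤ M / 3 + m * ε + C := by
    unfold JJ
    linarith
  have h7 : 2 * (M : ℝ) * JJ T ≤ 2 * (M : ℝ) * (1 / 6 + ε) := by
    have : (m : ℝ) * ε + C ≤ 2 * M * ε := by
      rw [hMm]
      nlinarith
    linarith
  exact le_of_mul_le_mul_left h7 (by positivity)

end H479.W
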