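import Pool.Agent.H479.W.Stm
import Pool.Agent.H479.V.Ab

/-! # the zeros with small ordinate are negligible (upper bound) (proved by helper189) -/

/-!
# The zeros with small ordinate are negligible (upper bound)
-/

open MeasureTheory Filter Topology

namespace H479.W

open H479.P
open Pool.Agent.Y744
open H177.Lat (kI yy del)
open SG (ord NZ)

namespace LowpAux

/-- the summand -/
noncomputable def qq (T : ℝ) (s s' : ℂ) : ℝ :=
  mz s * mz s' * (wgt (s.im - s'.im) * Real.sinc (2 * Real.pi * dd T s s') ^ 2)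

lemma qq_nonneg (T : ℝ) (s s' : ℂ) : 0 ≤ qq T s s' :=
  mul_nonneg (mul_nonneg (mz_nonneg s) (mz_nonneg s')) (mul_nonneg (wgt_nonneg _) (sq_nonneg _))

lemma wgt_even (v : ℝ) : wgt (-v) = wgt v := by
  unfold wgt
  rw [neg_sq]

lemma wgt_le_one (v : ℝ) : wgt v ≤ 1 := by
  unfold wgt
  rw [div_le_one (by positivity)]
  nlinarith [sq_nonneg v]

lemma wgt_zero : wgt 0 = 1 := by
  unfold wgt
  norm_num

lemma qq_symm (T : ℝ) (s s' : ℂ) : qq T s s' = qq T s' s := by
  unfold qq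
  have h1 : s.im - s'.im = -(s'.im - s.im) := by ring
  have h2 : 2 * Real.pi * dd T s s' = -(2 * Real.pi * dd T s' s) := by
    unfold dd
    ring
  rw [h1, wgt_even, h2, Real.sinc_neg]
  ring

lemma sinc_sq_le_one (x : ℝ) : Real.sinc x ^ 2 ≤ 1 := by
  rw [← sq_abs]
  exact pow_le_one₀ (abs_nonneg _) (Real.abs_sinc_le_one x)

lemma sinc_bd (x : ℝ) : |Real.sinc (2 * Real.pi * x) ^ 2| ≤ 2 / (1 + x ^ 2) := by
  have hpi := Real.pi_gt_three
  rw [abs_of_nonneg (sq_nonneg _), le_div_iff₀ (by positivity)]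
  have h1 := sinc_sq_le_one (2 * Real.pi * x)
  have h2 : Real.sinc (2 * Real.pi * x) ^ 2 * x ^ 2 ≤ 1 := by
    rcases eq_or_ne x 0 with h | h
    · rw [h]
      norm_num
    · rw [Real.sinc_of_ne_zero (by positivity), div_pow, div_mul_eq_mul_div, div_le_one (by positivity)]
      have h3 : Real.sin (2 * Real.pi * x) ^ 2 ≤ 1 := by
        rw [← sq_abs]
        exact pow_le_one₀ (abs_nonneg _) (Real.abs_sin_le_one _)
      have h4 : 0 ≤ x ^ 2 := sq_nonneg x
      have h5 : (1 : ℝ) ≤ (2 * Real.pi) ^ 2 := by nlinarith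
      nlinarith
  linarith

/-- splitting the pairs -/
lemma split (T V : ℝ) (hV : 1 ≤ V) (hVT : V ≤ T) :
    ∑ s ∈ Zt T, ∑ s' ∈ Zt T, qq T s s' ≤
      ∑ s ∈ Zb V T, ∑ s' ∈ Zb V T, qq T s s' + 2 * ∑ s ∈ Zt V, ∑ s' ∈ Zt T, qq T s s' := by
  classical
  have hd := Zt_disj (T := T) hV
  have e1 : ∑ s ∈ Zt T, ∑ s' ∈ Zt T, qq T s s' =
      ∑ s ∈ Zt V, ∑ s' ∈ Zt T, qq T s s' + ∑ s ∈ Zb V T, ∑ s' ∈ Zt T, qq T s s' := by
    conv_lhs => rw [Zt_split hV hVT, Finset.sum_union hd]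
    rw [← Zt_split hV hVT]
  have e2 : ∑ s ∈ Zb V T, ∑ s' ∈ Zt T, qq T s s' =
      ∑ s ∈ Zb V T, ∑ s' ∈ Zt V, qq T s s' + ∑ s ∈ Zb V T, ∑ s' ∈ Zb V T, qq T s s' := by
    rw [← Finset.sum_add_distrib]
    refine Finset.sum_congr rfl fun s _ => ?_
    rw [Zt_split hV hVT, Finset.sum_union hd]
  have e3 : ∑ s ∈ Zb V T, ∑ s' ∈ Zt V, qq T s s' ≤ ∑ s ∈ Zt V, ∑ s' ∈ Zt T, qq T s s' := by
    rw [Finset.sum_comm]
    refine Finset.sum_le_sum fun s _ => ?_
    rw [Finset.sum_congr rfl (fun s' _ => qq_symm T s' s)]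
    refine Finset.sum_le_sum_of_subset_of_nonneg ?_ fun s' _ _ => qq_nonneg T s s'
    rw [Zt_split hV hVT]
    exact Finset.subset_union_right
  linarith

/-- the pairs of large ordinates -/
lemma high (RH : RiemannHypothesis) (T V : ℝ) (hV : 1 ≤ V) :
    ∑ s ∈ Zb V T, ∑ s' ∈ Zb V T, qq T s s' - ∑ s ∈ Zb V T, mz s ≤
      ∑ n ∈ Finset.Ioc (NZ V) (NZ T), ∑ n' ∈ Finset.Ioc (NZ V) (NZ T),
        (if n = n' then 0 else Real.sinc (2 * Real.pi * (yy T n - yy T n')) ^ 2) := by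
  have e1 : ∑ s ∈ Zb V T, ∑ s' ∈ Zb V T, qq T s s' =
      ∑ n ∈ Finset.Ioc (NZ V) (NZ T), ∑ n' ∈ Finset.Ioc (NZ V) (NZ T),
        wgt (ord n - ord n') *
          Real.sinc (2 * Real.pi * ((ord n - ord n') * Real.log T / (2 * Real.pi))) ^ 2 :=
    H177.Lat.double_conv RH (B := T) hV (fun x y => wgt (x - y) *
      Real.sinc (2 * Real.pi * ((x - y) * Real.log T / (2 * Real.pi))) ^ 2)
  have e2 : ∑ s ∈ Zb V T, mz s = ∑ n ∈ Finset.Ioc (NZ V) (NZ T), (1 : ℝ) := by
    rw [← H177.Lat.sum_conv RH (B := T) hV (fun _ => 1)]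
    refine Finset.sum_congr rfl fun s _ => ?_
    rw [mul_one]
    rfl
  rw [e1, e2, ← Finset.sum_sub_distrib]
  refine Finset.sum_le_sum fun n hn => ?_
  have e3 : (1 : ℝ) = ∑ n' ∈ Finset.Ioc (NZ V) (NZ T), (if n = n' then (1 : ℝ) else 0) := by
    rw [Finset.sum_ite_eq, if_pos hn]
  rw [e3, ← Finset.sum_sub_distrib]
  refine Finset.sum_le_sum fun n' _ => ?_
  by_cases h : n = n'
  · rw [if_pos h, if_pos h, h, sub_self, wgt_zero, zero_mul, zero_div, mul_zero, Real.sinc_zero]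
    norm_num
  · rw [if_neg h, if_neg h, sub_zero]
    have e4 : (ord n - ord n') * Real.log T / (2 * Real.pi) = yy T n - yy T n' := by
      unfold H177.Lat.yy
      ring
    rw [e4]
    exact mul_le_of_le_one_left (sq_nonneg _) (wgt_le_one _)

/-- the pairs with one small ordinate -/
lemma low1 (T V : ℝ) (hV : 1 ≤ V) :
    ∑ s ∈ Zt V, ∑ s' ∈ Zt T, qq T s s' ≤
      ∑ s ∈ Zt (2 * V), ∑ s' ∈ Zt (2 * V), mz s * mz s' *
        |(fun x : ℝ => Real.sinc (2 * Real.pi * x) ^ 2) ((s.im - s'.im) * Real.log T / (2 * Real.pi))|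
      + 4 / V ^ 2 * ((∑ s ∈ Zt V, mz s) * ∑ s ∈ Zt T, mz s) := by
  classical
  have hm := mz_nonneg
  have h1 : ∑ s ∈ Zt V, ∑ s' ∈ Zt T, qq T s s' ≤
      ∑ s ∈ Zt V, (∑ s' ∈ Zt (2 * V), mz s * mz s' *
        |(fun x : ℝ => Real.sinc (2 * Real.pi * x) ^ 2) ((s.im - s'.im) * Real.log T / (2 * Real.pi))|
        + 4 / V ^ 2 * (mz s * ∑ s' ∈ Zt T, mz s')) := by
    refine Finset.sum_le_sum fun s hs => ?_
    have hs1 := H479.V.im_le hs
    rw [← Finset.sum_filter_add_sum_filter_not (Zt T) (fun s' : ℂ => s'.im ≤ 2 * V)]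
    refine add_le_add ?_ ?_
    · refine (Finset.sum_le_sum (g := fun s' => mz s * mz s' *
        |(fun x : ℝ => Real.sinc (2 * Real.pi * x) ^ 2)
          ((s.im - s'.im) * Real.log T / (2 * Real.pi))|) fun s' _ => ?_).trans
        (Finset.sum_le_sum_of_subset_of_nonneg ?_ fun s' _ _ =>
          mul_nonneg (mul_nonneg (hm s) (hm s')) (abs_nonneg _))
      · unfold qq
        refine mul_le_mul_of_nonneg_left ?_ (mul_nonneg (hm s) (hm s'))
        simp only
        rw [abs_of_nonneg (sq_nonneg _)]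
        exact mul_le_of_le_one_left (sq_nonneg _) (wgt_le_one _)
      · intro s' hs'
        rw [Finset.mem_filter] at hs'
        have h2 := hs'.1
        rw [mem_Zt] at h2 ⊢
        exact ⟨h2.1, h2.2.1, h2.2.2.1, hs'.2, h2.2.2.2.2⟩
    · have h2 : ∑ s' ∈ (Zt T).filter (fun s' : ℂ => ¬ s'.im ≤ 2 * V), qq T s s' ≤
          ∑ s' ∈ (Zt T).filter (fun s' : ℂ => ¬ s'.im ≤ 2 * V), 4 / V ^ 2 * (mz s * mz s') := by
        refine Finset.sum_le_sum fun s' hs' => ?_
        rw [Finset.mem_filter] at hs'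
        have h3 : 2 * V < s'.im := not_le.1 hs'.2
        have h4 : wgt (s.im - s'.im) ≤ 4 / V ^ 2 := by
          unfold wgt
          refine div_le_div_of_nonneg_left (by norm_num) (by positivity) ?_
          nlinarith
        unfold qq
        have h5 : wgt (s.im - s'.im) * Real.sinc (2 * Real.pi * dd T s s') ^ 2 ≤ 4 / V ^ 2 :=
          (mul_le_of_le_one_right (wgt_nonneg _) (sinc_sq_le_one _)).trans h4
        calc mz s * mz s' * (wgt (s.im - s'.im) * Real.sinc (2 * Real.pi * dd T s s') ^ 2) ≤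
            mz s * mz s' * (4 / V ^ 2) := mul_le_mul_of_nonneg_left h5 (mul_nonneg (hm s) (hm s'))
          _ = _ := by ring
      refine h2.trans ?_
      rw [← Finset.mul_sum, ← Finset.mul_sum]
      refine mul_le_mul_of_nonneg_left (mul_le_mul_of_nonneg_left ?_ (hm s)) (by positivity)
      exact Finset.sum_le_sum_of_subset_of_nonneg (Finset.filter_subset _ _) fun s' _ _ => hm s'
  refine h1.trans ?_
  rw [Finset.sum_add_distrib, ← Finset.mul_sum, ← Finset.sum_mul]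
  refine add_le_add ?_ le_rfl
  exact Finset.sum_le_sum_of_subset_of_nonneg (H479.V.Zt_mono (by linarith)) fun s _ _ =>
    Finset.sum_nonneg fun s' _ => mul_nonneg (mul_nonneg (hm s) (hm s')) (abs_nonneg _)

end LowpAux

open LowpAux in
theorem lowp : S_LOWP := by
  intro RH ε hε
  obtain ⟨C, V0, hC, hV0, hPP⟩ := H479.V.PPh RH
  obtain ⟨T1, hT1, hN⟩ := N0_upper 1 one_pos
  have hpi := Real.pi_pos
  obtain ⟨δ, hδ⟩ : ∃ δ : ℝ, δ = min (1 / 4) (ε / (4 * (25600 * Real.pi * C))) := ⟨_, rfl⟩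
  have hδ0 : 0 < δ := by
    rw [hδ]
    exact lt_min (by norm_num) (by positivity)
  have hδ4 : δ ≤ 1 / 4 := by
    rw [hδ]
    exact min_le_left _ _
  have hδε : 25600 * Real.pi * C * δ ≤ ε / 4 := by
    have h1 : δ ≤ ε / (4 * (25600 * Real.pi * C)) := by
      rw [hδ]
      exact min_le_right _ _
    calc 25600 * Real.pi * C * δ ≤ 25600 * Real.pi * C * (ε / (4 * (25600 * Real.pi * C))) :=
          mul_le_mul_of_nonneg_left h1 (by positivity)
      _ = ε / 4 := by field_simp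
  refine ⟨δ, hδ0, by linarith, ?_⟩
  -- the logarithm
  have hlog : ∀ᶠ T : ℝ in atTop, Real.log T ≤ (ε * δ ^ 2 / 32) * T := by
    have h1 := Real.isLittleO_log_id_atTop.bound (show 0 < ε * δ ^ 2 / 32 by positivity)
    filter_upwards [h1, eventually_ge_atTop (1 : ℝ)] with T h2 h3
    rw [Real.norm_of_nonneg (Real.log_nonneg h3), id, Real.norm_of_nonneg (by linarith)] at h2
    exact h2
  filter_upwards [hlog, eventually_ge_atTop (max T1 (max V0 20)),
    eventually_ge_atTop (max V0 20 / δ)] with T hlT hT2 hT3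
  have hTT1 : T1 ≤ T := (le_max_left _ _).trans hT2
  have hTV0 : V0 ≤ T := ((le_max_left _ _).trans (le_max_right _ _)).trans hT2
  have hT20 : 20 ≤ T := ((le_max_right _ _).trans (le_max_right _ _)).trans hT2
  have hT0 : 0 < T := by linarith
  have hVM : max V0 20 ≤ δ * T := by
    rw [div_le_iff₀ hδ0] at hT3
    linarith
  have hV20 : 20 ≤ δ * T := (le_max_right _ _).trans hVM
  have hVV0 : V0 ≤ δ * T := (le_max_left _ _).trans hVM
  obtain ⟨V, hV⟩ : ∃ V : ℝ, V = δ * T := ⟨_, rfl⟩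
  rw [← hV] at hV20 hVV0
  have hVT : 2 * V ≤ T := by
    rw [hV]
    nlinarith
  have hX := Xf_pos (V := T) (by linarith)
  have hL : 0 < Real.log T := Real.log_pos (by linarith)
  -- number of zeros
  have hNT : ∑ s ∈ Zt T, mz s ≤ 2 * Xf T := by
    have h1 := hN T hTT1
    have h2 : (1 + 1) * (T / (2 * Real.pi) * Real.log T) = 2 * Xf T := by
      rw [Xf_eq]
      norm_num
    rw [h2] at h1
    exact h1
  have hNV : ∑ s ∈ Zt V, mz s ≤ 2 * Xf T := by
    refine le_trans ?_ hNT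
    exact Finset.sum_le_sum_of_subset_of_nonneg (H479.V.Zt_mono (by linarith)) fun s _ _ =>
      mz_nonneg s
  have hN0 : 0 ≤ ∑ s ∈ Zt V, mz s := Finset.sum_nonneg fun s _ => mz_nonneg s
  have hN1 : 0 ≤ ∑ s ∈ Zt T, mz s := Finset.sum_nonneg fun s _ => mz_nonneg s
  -- close pairs
  have h1 := split T V (by linarith) (by linarith)
  have h2 := high RH T V (by linarith)
  have h3 := low1 T V (by linarith)
  have h4 := QS_abs_bound (x := fun s : ℂ => s.im) (Zt (2 * V)) (Zt (2 * V)) mz_nonneg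
    (f := fun x : ℝ => Real.sinc (2 * Real.pi * x) ^ 2) (K := 2) sinc_bd (Λ := Real.log T) hL one_pos
  have hlU : Real.log (2 * V) ≤ Real.log T := Real.log_le_log (by linarith) hVT
  have hlU0 : 0 ≤ Real.log (2 * V) := Real.log_nonneg (by linarith)
  have h5 := hPP (2 * V) (by linarith) (Real.log T) (by linarith)
  have h6 : C * (2 * V * Real.log (2 * V)) ≤ C * (4 * Real.pi * δ * Xf T) := by
    refine mul_le_mul_of_nonneg_left ?_ hC.le
    calc 2 * V * Real.log (2 * V) ≤ 2 * V * Real.log T :=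
          mul_le_mul_of_nonneg_left hlU (by linarith)
      _ = 4 * Real.pi * δ * Xf T := by
          rw [hV]
          unfold Xf
          field_simp
          ring
  have h7 : ∑ s ∈ Zt (2 * V), ∑ s' ∈ Zt (2 * V), mz s * mz s' *
        |(fun x : ℝ => Real.sinc (2 * Real.pi * x) ^ 2) ((s.im - s'.im) * Real.log T / (2 * Real.pi))|
      ≤ 25600 * Real.pi * C * δ * Xf T := by
    refine h4.trans ?_
    calc 1600 * 2 * (1 * TH803TW.PP1 (Zt (2 * V)) mz (fun s => s.im) (Real.log T) +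
          1 / 1 * TH803TW.PP1 (Zt (2 * V)) mz (fun s => s.im) (Real.log T))
        = 6400 * TH803TW.PP1 (Zt (2 * V)) mz (fun s => s.im) (Real.log T) := by ring
      _ ≤ 6400 * (C * (4 * Real.pi * δ * Xf T)) :=
          mul_le_mul_of_nonneg_left (h5.trans h6) (by norm_num)
      _ = _ := by ring
  have h8 : 4 / V ^ 2 * ((∑ s ∈ Zt V, mz s) * ∑ s ∈ Zt T, mz s) ≤ ε / 4 * Xf T := by
    have h9 : (∑ s ∈ Zt V, mz s) * ∑ s ∈ Zt T, mz s ≤ (2 * Xf T) * (2 * Xf T) :=
      mul_le_mul hNV hNT hN1 (by linarith)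
    have hV0' : 0 < V := by linarith
    have hp3 := Real.pi_gt_three
    have h10 : 4 / V ^ 2 * ((2 * Xf T) * (2 * Xf T)) = (16 * Xf T / V ^ 2) * Xf T := by ring
    have h11 : 16 * Xf T / V ^ 2 ≤ ε / 4 := by
      rw [div_le_iff₀ (by positivity), hV]
      have h12 : Xf T ≤ T * Real.log T / 6 := by
        unfold Xf
        exact div_le_div_of_nonneg_left (by positivity) (by norm_num) (by linarith)
      have h13 : T * Real.log T ≤ T * ((ε * δ ^ 2 / 32) * T) :=
        mul_le_mul_of_nonneg_left hlT hT0.le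
      have h14 : 0 ≤ ε * δ ^ 2 * T ^ 2 := by positivity
      nlinarith
    calc 4 / V ^ 2 * ((∑ s ∈ Zt V, mz s) * ∑ s ∈ Zt T, mz s) ≤
          4 / V ^ 2 * ((2 * Xf T) * (2 * Xf T)) := mul_le_mul_of_nonneg_left h9 (by positivity)
      _ = (16 * Xf T / V ^ 2) * Xf T := h10
      _ ≤ ε / 4 * Xf T := mul_le_mul_of_nonneg_right h11 hX.le
  have h9 : 25600 * Real.pi * C * δ * Xf T ≤ ε / 4 * Xf T := mul_le_mul_of_nonneg_right hδε hX.le
  have h10 : ∑ s ∈ Zb V T, mz s ≤ ∑ s ∈ Zt T, mz s := by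
    classical
    refine Finset.sum_le_sum_of_subset_of_nonneg ?_ fun s _ _ => mz_nonneg s
    rw [Zt_split (V := V) (T := T) (by linarith) (by linarith)]
    exact Finset.subset_union_right
  unfold EE EI
  rw [← hV]
  have h11 : ∑ s ∈ Zt T, ∑ s' ∈ Zt T, mz s * mz s' *
      (wgt (s.im - s'.im) * Real.sinc (2 * Real.pi * dd T s s') ^ 2) =
      ∑ s ∈ Zt T, ∑ s' ∈ Zt T, qq T s s' := rfl
  rw [h11]
  have h12 : ε = (Xf T)⁻¹ * (ε * Xf T) := by
    field_simp
  rw [h12, ← mul_add]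
  refine mul_le_mul_of_nonneg_left ?_ (inv_nonneg.2 hX.le)
  linarith

end H479.W
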