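import Pool.Agent.H479.P.Cv
import Pool.Graph.R_seed8.H177R3.LatD

/-!
# Interface: the lower half of the conjecture, and the alternative hypothesis
-/

open MeasureTheory Filter Topology

namespace H479.W

open H479.P
open Pool.Agent.Y744
open H177.Lat (kI yy del)
open SG (ord NZ)

noncomputable section

/-- Montgomery's theorem for continuous test functions on `[0, 1]` -/
def S_MON : Prop := RiemannHypothesis → ∀ g : ℝ → ℝ, Continuous g →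
  Tendsto (fun T => ∫ α in (0 : ℝ)..1, g α * Fr T α) atTop
    (𝓝 (g 0 / 2 + ∫ α in (0 : ℝ)..1, g α * α))

/-! ### The lower half -/

/-- the lower half: `liminf ∫_a^b F ≥ b - a` -/
def LH (l : Filter ℝ) : Prop := ∀ a b : ℝ, 1 ≤ a → a < b → ∀ ε : ℝ, 0 < ε →
  ∀ᶠ T in l, b - a - ε ≤ ∫ α in a..b, Fr T α

/-- the lower half against nonnegative continuous functions -/
def S_LHG : Prop := ∀ l : Filter ℝ, l ≤ atTop → LH l → ∀ a b : ℝ, 1 ≤ a → a < b → ∀ g : ℝ → ℝ,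
  Continuous g → (∀ α ∈ Set.Icc a b, 0 ≤ g α) → ∀ ε : ℝ, 0 < ε →
  ∀ᶠ T in l, -ε ≤ ∫ α in a..b, g α * (Fr T α - 1)

/-- the tent on the side of the pairs -/
def S_TEN : Prop := RiemannHypothesis → ∀ T y B : ℝ, 2 ≤ T → 0 < y → 0 < B →
  2 * (∫ α in (0 : ℝ)..B, y * Real.sinc (Real.pi * y * α) ^ 2 * Fr T α) ≤ Aa T y

/-! ### The alternative hypothesis -/

/-- the weighted mean of `F` over `(1, 2)` -/
def JJ (T : ℝ) : ℝ := ∫ α in (1 : ℝ)..2, (1 - α / 2) * Fr T α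

/-- the sum of `sinc²(2π(y_n - y_n'))` over the pairs of different indices, in terms of the zeros -/
def EE (T : ℝ) : ℝ := (Xf T)⁻¹ * ((∑ s ∈ Zt T, ∑ s' ∈ Zt T, mz s * mz s' *
  (wgt (s.im - s'.im) * Real.sinc (2 * Real.pi * dd T s s') ^ 2)) - ∑ s ∈ Zt T, mz s)

/-- the same for the indices of the zeros with ordinate in `(δ T, T]`, without the weight -/
def EI (δ T : ℝ) : ℝ := (Xf T)⁻¹ * ∑ n ∈ Finset.Ioc (NZ (δ * T)) (NZ T),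
  ∑ n' ∈ Finset.Ioc (NZ (δ * T)) (NZ T),
    (if n = n' then 0 else Real.sinc (2 * Real.pi * (yy T n - yy T n')) ^ 2)

/-- the alternative hypothesis for almost all spacings -/
def AHd : Prop := ∀ ε : ℝ, 0 < ε → Tendsto (fun N : ℕ =>
  ({j : ℕ | 1 ≤ j ∧ j ≤ N ∧ ∀ k : ℕ, 1 ≤ k → ε ≤ |del j - k / 2|}.ncard : ℝ) / N) atTop (𝓝 0)

/-- ID: the identity for the kernel `2 sinc²(2πx)` -/
def S_ID : Prop := RiemannHypothesis → S_MON → Tendsto (fun T => JJ T - 1 / 6 - EE T) atTop (𝓝 0)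

/-- TH3: second moments of the local counts, over `(δ T, T]` -/
def S_TH3 : Prop := RiemannHypothesis → ∀ ρ δ : ℝ, 0 ≤ ρ → 0 < δ → δ < 1 → ∃ C T0 : ℝ, 0 < C ∧
  ∀ T : ℝ, T0 ≤ T → ∑ n ∈ Finset.Ioc (NZ (δ * T)) (NZ T),
    (kI (Finset.Ioc (NZ (δ * T)) (NZ T)) (yy T) ρ n : ℝ) ^ 2 ≤ C * Xf T

/-- CMB: near pairs and bad gaps -/
def S_CMB : Prop := ∀ (a b K : ℕ) (R ε C2 M : ℝ) (y : ℕ → ℝ) (Bd : Finset ℕ), 1 ≤ K → 0 < ε →
  K * ε ≤ 1 / 4 → 0 ≤ R → 0 ≤ M →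
  (∀ n ∈ Finset.Ioc a b, ∀ m ∈ Finset.Ioc a b, n ≤ m → y n ≤ y m) →
  (∀ j ∈ Finset.Ioc a b, j + 1 ≤ b → j ∉ Bd → ∃ k : ℕ, 1 ≤ k ∧ |y (j + 1) - y j - k / 2| ≤ ε) →
  (∑ n ∈ Finset.Ioc a b, (kI (Finset.Ioc a b) y R n : ℝ) ^ 2 ≤ C2 * M) →
  ∑ n ∈ Finset.Ioc a b, ∑ n' ∈ Finset.Ioc a b,
    (if n ≠ n' ∧ |y n - y n'| ≤ R then Real.sinc (2 * Real.pi * (y n - y n')) ^ 2 else 0) ≤
      2 * (16 * (K : ℝ) ^ 2 * ε ^ 2 * (C2 * M) + C2 * M / K + (K : ℝ) ^ 2 * (Bd.card : ℝ))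

/-- LOWP: the zeros with small ordinate are negligible, upper bound -/
def S_LOWP : Prop := RiemannHypothesis → ∀ ε : ℝ, 0 < ε → ∃ δ : ℝ, 0 < δ ∧ δ < 1 ∧
  ∀ᶠ T in atTop, EE T ≤ EI δ T + ε

/-- HIGHP: lower bound by the pairs in `(δ T, T]` at distance at most one -/
def S_HIGHP : Prop := RiemannHypothesis → ∀ δ : ℝ, 0 < δ → δ < 1 → ∀ᶠ T in atTop,
  1 / 2 * ((Xf T)⁻¹ * ∑ n ∈ Finset.Ioc (NZ (δ * T)) (NZ T), ∑ n' ∈ Finset.Ioc (NZ (δ * T)) (NZ T),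
    (if n ≠ n' ∧ |ord n - ord n'| ≤ 1 then Real.sinc (2 * Real.pi * (yy T n - yy T n')) ^ 2
      else 0)) ≤ EE T

/-- BAD: the alternative hypothesis for almost all gaps at the scale of `T` -/
def S_BAD : Prop := AHd → ∀ δ ε η : ℝ, 0 < δ → δ < 1 → 0 < ε → 0 < η → ∀ᶠ T in atTop,
  ({j : ℕ | j ∈ Finset.Ioc (NZ (δ * T)) (NZ T) ∧ j + 1 ≤ NZ T ∧
    ∀ k : ℕ, 1 ≤ k → ε < |yy T (j + 1) - yy T j - k / 2|}.ncard : ℝ) ≤ η * Xf T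

/-- AE: the alternative hypothesis for almost all spacings implies `EE → 0` -/
def S_AE : Prop := RiemannHypothesis → S_TH3 → S_CMB → S_LOWP → S_BAD → AHd →
  Tendsto EE atTop (𝓝 0)

/-- EA: the converse -/
def S_EA : Prop := RiemannHypothesis → S_HIGHP → Tendsto EE atTop (𝓝 0) → AHd

/-- PER: periodicity of `F` in the mean -/
def S_PER : Prop := RiemannHypothesis → Tendsto EE atTop (𝓝 0) → ∀ w : ℝ → ℝ,
  ContDiff ℝ (⊤ : ℕ∞) w → HasCompactSupport w →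
  Tendsto (fun T => ∫ α, w α * (Fr T α - Fr T (α - 2))) atTop (𝓝 0)

/-- DW: the windows in `[1, 2)` -/
def S_DW : Prop := RiemannHypothesis → S_MON → S_PER → Tendsto EE atTop (𝓝 0) →
  Tendsto JJ atTop (𝓝 (1 / 6)) → ∀ a b : ℝ, 1 ≤ a → a < b → b < 2 →
  Tendsto (fun T => ∫ α in a..b, Fr T α) atTop (𝓝 (∫ α in a..b, (2 - α)))

/-- CA: one-sided windows imply the weighted bound -/
def S_CA : Prop := RiemannHypothesis → (∀ a b : ℝ, 1 ≤ a → a < b → b < 2 → ∀ ε : ℝ, 0 < ε →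
  ∀ᶠ T in atTop, ∫ α in a..b, Fr T α ≤ (∫ α in a..b, (2 - α)) + ε) →
  ∀ ε : ℝ, 0 < ε → ∀ᶠ T in atTop, JJ T ≤ 1 / 6 + ε

end

end H479.W
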