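import Pool.Agent.H479.W.Stm
import Pool.Graph.R_seed8.H336R2.V.ExistsLam

open MeasureTheory Filter Topology

namespace H479.W

open H479.P
open Pool.Agent.Y744

noncomputable section

/-- the transform of the tent of width `y` -/
def gy (y α : ℝ) : ℝ := y * Real.sinc (Real.pi * y * α) ^ 2

lemma gy_cont (y : ℝ) : Continuous (gy y) := by
  unfold gy
  exact continuous_const.mul ((Real.continuous_sinc.comp (by fun_prop)).pow 2)

lemma gy_nonneg {y : ℝ} (hy : 0 < y) (α : ℝ) : 0 ≤ gy y α := by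
  unfold gy
  positivity

lemma gy_le {y : ℝ} (hy : 0 < y) (α : ℝ) : gy y α ≤ y := by
  unfold gy
  have h := Real.abs_sinc_le_one (Real.pi * y * α)
  have h1 : Real.sinc (Real.pi * y * α) ^ 2 ≤ 1 := by
    rw [← sq_abs]
    exact pow_le_one₀ (abs_nonneg _) h
  nlinarith

lemma gy_zero (y : ℝ) : gy y 0 = y := by
  unfold gy
  simp

lemma gy_tail {y : ℝ} (hy : 0 < y) {B : ℝ} (hB : 0 < B) :
    1 / 2 - 1 / (y * B) ≤ ∫ α in (0 : ℝ)..B, gy y α := by
  have e : ∫ α in (0 : ℝ)..B, gy y α = ∫ w in (0 : ℝ)..(y * B), Real.sinc (Real.pi * w) ^ 2 := by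
    have h1 := intervalIntegral.integral_comp_mul_left (a := 0) (b := B)
      (fun w : ℝ => Real.sinc (Real.pi * w) ^ 2) hy.ne'
    rw [mul_zero, smul_eq_mul] at h1
    have h2 : ∫ α in (0 : ℝ)..B, gy y α = y * ∫ α in (0 : ℝ)..B, Real.sinc (Real.pi * (y * α)) ^ 2 := by
      rw [← intervalIntegral.integral_const_mul]
      refine intervalIntegral.integral_congr fun α _ => ?_
      unfold gy
      beta_reduce
      rw [mul_assoc]
    rw [h2, h1]
    field_simp
  rw [e]
  have hyB : 0 < y * B := by positivity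
  refine le_of_forall_pos_le_add fun η hη => ?_
  obtain ⟨a, ha⟩ : ∃ a : ℝ, a = min η (y * B) := ⟨_, rfl⟩
  have ha0 : 0 < a := by rw [ha]; exact lt_min hη hyB
  have ha1 : a ≤ η := by rw [ha]; exact min_le_left _ _
  have ha2 : a ≤ y * B := by rw [ha]; exact min_le_right _ _
  have h1 := H336V.ExistsLam.middle ha0 ha2
  have hc : Continuous fun w : ℝ => Real.sinc (Real.pi * w) ^ 2 :=
    (Real.continuous_sinc.comp (by fun_prop)).pow 2
  have h2 : 0 ≤ ∫ w in (0 : ℝ)..a, Real.sinc (Real.pi * w) ^ 2 :=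
    intervalIntegral.integral_nonneg ha0.le fun w _ => sq_nonneg _
  have h3 := intervalIntegral.integral_add_adjacent_intervals (hc.intervalIntegrable 0 a)
    (hc.intervalIntegrable a (y * B)) (μ := volume)
  linarith

/-- `sinc²` is decreasing on `[0, π]` -/
lemma sinc_anti {a b : ℝ} (ha : 0 ≤ a) (hab : a ≤ b) (hb : b ≤ Real.pi) :
    Real.sinc b ^ 2 ≤ Real.sinc a ^ 2 := by
  have hsb : 0 ≤ Real.sinc b := by
    rcases eq_or_lt_of_le (ha.trans hab) with h | h
    · rw [← h, Real.sinc_zero]; exact zero_le_one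
    · rw [Real.sinc_of_ne_zero h.ne']
      exact div_nonneg (Real.sin_nonneg_of_nonneg_of_le_pi h.le hb) h.le
  refine pow_le_pow_left₀ hsb ?_ 2
  rcases eq_or_lt_of_le ha with h0 | h0
  · rw [← h0, Real.sinc_zero]
    exact Real.sinc_le_one b
  · have hb0 : 0 < b := h0.trans_le hab
    rw [Real.sinc_of_ne_zero h0.ne', Real.sinc_of_ne_zero hb0.ne', div_le_div_iff₀ hb0 h0]
    -- concavity of sin on [0, π]
    have hc := strictConcaveOn_sin_Icc.concaveOn
    have g1 : 0 ≤ 1 - a / b := by rw [sub_nonneg, div_le_one hb0]; exact hab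
    have g2 : 0 ≤ a / b := by positivity
    have h1 := hc.2 (show (0 : ℝ) ∈ Set.Icc 0 Real.pi from ⟨le_rfl, Real.pi_pos.le⟩)
      (show b ∈ Set.Icc 0 Real.pi from ⟨hb0.le, hb⟩) g1 g2 (by ring)
    simp only [smul_eq_mul, mul_zero, zero_add, Real.sin_zero] at h1
    have e : a / b * b = a := by field_simp
    rw [e] at h1
    have h2 := mul_le_mul_of_nonneg_right h1 hb0.le
    have e2 : a / b * Real.sin b * b = Real.sin b * a := by field_simp
    rw [e2] at h2
    exact h2

/-- **the excess of the form factor is bounded by the number of close pairs** -/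
theorem excess (RH : RiemannHypothesis) (hM : S_MON) (hT : S_TEN) (hG : S_LHG) {l : Filter ℝ}
    (hl : l ≤ atTop) (h : LH l) {t y c : ℝ} (ht : 1 ≤ t) (hy : 0 < y) (hyt : y * t < 1)
    (hc : ∀ᶠ T in l, Aa T y ≤ 1 + c) {ε : ℝ} (hε : 0 < ε) :
    ∀ᶠ T in l, ∫ α in (1 : ℝ)..t, Fr T α ≤ t - 1 + c / (2 * gy y t) + ε := by
  rcases ht.eq_or_lt with rfl | ht1
  · -- trivial case
    have hpi := Real.pi_pos
    have hgt : 0 < gy y 1 := by
      unfold gy
      have h1 : 0 < Real.sinc (Real.pi * y * 1) := by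
        rw [mul_one] at hyt ⊢
        rw [Real.sinc_of_ne_zero (by positivity)]
        apply div_pos (Real.sin_pos_of_pos_of_lt_pi (by positivity) _) (by positivity)
        nlinarith
      positivity
    have h0 : ∀ᶠ T in l, 0 ≤ c + ε * (2 * gy y 1) := by
      filter_upwards [hc, hl (Aa_diag (ε := ε * (2 * gy y 1)) (by positivity)),
        hl (eventually_gt_atTop (1 : ℝ))] with T h1 h2 h3
      have h4 := Aa_mono h3 hy.le
      linarith
    filter_upwards [h0] with T h1
    rw [intervalIntegral.integral_same, sub_self, zero_add]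
    have h2 : c / (2 * gy y 1) + ε = (c + ε * (2 * gy y 1)) / (2 * gy y 1) := by
      field_simp
    rw [h2]
    positivity
  have hpi := Real.pi_pos
  have ht0 : 0 < t := by linarith
  have hgt : 0 < gy y t := by
    unfold gy
    have h1 : 0 < Real.sinc (Real.pi * y * t) := by
      rw [Real.sinc_of_ne_zero (by positivity)]
      apply div_pos (Real.sin_pos_of_pos_of_lt_pi (by positivity) _) (by positivity)
      nlinarith
    positivity
  obtain ⟨η, hη⟩ : ∃ η : ℝ, η = ε * gy y t / 8 := ⟨_, rfl⟩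
  have hη0 : 0 < η := by rw [hη]; positivity
  obtain ⟨B, hB⟩ : ∃ B : ℝ, B = t + 1 + 1 / (y * η) := ⟨_, rfl⟩
  have hBt : t < B := by
    rw [hB]
    have : 0 < 1 / (y * η) := by positivity
    linarith
  have hB0 : 0 < B := by linarith
  have hBη : 1 / (y * B) ≤ η := by
    rw [div_le_iff₀ (by positivity)]
    have h1 : 1 / (y * η) ≤ B := by rw [hB]; linarith
    rw [div_le_iff₀ (by positivity)] at h1
    nlinarith
  have hgc := gy_cont y
  have hgn := gy_nonneg hy
  -- the three regions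
  have h1 : ∀ᶠ T in l, y / 2 + (∫ α in (0 : ℝ)..1, gy y α * α) - η ≤
      ∫ α in (0 : ℝ)..1, gy y α * Fr T α := by
    have h2 := (hM RH (gy y) hgc).mono_left hl
    rw [gy_zero] at h2
    filter_upwards [(tendsto_order.1 h2).1 (y / 2 + (∫ α in (0 : ℝ)..1, gy y α * α) - η)
      (by linarith)] with T hT
    exact hT.le
  have h2 : ∀ᶠ T in l, -η ≤ ∫ α in (1 : ℝ)..t, (gy y α - gy y t) * (Fr T α - 1) := by
    refine hG l hl h 1 t le_rfl ht1 (fun α => gy y α - gy y t) (by fun_prop) ?_ η hη0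
    intro α hα
    rw [sub_nonneg]
    unfold gy
    apply mul_le_mul_of_nonneg_left _ hy.le
    apply sinc_anti
    · have : 0 ≤ α := by linarith [hα.1]
      positivity
    · exact mul_le_mul_of_nonneg_left hα.2 (by positivity)
    · nlinarith
  have h3 : ∀ᶠ T in l, -η ≤ ∫ α in t..B, gy y α * (Fr T α - 1) :=
    hG l hl h t B ht hBt (gy y) hgc (fun α _ => hgn α) η hη0
  have h4 := gy_tail hy hB0
  filter_upwards [h1, h2, h3, hc, hl (eventually_ge_atTop (2 : ℝ))] with T a1 a2 a3 a4 a5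
  have hF := Fr_cont T
  have a6 : 2 * (∫ α in (0 : ℝ)..B, gy y α * Fr T α) ≤ Aa T y := hT RH T y B a5 hy hB0
  have ii : ∀ (f : ℝ → ℝ), Continuous f → ∀ a b : ℝ, IntervalIntegrable f volume a b :=
    fun f hf a b => hf.intervalIntegrable a b
  -- splitting
  have s1 : ∫ α in (0 : ℝ)..B, gy y α * Fr T α = (∫ α in (0 : ℝ)..1, gy y α * Fr T α) +
      (∫ α in (1 : ℝ)..t, gy y α * Fr T α) + ∫ α in t..B, gy y α * Fr T α := by
    rw [intervalIntegral.integral_add_adjacent_intervals (ii _ (by fun_prop) _ _) (ii _ (by fun_prop) _ _),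
      intervalIntegral.integral_add_adjacent_intervals (ii _ (by fun_prop) _ _) (ii _ (by fun_prop) _ _)]
  have s2 : ∫ α in (0 : ℝ)..B, gy y α = (∫ α in (0 : ℝ)..1, gy y α) +
      (∫ α in (1 : ℝ)..t, gy y α) + ∫ α in t..B, gy y α := by
    rw [intervalIntegral.integral_add_adjacent_intervals (ii _ hgc _ _) (ii _ hgc _ _),
      intervalIntegral.integral_add_adjacent_intervals (ii _ hgc _ _) (ii _ hgc _ _)]
  have s3 : ∫ α in t..B, gy y α * (Fr T α - 1) = (∫ α in t..B, gy y α * Fr T α) -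
      ∫ α in t..B, gy y α := by
    rw [← intervalIntegral.integral_sub (ii _ (by fun_prop) _ _) (ii _ hgc _ _)]
    refine intervalIntegral.integral_congr fun α _ => ?_
    beta_reduce
    ring
  have s4 : ∫ α in (1 : ℝ)..t, (gy y α - gy y t) * (Fr T α - 1) =
      (∫ α in (1 : ℝ)..t, gy y α * Fr T α) - (∫ α in (1 : ℝ)..t, gy y α) -
        gy y t * ((∫ α in (1 : ℝ)..t, Fr T α) - (t - 1)) := by
    have e1 : ∫ α in (1 : ℝ)..t, (1 : ℝ) = t - 1 := by simp
    rw [← e1, ← intervalIntegral.integral_sub (ii _ (by fun_prop) _ _) (ii _ (by fun_prop) _ _),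
      ← intervalIntegral.integral_sub (ii _ (by fun_prop) _ _) (ii _ (by fun_prop) _ _),
      ← intervalIntegral.integral_const_mul,
      ← intervalIntegral.integral_sub (ii _ (by fun_prop) _ _) (ii _ (by fun_prop) _ _)]
    refine intervalIntegral.integral_congr fun α _ => ?_
    beta_reduce
    ring
  have s5 : (∫ α in (0 : ℝ)..1, gy y α) - (∫ α in (0 : ℝ)..1, gy y α * α) ≤ y / 2 := by
    rw [← intervalIntegral.integral_sub (ii _ hgc _ _) (ii _ (by fun_prop) _ _)]
    have e1 : ∫ α in (0 : ℝ)..1, y * (1 - α) = y / 2 := by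
      rw [intervalIntegral.integral_const_mul, intervalIntegral.integral_sub (by simp) (by simp)]
      simp
      ring
    rw [← e1]
    refine intervalIntegral.integral_mono_on (by norm_num) (ii _ (by fun_prop) _ _)
      (ii _ (by fun_prop) _ _) fun α hα => ?_
    have := gy_le hy α
    have h9 : 0 ≤ 1 - α := by linarith [hα.2]
    nlinarith
  obtain ⟨S, hS⟩ : ∃ S : ℝ, S = (∫ α in (1 : ℝ)..t, Fr T α) - (t - 1) := ⟨_, rfl⟩
  have key : 2 * (gy y t * S) ≤ c + 8 * η := by
    rw [s3] at a3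
    rw [s4, ← hS] at a2
    have h7 : 0 ≤ η := hη0.le
    linarith
  have h8 : S ≤ c / (2 * gy y t) + ε := by
    have e1 : c / (2 * gy y t) + ε = (c + 8 * η * 2) / (2 * gy y t) := by
      rw [hη]
      field_simp
    rw [e1, le_div_iff₀ (by positivity)]
    linarith
  linarith

end

end H479.W
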