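import Pool.Agent.H479.W.A

open MeasureTheory Filter Topology

namespace H479.W

open H479.P
open Pool.Agent.Y744

noncomputable section

/-- weak repulsion: few pairs at distance at most `y`, for arbitrarily small `y` -/
def Rep (l : Filter ℝ) : Prop := ∀ δ : ℝ, 0 < δ → ∃ y : ℝ, 0 < y ∧ y < δ ∧
  ∀ᶠ T in l, Aa T y ≤ 1 + δ * y

theorem ST_of_LH (RH : RiemannHypothesis) (hM : S_MON) (hT : S_TEN) (hG : S_LHG) {l : Filter ℝ}
    (hl : l ≤ atTop) (h : LH l) (hR : Rep l) {t : ℝ} (ht : 1 ≤ t) :
    Tendsto (fun T => H479.P.ST T t) l (𝓝 0) := by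
  have hpi := Real.pi_pos
  have ht0 : 0 < t := by linarith
  have e : ∀ T, H479.P.ST T t = (∫ α in (1 : ℝ)..t, Fr T α) - (t - 1) := by
    intro T
    have h1 := ST_sub T 1 t
    rw [ST_one] at h1
    linarith
  rw [tendsto_order]
  constructor
  · intro a ha
    rcases ht.eq_or_lt with rfl | ht1
    · filter_upwards with T
      rw [ST_one]
      exact ha
    · filter_upwards [h 1 t le_rfl ht1 (-a / 2) (by linarith)] with T hT'
      rw [e]
      linarith
  · intro a ha
    -- sinc² ≥ 1/2 near 0
    have hs : ∀ᶠ z in 𝓝 (0 : ℝ), 1 / 2 < Real.sinc z ^ 2 := by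
      have hc : ContinuousAt (fun z => Real.sinc z ^ 2) 0 := (Real.continuous_sinc.pow 2).continuousAt
      apply hc.eventually_const_lt
      simp
      norm_num
    obtain ⟨η, hη, hs'⟩ := Metric.eventually_nhds_iff.1 hs
    obtain ⟨δ, hδ⟩ : ∃ δ : ℝ, δ = min (a / 4) (min (1 / (2 * t)) (η / (2 * Real.pi * t))) := ⟨_, rfl⟩
    have hδ0 : 0 < δ := by
      rw [hδ]
      exact lt_min (by linarith) (lt_min (by positivity) (by positivity))
    obtain ⟨y, hy0, hyδ, hy⟩ := hR δ hδ0
    have h1 : y < 1 / (2 * t) := hyδ.trans_le (by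
      rw [hδ]; exact (min_le_right _ _).trans (min_le_left _ _))
    have h2 : y < η / (2 * Real.pi * t) := hyδ.trans_le (by
      rw [hδ]; exact (min_le_right _ _).trans (min_le_right _ _))
    have h3 : δ ≤ a / 4 := by rw [hδ]; exact min_le_left _ _
    have hyt : y * t < 1 := by
      rw [lt_div_iff₀ (by positivity)] at h1
      linarith
    have hg : y / 2 ≤ gy y t := by
      have h4 : 1 / 2 < Real.sinc (Real.pi * y * t) ^ 2 := by
        apply hs'
        rw [Real.dist_eq, sub_zero, abs_of_pos (by positivity)]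
        rw [lt_div_iff₀ (by positivity)] at h2
        nlinarith
      unfold gy
      nlinarith
    have h5 := excess RH hM hT hG hl h ht hy0 hyt hy (ε := a / 4) (by linarith)
    filter_upwards [h5] with T hT'
    rw [e]
    have h6 : δ * y / (2 * gy y t) ≤ a / 4 := by
      rw [div_le_iff₀ (by linarith)]
      nlinarith
    linarith

/-- the conjecture implies weak repulsion -/
theorem Rep_of_Aa {l : Filter ℝ} (h : ∀ y, Tendsto (fun T => Aa T y) l (𝓝 (AG y))) : Rep l := by
  intro δ hδ
  have hs : ∀ᶠ z in 𝓝 (0 : ℝ), 1 - δ / 4 < Real.sinc (Real.pi * z) ^ 2 := by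
    have hc : ContinuousAt (fun z => Real.sinc (Real.pi * z) ^ 2) 0 :=
      ((Real.continuous_sinc.comp (by fun_prop)).pow 2).continuousAt
    apply hc.eventually_const_lt
    simp
    linarith
  obtain ⟨η, hη, hs'⟩ := Metric.eventually_nhds_iff.1 hs
  obtain ⟨y, hy⟩ : ∃ y : ℝ, y = min δ η / 2 := ⟨_, rfl⟩
  have hm : 0 < min δ η := lt_min hδ hη
  have hy0 : 0 < y := by rw [hy]; linarith
  refine ⟨y, hy0, ?_, ?_⟩
  · have := min_le_left δ η
    rw [hy]; linarith
  · have hyη : y < η := by
      have := min_le_right δ η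
      rw [hy]; linarith
    have hgp : gp y ≤ δ / 4 * y := by
      have e1 : gp y = ∫ u in (0 : ℝ)..y, gd u := rfl
      have e2 : δ / 4 * y = ∫ u in (0 : ℝ)..y, δ / 4 := by simp; ring
      rw [e1, e2]
      refine intervalIntegral.integral_mono_on hy0.le (gd_cont.intervalIntegrable _ _)
        (by simp) fun u hu => ?_
      have h1 := hs' (show dist u 0 < η by
        rw [Real.dist_eq, sub_zero, abs_of_nonneg hu.1]
        linarith [hu.2])
      unfold gd
      linarith
    have h2 : AG y < 1 + δ * y := by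
      unfold AG
      rw [if_neg (by linarith)]
      nlinarith
    filter_upwards [(tendsto_order.1 (h y)).2 _ h2] with T hT
    exact hT.le

/-- the conjecture implies the lower half -/
theorem LH_of_ST {l : Filter ℝ} (hS : ∀ t, 1 ≤ t → Tendsto (fun T => H479.P.ST T t) l (𝓝 0)) : LH l := by
  intro a b ha hab ε hε
  have h1 := (hS b (ha.trans hab.le)).sub (hS a ha)
  rw [sub_zero] at h1
  filter_upwards [(tendsto_order.1 h1).1 (-ε) (by linarith)] with T hT
  have h2 := ST_sub T a b
  linarith

end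

end H479.W
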