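import Pool.Agent.H479.W.Stm

/-! # the lower half against nonnegative continuous functions (proved by helper721) -/


open MeasureTheory Filter Topology

namespace H721.LHG

/-- a partition adapted to a continuous function -/
lemma aux {a b : ℝ} (hab : a < b) {g : ℝ → ℝ} (hg : Continuous g)
    (hg0 : ∀ α ∈ Set.Icc a b, 0 ≤ g α) {ε : ℝ} (hε : 0 < ε) :
    ∃ (M : ℕ) (x : ℕ → ℝ) (ε' : ℝ), 0 < ε' ∧ (∀ k < M, x k < x (k + 1)) ∧ (∀ k < M, a ≤ x k) ∧
      ∀ f : ℝ → ℝ, Continuous f → (∀ α, 0 ≤ f α) →
        (∀ k < M, x (k + 1) - x k - ε' ≤ ∫ α in x k..x (k + 1), f α) →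
        -ε ≤ ∫ α in a..b, g α * (f α - 1) := by
  have hba : 0 < b - a := sub_pos.2 hab
  set η : ℝ := ε / (4 * (b - a)) with hη
  have hη0 : 0 < η := by positivity
  obtain ⟨G, hG⟩ := (isCompact_Icc (a := a) (b := b)).exists_bound_of_continuousOn hg.continuousOn
  have hG0 : 0 ≤ G := (norm_nonneg _).trans (hG a ⟨le_rfl, hab.le⟩)
  obtain ⟨δ, hδ, hδg⟩ := Metric.uniformContinuousOn_iff.1
    ((isCompact_Icc (a := a) (b := b)).uniformContinuousOn_of_continuous hg.continuousOn) η hη0
  obtain ⟨M, hM⟩ := exists_nat_gt ((b - a) / δ)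
  have hM0 : (0 : ℝ) < M := lt_of_le_of_lt (by positivity) hM
  set s : ℝ := (b - a) / M with hs
  have hs0 : 0 < s := by positivity
  have hsδ : s < δ := by
    rw [hs, div_lt_iff₀ hM0]
    rw [div_lt_iff₀ hδ] at hM
    linarith
  have hMs : (M : ℝ) * s = b - a := by rw [hs]; field_simp
  set x : ℕ → ℝ := fun k => a + k * s with hx
  have hxs : ∀ k, x (k + 1) - x k = s := by
    intro k; simp only [hx]; push_cast; ring
  have hx0 : x 0 = a := by simp [hx]
  have hxM : x M = b := by simp only [hx]; rw [hMs]; ring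
  have hxa : ∀ k, a ≤ x k := fun k => by simp only [hx]; have : 0 ≤ (k : ℝ) * s := by positivity
                                         linarith
  have hxb : ∀ k, k ≤ M → x k ≤ b := fun k hk => by
    have : (k : ℝ) * s ≤ M * s := mul_le_mul_of_nonneg_right (by exact_mod_cast hk) hs0.le
    simp only [hx]; linarith
  set ε' : ℝ := ε / (2 * (G + 1) * M) with hε'
  have hε'0 : 0 < ε' := by positivity
  refine ⟨M, x, ε', hε'0, fun k _ => by linarith [hxs k], fun k _ => hxa k, ?_⟩
  intro f hf hf0 hint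
  have hii : ∀ c d : ℝ, IntervalIntegrable (fun α => g α * (f α - 1)) volume c d := fun c d =>
    (hg.mul (hf.sub continuous_const)).intervalIntegrable c d
  have hsum := intervalIntegral.sum_integral_adjacent_intervals (a := x) (n := M)
    (f := fun α => g α * (f α - 1)) (μ := volume) (fun k _ => hii _ _)
  rw [hx0, hxM] at hsum
  rw [← hsum]
  have hk : ∀ k ∈ Finset.range M, -(G * ε' + 2 * η * s) ≤
      ∫ α in x k..x (k + 1), g α * (f α - 1) := by
    intro k hk
    rw [Finset.mem_range] at hk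
    have hlt : x k ≤ x (k + 1) := by linarith [hxs k]
    have hmemk : x k ∈ Set.Icc a b := ⟨hxa k, hxb k hk.le⟩
    set c : ℝ := max 0 (g (x k) - η) with hc
    have hc0 : 0 ≤ c := le_max_left _ _
    have hcG : c ≤ G := by
      refine max_le hG0 ?_
      have := hG _ hmemk
      rw [Real.norm_eq_abs] at this
      linarith [le_abs_self (g (x k))]
    have hg1 : ∀ α ∈ Set.Icc (x k) (x (k + 1)), c ≤ g α ∧ g α ≤ c + 2 * η := by
      intro α hα
      have hmem : α ∈ Set.Icc a b := ⟨(hxa k).trans hα.1, hα.2.trans (hxb (k + 1) hk)⟩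
      have hd : dist α (x k) < δ := by
        rw [Real.dist_eq, abs_of_nonneg (by linarith [hα.1])]
        linarith [hα.2, hxs k]
      have h1 := hδg α hmem (x k) hmemk hd
      rw [Real.dist_eq, abs_lt] at h1
      refine ⟨max_le (hg0 α hmem) (by linarith [h1.1]), ?_⟩
      have : g (x k) - η ≤ c := le_max_right _ _
      linarith [h1.2]
    have h2 : ∫ α in x k..x (k + 1), (c * f α - (c + 2 * η)) ≤
        ∫ α in x k..x (k + 1), g α * (f α - 1) := by
      refine intervalIntegral.integral_mono_on hlt ?_ (hii _ _) fun α hα => ?_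
      · exact ((continuous_const.mul hf).sub continuous_const).intervalIntegrable _ _
      · obtain ⟨h3, h4⟩ := hg1 α hα
        have h5 := mul_le_mul_of_nonneg_right h3 (hf0 α)
        linarith
    have h3 : ∫ α in x k..x (k + 1), (c * f α - (c + 2 * η)) =
        c * (∫ α in x k..x (k + 1), f α) - (c + 2 * η) * s := by
      have hci : IntervalIntegrable (fun α => c * f α) volume (x k) (x (k + 1)) :=
        (continuous_const.mul hf).intervalIntegrable _ _
      have hcc : IntervalIntegrable (fun _ : ℝ => c + 2 * η) volume (x k) (x (k + 1)) :=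
        continuous_const.intervalIntegrable _ _
      rw [intervalIntegral.integral_sub hci hcc, intervalIntegral.integral_const_mul,
        intervalIntegral.integral_const, hxs, smul_eq_mul, mul_comm s]
    rw [h3] at h2
    refine le_trans ?_ h2
    have h4 := hint k hk
    rw [hxs] at h4
    have h5 := mul_le_mul_of_nonneg_left h4 hc0
    have h6 : c * ε' ≤ G * ε' := mul_le_mul_of_nonneg_right hcG hε'0.le
    linarith
  refine le_trans ?_ (Finset.sum_le_sum hk)
  rw [Finset.sum_const, Finset.card_range, nsmul_eq_mul]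
  have h1 : (M : ℝ) * (2 * η * s) = ε / 2 := by
    calc (M : ℝ) * (2 * η * s) = 2 * η * (M * s) := by ring
      _ = 2 * η * (b - a) := by rw [hMs]
      _ = ε / 2 := by rw [hη]; field_simp; norm_num
  have h2 : (M : ℝ) * (G * ε') ≤ ε / 2 := by
    have h3 : (M : ℝ) * (G * ε') = G / (G + 1) * (ε / 2) := by
      rw [hε']; field_simp
    rw [h3]
    have h4 : G / (G + 1) ≤ 1 := by rw [div_le_one (by linarith)]; linarith
    have := mul_le_mul_of_nonneg_right h4 (by positivity : 0 ≤ ε / 2)
    linarith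
  have h3 : (M : ℝ) * -(G * ε' + 2 * η * s) = -((M : ℝ) * (G * ε')) - (M : ℝ) * (2 * η * s) := by
    ring
  rw [h3, h1]
  linarith

end H721.LHG


namespace H479.W

open H479.P
open Pool.Agent.Y744
open H177.Lat (kI yy del)
open SG (ord NZ)

theorem lhg : S_LHG := by
  intro l hl hLH a b ha hab g hg hg0 ε hε
  obtain ⟨M, x, ε', hε', hx1, hx2, haux⟩ := H721.LHG.aux hab hg hg0 hε
  have hT : ∀ᶠ T in l, (1 : ℝ) ≤ T := hl (Filter.eventually_ge_atTop 1)
  have hall : ∀ᶠ T in l, ∀ k ∈ Finset.range M,
      x (k + 1) - x k - ε' ≤ ∫ α in x k..x (k + 1), Fr T α := by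
    rw [Filter.eventually_all_finset]
    intro k hk
    rw [Finset.mem_range] at hk
    exact hLH (x k) (x (k + 1)) (ha.trans (hx2 k hk)) (hx1 k hk) ε' hε'
  filter_upwards [hT, hall] with T hT1 hT2
  exact haux (Fr T) (Fr_cont T) (Fr_nonneg hT1) fun k hk => hT2 k (Finset.mem_range.2 hk)

end H479.W
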