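import Pool.Agent.H479.W.Stm
import Pool.Agent.H479.V.Mo

/-! # Montgomery's theorem for continuous test functions on [0,1] (proved by helper113) -/

open MeasureTheory Filter Topology

namespace H479.W.H113

open H479.P
open Pool.Agent.Y744
open H479.V (EW QP mont ew_decay CT_ct)
open Pool.Agent.N804 (SC CT)

/-- the smooth case on the side of `F` -/
lemma smooth_case (RH : RiemannHypothesis) {κ : ℝ} (hκ0 : 0 < κ) (hκ : κ < 1) {w : ℝ → ℝ}
    (hw : EW w) (hs : ∀ x, κ < |x| → w x = 0) :
    Tendsto (fun T => ∫ α, w α * Fr T α) atTop (𝓝 (Lam w)) := by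
  obtain ⟨C2, T2, hC2, hT2, herr⟩ := F_err RH
  obtain ⟨D, hD0, hD⟩ := ew_decay hw
  have hct : CT w = ct w := funext fun y => CT_ct w y
  have hCE : CE κ w := ⟨hw.sc.cont, hw.even, hs⟩
  have h4 : Tendsto (fun T => (∫ α, w α * Fr T α) - QP w T) atTop (𝓝 0) := by
    have h5 : Tendsto (fun T => D * (C2 / (Real.log T) ^ 2)) atTop (𝓝 (D * 0)) := by
      apply Tendsto.const_mul
      apply Tendsto.div_atTop tendsto_const_nhds
      exact (tendsto_pow_atTop (by norm_num)).comp Real.tendsto_log_atTop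
    rw [mul_zero] at h5
    refine squeeze_zero_norm' ?_ h5
    filter_upwards [eventually_ge_atTop T2] with T hT
    have h6 := herr T hT κ w D hCE hD0 (fun x => by rw [← hct]; exact hD x)
    unfold QP
    rw [hct]
    exact h6
  have h5 := (mont RH hκ0 hκ hw hs).add h4
  rw [add_zero] at h5
  refine h5.congr fun T => ?_
  ring

/-- the smooth case on `[0, 1]` -/
lemma half_case (RH : RiemannHypothesis) {κ : ℝ} (hκ0 : 0 < κ) (hκ : κ < 1) {w : ℝ → ℝ}
    (hw : EW w) (hs : ∀ x, κ < |x| → w x = 0) :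
    Tendsto (fun T => ∫ α in (0 : ℝ)..1, w α * Fr T α) atTop
      (𝓝 (w 0 / 2 + ∫ α in (0 : ℝ)..1, w α * α)) := by
  have h1 := (smooth_case RH hκ0 hκ hw hs).const_mul (1 / 2)
  have hwc := hw.sc.cont
  have e1 : ∀ T, (1 / 2) * ∫ α, w α * Fr T α = ∫ α in (0 : ℝ)..1, w α * Fr T α := by
    intro T
    rw [int_even (g := fun α => w α * Fr T α) (hwc.mul (Fr_cont T))
      (fun x => by simp only [hw.even, Fr_neg]) (A := 1) zero_le_one
      (fun x hx => by simp only [hs x (by linarith), zero_mul])]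
    ring
  have e2 : 1 / 2 * Lam w = w 0 / 2 + ∫ α in (0 : ℝ)..1, w α * α := by
    unfold Lam
    rw [int_even (g := fun α => w α * min |α| 1) (hwc.mul (by fun_prop))
      (fun x => by simp only [hw.even, abs_neg]) (A := 1) zero_le_one
      (fun x hx => by simp only [hs x (by linarith), zero_mul])]
    have e3 : ∫ α in (0 : ℝ)..1, w α * min |α| 1 = ∫ α in (0 : ℝ)..1, w α * α := by
      apply intervalIntegral.integral_congr
      intro α hα
      rw [Set.uIcc_of_le zero_le_one] at hα
      simp only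
      rw [abs_of_nonneg hα.1, min_eq_left hα.2]
    rw [e3]
    ring
  rw [e2] at h1
  exact h1.congr e1

lemma ew_of_TK {κ : ℝ} {χ : ℝ → ℝ} (h : TK κ χ) : EW χ := by
  refine ⟨⟨h.1, ?_⟩, h.2⟩
  refine HasCompactSupport.intro (isCompact_Icc (a := -κ) (b := κ)) fun x hx => h.supp x ?_
  by_contra hc
  exact hx (abs_le.1 (not_lt.1 hc))

end H479.W.H113

namespace H479.W

open H479.P
open Pool.Agent.Y744
open H177.Lat (kI yy del)
open SG (ord NZ)

open H479.W.H113 in
theorem mon : S_MON := by
  intro RH g hg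
  obtain ⟨C, T1, hC, hT1, hnear⟩ := Fr_near RH
  -- bound for `g`
  obtain ⟨G, hG1, hG⟩ : ∃ G : ℝ, 0 ≤ G ∧ ∀ α ∈ Set.Icc (0 : ℝ) 1, |g α| ≤ G := by
    obtain ⟨G, hG⟩ := isCompact_Icc.exists_bound_of_continuousOn (s := Set.Icc (0 : ℝ) 1)
      hg.continuousOn
    exact ⟨G, (norm_nonneg _).trans (hG 0 ⟨le_rfl, zero_le_one⟩), fun α hα => hG α hα⟩
  rw [Metric.tendsto_nhds]
  intro ε hε
  obtain ⟨δ, hδd⟩ : ∃ δ : ℝ, δ = ε / 16 := ⟨_, rfl⟩
  have hδ : 0 < δ := by rw [hδd]; positivity
  -- the cutoff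
  obtain ⟨lam, hlam⟩ : ∃ x : ℝ, x = 1 - min (1 / 2) (δ / ((G + 1) * (C + 1))) := ⟨_, rfl⟩
  have hm0 : 0 < min (1 / 2 : ℝ) (δ / ((G + 1) * (C + 1))) := lt_min (by norm_num) (by positivity)
  have hlam1 : lam < 1 := by rw [hlam]; linarith
  have hlam2 : 1 / 2 ≤ lam := by
    rw [hlam]
    have := min_le_left (1 / 2 : ℝ) (δ / ((G + 1) * (C + 1)))
    linarith
  have hlam3 : G * (C + 1) * (1 - lam) ≤ δ := by
    have h1 : 1 - lam ≤ δ / ((G + 1) * (C + 1)) := by
      rw [hlam]
      have := min_le_right (1 / 2 : ℝ) (δ / ((G + 1) * (C + 1)))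
      linarith
    have h2 : G * (C + 1) * (1 - lam) ≤ (G + 1) * (C + 1) * (δ / ((G + 1) * (C + 1))) := by
      apply mul_le_mul _ h1 (by linarith) (by positivity)
      apply mul_le_mul_of_nonneg_right (by linarith) (by linarith)
    have h3 : (G + 1) * (C + 1) * (δ / ((G + 1) * (C + 1))) = δ := by field_simp
    linarith
  obtain ⟨kap, hkap⟩ : ∃ x : ℝ, x = (1 + lam) / 2 := ⟨_, rfl⟩
  have hkap1 : kap < 1 := by rw [hkap]; linarith
  have hkap0 : 0 < kap := by rw [hkap]; linarith
  obtain ⟨χ, hχ, hχ1, hχ0, hχle⟩ := exists_chi (lam := lam) (kap := kap) (by linarith)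
    (by rw [hkap]; linarith)
  have hχE : H479.V.EW χ := ew_of_TK hχ
  have hχc : Continuous χ := hχE.sc.cont
  -- the polynomial
  obtain ⟨p, hp⟩ := exists_polynomial_near_of_continuousOn 0 1 (fun u => g (Real.sqrt u))
    (hg.comp Real.continuous_sqrt).continuousOn δ hδ
  have hp' : ∀ α ∈ Set.Icc (0 : ℝ) 1, |p.eval (α ^ 2) - g α| ≤ δ := by
    intro α hα
    have h1 := hp (α ^ 2) ⟨sq_nonneg _, pow_le_one₀ hα.1 hα.2⟩
    simp only [Real.sqrt_sq hα.1] at h1
    exact h1.le
  obtain ⟨w, hwd⟩ : ∃ w : ℝ → ℝ, w = fun α => p.eval (α ^ 2) * χ α := ⟨_, rfl⟩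
  have hws : ∀ x, kap < |x| → w x = 0 := by
    intro x hx
    rw [hwd]
    simp only
    rw [hχ.supp x hx, mul_zero]
  have hwE : H479.V.EW w := by
    refine ⟨⟨?_, ?_⟩, ?_⟩
    · rw [hwd]
      have hpc : ContDiff ℝ (⊤ : ℕ∞) fun x : ℝ => p.eval x := by
        have h1 := Polynomial.contDiff_aeval (𝕜 := ℝ) p (⊤ : ℕ∞)
        simpa only [Polynomial.coe_aeval_eq_eval] using h1
      exact (hpc.comp (contDiff_id.pow 2)).mul hχE.sc.sm
    · rw [hwd]
      exact hχE.sc.cs.mul_left
    · intro x
      rw [hwd]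
      simp only
      rw [neg_sq, hχE.even]
  have hwc : Continuous w := hwE.sc.cont
  -- the difference of `g` and `w`
  have hdiff : ∀ α ∈ Set.Icc (0 : ℝ) 1, |g α - w α| ≤ δ * χ α + G * (1 - χ α) := by
    intro α hα
    have h1 : g α - w α = -((p.eval (α ^ 2) - g α) * χ α) + g α * (1 - χ α) := by
      rw [hwd]
      ring
    rw [h1]
    refine (abs_add_le _ _).trans ?_
    rw [abs_neg, abs_mul, abs_mul, abs_of_nonneg (hχ0 α),
      abs_of_nonneg (sub_nonneg.2 (hχle α))]
    exact add_le_add (mul_le_mul_of_nonneg_right (hp' α hα) (hχ0 α))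
      (mul_le_mul_of_nonneg_right (hG α hα) (sub_nonneg.2 (hχle α)))
  -- the limits
  have L1 := half_case RH hkap0 hkap1 hwE hws
  have L2 := half_case RH hkap0 hkap1 hχE (fun x hx => hχ.supp x hx)
  have hχi : ∫ α in (0 : ℝ)..1, χ α * α ≤ 1 := by
    have h1 : ∫ α in (0 : ℝ)..1, χ α * α ≤ ∫ α in (0 : ℝ)..1, (1 : ℝ) := by
      apply intervalIntegral.integral_mono_on zero_le_one
        ((hχc.mul continuous_id).intervalIntegrable _ _) intervalIntegrable_const
      intro α hα
      calc χ α * α ≤ 1 * 1 := mul_le_mul (hχle α) hα.2 hα.1 zero_le_one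
        _ = 1 := one_mul 1
    simpa using h1
  have hχ00 : χ 0 = 1 := hχ1 0 (by rw [abs_zero]; linarith)
  -- the predicted values
  have hpred : |(g 0 / 2 + ∫ α in (0 : ℝ)..1, g α * α) - (w 0 / 2 + ∫ α in (0 : ℝ)..1, w α * α)| ≤
      3 * δ := by
    have h0 : |g 0 - w 0| ≤ δ := by
      have := hdiff 0 ⟨le_rfl, zero_le_one⟩
      rw [hχ00] at this
      linarith
    have h1 : |∫ α in (0 : ℝ)..1, (g α - w α) * α| ≤
        ∫ α in (0 : ℝ)..1, (δ + G * (1 - χ α)) := by
      refine (intervalIntegral.abs_integral_le_integral_abs zero_le_one).trans ?_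
      apply intervalIntegral.integral_mono_on zero_le_one
      · exact (((hg.sub hwc).mul continuous_id).abs).intervalIntegrable _ _
      · exact Continuous.intervalIntegrable (by fun_prop) _ _
      intro α hα
      rw [abs_mul, abs_of_nonneg hα.1]
      have h2 := hdiff α hα
      have h3 : δ * χ α ≤ δ := mul_le_of_le_one_right hδ.le (hχle α)
      calc |g α - w α| * α ≤ |g α - w α| * 1 := mul_le_mul_of_nonneg_left hα.2 (abs_nonneg _)
        _ ≤ δ + G * (1 - χ α) := by linarith
    have h2 : ∫ α in (0 : ℝ)..1, (δ + G * (1 - χ α)) ≤ δ + δ := by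
      rw [intervalIntegral.integral_add intervalIntegrable_const
        (Continuous.intervalIntegrable (by fun_prop) _ _)]
      have h3 : ∫ α in (0 : ℝ)..1, G * (1 - χ α) ≤ δ := by
        have hc : Continuous fun α => G * (1 - χ α) := by fun_prop
        rw [← intervalIntegral.integral_add_adjacent_intervals (a := 0) (b := lam) (c := 1)
          (hc.intervalIntegrable _ _) (hc.intervalIntegrable _ _)]
        have h4 : ∫ α in (0 : ℝ)..lam, G * (1 - χ α) = ∫ α in (0 : ℝ)..lam, (0 : ℝ) := by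
          apply intervalIntegral.integral_congr
          intro α hα
          rw [Set.uIcc_of_le (by linarith)] at hα
          simp only
          rw [hχ1 α (by rw [abs_of_nonneg hα.1]; exact hα.2)]
          ring
        have h5 : ∫ α in lam..1, G * (1 - χ α) ≤ ∫ α in lam..1, G := by
          apply intervalIntegral.integral_mono_on hlam1.le (hc.intervalIntegrable _ _)
            intervalIntegrable_const
          intro α hα
          have := hχ0 α
          nlinarith
        rw [intervalIntegral.integral_const, smul_zero] at h4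
        rw [intervalIntegral.integral_const, smul_eq_mul] at h5
        have h6 : 0 ≤ G * C * (1 - lam) := by
          have : 0 ≤ 1 - lam := by linarith
          positivity
        rw [h4, zero_add]
        nlinarith
      rw [intervalIntegral.integral_const, smul_eq_mul]
      linarith
    have h3 : (g 0 / 2 + ∫ α in (0 : ℝ)..1, g α * α) - (w 0 / 2 + ∫ α in (0 : ℝ)..1, w α * α) =
        (g 0 - w 0) / 2 + ∫ α in (0 : ℝ)..1, (g α - w α) * α := by
      have h4 : ∫ α in (0 : ℝ)..1, (g α - w α) * α =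
          (∫ α in (0 : ℝ)..1, g α * α) - ∫ α in (0 : ℝ)..1, w α * α := by
        have hi1 : IntervalIntegrable (fun α => g α * α) volume 0 1 :=
          (hg.mul continuous_id).intervalIntegrable _ _
        have hi2 : IntervalIntegrable (fun α => w α * α) volume 0 1 :=
          (hwc.mul continuous_id).intervalIntegrable _ _
        rw [← intervalIntegral.integral_sub hi1 hi2]
        congr 1
        funext α
        ring
      rw [h4]
      ring
    rw [h3]
    refine (abs_add_le _ _).trans ?_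
    rw [abs_div, abs_two]
    linarith
  filter_upwards [Metric.tendsto_nhds.1 L1 δ hδ, Metric.tendsto_nhds.1 L2 1 one_pos,
    eventually_ge_atTop T1] with T t1 t2 hT
  rw [Real.dist_eq] at t1 t2 ⊢
  have hT10 : 1 ≤ T := by linarith
  have hFc := Fr_cont T
  have hF0 : ∀ α, 0 ≤ Fr T α := Fr_nonneg hT10
  have k1 : |(∫ α in (0 : ℝ)..1, g α * Fr T α) - ∫ α in (0 : ℝ)..1, w α * Fr T α| ≤
      (δ * ∫ α in (0 : ℝ)..1, χ α * Fr T α) + δ := by
    have hi1 : IntervalIntegrable (fun α => g α * Fr T α) volume 0 1 :=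
      (hg.mul hFc).intervalIntegrable _ _
    have hi2 : IntervalIntegrable (fun α => w α * Fr T α) volume 0 1 :=
      (hwc.mul hFc).intervalIntegrable _ _
    rw [← intervalIntegral.integral_sub hi1 hi2]
    have hc1 : Continuous fun α => δ * (χ α * Fr T α) := by fun_prop
    have hc2 : Continuous fun α => G * ((1 - χ α) * Fr T α) := by fun_prop
    have h1 : |∫ α in (0 : ℝ)..1, (g α * Fr T α - w α * Fr T α)| ≤
        ∫ α in (0 : ℝ)..1, (δ * (χ α * Fr T α) + G * ((1 - χ α) * Fr T α)) := by
      refine (intervalIntegral.abs_integral_le_integral_abs zero_le_one).trans ?_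
      apply intervalIntegral.integral_mono_on zero_le_one
      · exact (((hg.mul hFc).sub (hwc.mul hFc)).abs).intervalIntegrable _ _
      · exact (hc1.add hc2).intervalIntegrable _ _
      intro α hα
      rw [← sub_mul, abs_mul, abs_of_nonneg (hF0 α)]
      refine (mul_le_mul_of_nonneg_right (hdiff α hα) (hF0 α)).trans (le_of_eq ?_)
      ring
    have h2 : ∫ α in (0 : ℝ)..1, G * ((1 - χ α) * Fr T α) ≤ δ := by
      rw [← intervalIntegral.integral_add_adjacent_intervals (a := 0) (b := lam) (c := 1)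
        (hc2.intervalIntegrable _ _) (hc2.intervalIntegrable _ _)]
      have h4 : ∫ α in (0 : ℝ)..lam, G * ((1 - χ α) * Fr T α) = ∫ α in (0 : ℝ)..lam, (0 : ℝ) := by
        apply intervalIntegral.integral_congr
        intro α hα
        rw [Set.uIcc_of_le (by linarith)] at hα
        simp only
        rw [hχ1 α (by rw [abs_of_nonneg hα.1]; exact hα.2)]
        ring
      have h5 : ∫ α in lam..1, G * ((1 - χ α) * Fr T α) ≤ ∫ α in lam..1, G * C := by
        apply intervalIntegral.integral_mono_on hlam1.le (hc2.intervalIntegrable _ _)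
          intervalIntegrable_const
        intro α hα
        have h6 := hnear T hT α (by linarith [hα.1]) hα.2
        apply mul_le_mul_of_nonneg_left _ hG1
        calc (1 - χ α) * Fr T α ≤ 1 * C :=
              mul_le_mul (by linarith [hχ0 α]) h6 (hF0 α) zero_le_one
          _ = C := one_mul C
      rw [intervalIntegral.integral_const, smul_zero] at h4
      rw [intervalIntegral.integral_const, smul_eq_mul] at h5
      have h6 : 0 ≤ G * (1 - lam) := mul_nonneg hG1 (by linarith)
      rw [h4, zero_add]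
      nlinarith
    rw [intervalIntegral.integral_add (hc1.intervalIntegrable _ _) (hc2.intervalIntegrable _ _),
      intervalIntegral.integral_const_mul] at h1
    linarith
  have k2 : ∫ α in (0 : ℝ)..1, χ α * Fr T α ≤ 5 / 2 := by
    rw [hχ00] at t2
    have := (abs_lt.1 t2).2
    linarith
  have k3 : δ * ∫ α in (0 : ℝ)..1, χ α * Fr T α ≤ δ * (5 / 2) := mul_le_mul_of_nonneg_left k2 hδ.le
  have k4 := abs_le.1 k1
  have k5 := abs_le.1 hpred
  have k6 := abs_lt.1 t1
  rw [abs_lt]
  constructor <;> linarith [k4.1, k4.2, k5.1, k5.2, k6.1, k6.2]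

end H479.W
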