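import Pool.Agent.H479.W.Stm

/-! # the tent function on the side of the pairs (proved by helper230) -/

open MeasureTheory Filter Topology

namespace H479.W

open H479.P
open Pool.Agent.Y744
open H177.Lat (kI yy del)
open SG (ord NZ)

namespace TenAux

open H177.Lat (tri KK tri_nonneg tri_zero tri_in tri_even tri_cont tri_integrable KK_zero KK_ne
  KK_nonneg KK_le KK_sq)
open scoped FourierTransform

lemma even_inv {f g : ℝ → ℝ} (hf : Continuous f) (hfi : Integrable f) (hfe : ∀ x, f (-x) = f x)
    (hg : ∀ x, g x = ∫ u, f u * Real.cos (2 * Real.pi * u * x)) (hgi : Integrable g) (d : ℝ) :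
    ∫ x, g x * Real.cos (2 * Real.pi * d * x) = f d := by
  set fc : ℝ → ℂ := fun u => (f u : ℂ) with hfc
  have hfci : Integrable fc := hfi.ofReal
  have hcos : ∀ x, Integrable fun u => f u * Real.cos (2 * Real.pi * u * x) := by
    intro x
    refine hfi.norm.mono' ((hf.mul (by fun_prop)).aestronglyMeasurable)
      (Eventually.of_forall fun u => ?_)
    rw [norm_mul]
    exact mul_le_of_le_one_right (norm_nonneg _) (Real.abs_cos_le_one _)
  have hsin : ∀ x, Integrable fun u => f u * Real.sin (2 * Real.pi * u * x) := by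
    intro x
    refine hfi.norm.mono' ((hf.mul (by fun_prop)).aestronglyMeasurable)
      (Eventually.of_forall fun u => ?_)
    rw [norm_mul]
    exact mul_le_of_le_one_right (norm_nonneg _) (Real.abs_sin_le_one _)
  have hsin0 : ∀ x, ∫ u, f u * Real.sin (2 * Real.pi * u * x) = 0 := by
    intro x
    have h1 := integral_neg_eq_self (fun u => f u * Real.sin (2 * Real.pi * u * x))
      (volume : Measure ℝ)
    have h2 : (fun u => f (-u) * Real.sin (2 * Real.pi * (-u) * x)) =
        fun u => -(f u * Real.sin (2 * Real.pi * u * x)) := by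
      funext u
      rw [hfe]
      have : 2 * Real.pi * (-u) * x = -(2 * Real.pi * u * x) := by ring
      rw [this, Real.sin_neg]
      ring
    have h3 : ∫ u, f (-u) * Real.sin (2 * Real.pi * (-u) * x) =
        -∫ u, f u * Real.sin (2 * Real.pi * u * x) := by
      rw [h2, integral_neg]
    have h4 : ∫ u, f (-u) * Real.sin (2 * Real.pi * (-u) * x) =
        ∫ u, f u * Real.sin (2 * Real.pi * u * x) := h1
    linarith
  have hF : 𝓕 fc = fun x => (g x : ℂ) := by
    funext x
    rw [Real.fourier_eq']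
    have e1 : ∀ v : ℝ, Complex.exp (((-2 * Real.pi * inner ℝ v x : ℝ) : ℂ) * Complex.I) • fc v =
        ((f v * Real.cos (2 * Real.pi * v * x) : ℝ) : ℂ) -
          ((f v * Real.sin (2 * Real.pi * v * x) : ℝ) : ℂ) * Complex.I := by
      intro v
      have e2 : -2 * Real.pi * inner ℝ v x = -(2 * Real.pi * v * x) := by
        simp only [RCLike.inner_apply, conj_trivial]
        ring
      rw [e2, Complex.exp_mul_I, ← Complex.ofReal_cos, ← Complex.ofReal_sin, Real.cos_neg,
        Real.sin_neg, hfc, smul_eq_mul]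
      push_cast
      ring
    have e3 : ∫ v : ℝ, ((f v * Real.cos (2 * Real.pi * v * x) : ℝ) : ℂ) = (g x : ℂ) := by
      rw [hg x]
      exact integral_ofReal
    have e4 : ∫ v : ℝ, ((f v * Real.sin (2 * Real.pi * v * x) : ℝ) : ℂ) = 0 := by
      have e5 : ∫ v : ℝ, ((f v * Real.sin (2 * Real.pi * v * x) : ℝ) : ℂ) =
        ((∫ v : ℝ, f v * Real.sin (2 * Real.pi * v * x) : ℝ) : ℂ) := integral_ofReal
      rw [e5, hsin0, Complex.ofReal_zero]
    rw [integral_congr_ae (Eventually.of_forall e1), integral_sub (hcos x).ofReal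
      ((hsin x).ofReal.mul_const _), integral_mul_const, e3, e4, zero_mul, sub_zero]
  have hFi : Integrable (𝓕 fc) := by rw [hF]; exact hgi.ofReal
  have hinv := hfci.fourierInv_fourier_eq hFi (v := d)
    (Complex.continuous_ofReal.comp hf).continuousAt
  rw [hF, Real.fourierInv_eq'] at hinv
  have hi : Integrable fun v : ℝ =>
      Complex.exp (((2 * Real.pi * inner ℝ v d : ℝ) : ℂ) * Complex.I) • (g v : ℂ) := by
    have h1 : Continuous fun v : ℝ =>
      Complex.exp (((2 * Real.pi * inner ℝ v d : ℝ) : ℂ) * Complex.I) := by fun_prop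
    refine hgi.norm.mono' (h1.aestronglyMeasurable.smul hgi.ofReal.aestronglyMeasurable)
      (Eventually.of_forall fun v => ?_)
    rw [norm_smul, Complex.norm_exp_ofReal_mul_I, one_mul, Complex.norm_real]
  have hre := congrArg Complex.re hinv
  rw [← RCLike.re_eq_complex_re, ← integral_re hi] at hre
  rw [RCLike.re_eq_complex_re, hfc, Complex.ofReal_re] at hre
  rw [← hre]
  refine integral_congr_ae (Eventually.of_forall fun v => ?_)
  have e2 : 2 * Real.pi * inner ℝ v d = 2 * Real.pi * d * v := by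
    simp only [RCLike.inner_apply, conj_trivial]
    ring
  simp only [smul_eq_mul]
  rw [e2, mul_comm (Complex.exp _), Complex.re_ofReal_mul, Complex.exp_ofReal_mul_I_re]

lemma KK_sinc {y : ℝ} (hy : 0 < y) (α : ℝ) : KK y α = y * Real.sinc (Real.pi * y * α) ^ 2 := by
  have hpi := Real.pi_pos
  by_cases h : α = 0
  · rw [h, KK_zero hy, mul_zero, Real.sinc_zero]
    ring
  · rw [KK_ne hy h, Real.sinc_of_ne_zero (by positivity)]
    have : Real.pi * (y * α) = Real.pi * y * α := by ring
    rw [this]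

lemma KK_cont {y : ℝ} (hy : 0 < y) : Continuous (KK y) := by
  have h : KK y = fun α => y * Real.sinc (Real.pi * y * α) ^ 2 := funext fun α => KK_sinc hy α
  rw [h]
  exact continuous_const.mul ((Real.continuous_sinc.comp (by fun_prop)).pow 2)

lemma KK_int {y : ℝ} (hy : 0 < y) : Integrable (KK y) := by
  refine ((integrable_inv_one_add_sq).const_mul (y + 1 / y)).mono'
    (KK_cont hy).aestronglyMeasurable (Eventually.of_forall fun x => ?_)
  rw [Real.norm_of_nonneg (KK_nonneg hy x), ← div_eq_mul_inv, le_div_iff₀ (by positivity)]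
  have h1 := KK_le hy x
  have h2 := KK_sq hy x
  nlinarith

lemma KK_inv {y : ℝ} (hy : 0 < y) (d : ℝ) :
    ∫ x, KK y x * Real.cos (2 * Real.pi * d * x) = tri y d := by
  have h1 : Integrable (tri y) := by
    have := tri_integrable hy (g := fun _ => 1) continuous_const
    simpa using this
  exact even_inv (tri_cont y) h1 (tri_even y) (fun x => rfl) (KK_int hy) d

lemma KK_even {y : ℝ} (hy : 0 < y) (x : ℝ) : KK y (-x) = KK y x := by
  rw [KK_sinc hy, KK_sinc hy, mul_neg, Real.sinc_neg]

lemma KK_mul_int {y : ℝ} (hy : 0 < y) (x : ℝ) :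
    Integrable fun α => KK y α * Real.cos (2 * Real.pi * x * α) := by
  refine (KK_int hy).norm.mono' (((KK_cont hy).mul (by fun_prop)).aestronglyMeasurable)
    (Eventually.of_forall fun u => ?_)
  rw [norm_mul]
  exact mul_le_of_le_one_right (norm_nonneg _) (Real.abs_cos_le_one _)

lemma Fr_eq (RH : RiemannHypothesis) (y T α : ℝ) : KK y α * Fr T α =
    (Xf T)⁻¹ * ∑ s ∈ Zt T, ∑ s' ∈ Zt T,
      mz s * mz s' * (wgt (s.im - s'.im) * (KK y α * Real.cos (2 * Real.pi * dd T s s' * α))) := by
  unfold Fr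
  rw [Xf_eq, Wp_rh_eq RH, div_eq_inv_mul, mul_left_comm, Finset.mul_sum]
  congr 1
  refine Finset.sum_congr rfl fun s _ => ?_
  rw [Finset.mul_sum]
  refine Finset.sum_congr rfl fun s' _ => ?_
  have : α * Real.log T * (s.im - s'.im) = 2 * Real.pi * dd T s s' * α := by
    unfold dd
    have := Real.pi_pos
    field_simp
  rw [this]
  ring

lemma KK_Fr_int (RH : RiemannHypothesis) {y : ℝ} (hy : 0 < y) (T : ℝ) :
    Integrable fun α => KK y α * Fr T α := by
  simp_rw [Fr_eq RH]
  exact (integrable_finsetSum _ fun s _ => integrable_finsetSum _ fun s' _ =>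
    ((KK_mul_int hy _).const_mul _).const_mul _).const_mul _

lemma KK_F (RH : RiemannHypothesis) {y : ℝ} (hy : 0 < y) (T : ℝ) :
    ∫ α, KK y α * Fr T α = (Xf T)⁻¹ * ∑ s ∈ Zt T, ∑ s' ∈ Zt T,
      mz s * mz s' * (wgt (s.im - s'.im) * tri y (dd T s s')) := by
  simp_rw [Fr_eq RH]
  rw [integral_const_mul, integral_finsetSum _ fun s _ => integrable_finsetSum _ fun s' _ =>
    ((KK_mul_int hy _).const_mul _).const_mul _]
  congr 1
  refine Finset.sum_congr rfl fun s _ => ?_
  rw [integral_finsetSum _ fun s' _ => ((KK_mul_int hy _).const_mul _).const_mul _]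
  refine Finset.sum_congr rfl fun s' _ => ?_
  rw [integral_const_mul, integral_const_mul, KK_inv hy]

lemma tri_le_ind {y : ℝ} (hy : 0 < y) (x : ℝ) :
    tri y x ≤ ({x : ℝ | |x| ≤ y}).indicator (fun _ => (1 : ℝ)) x := by
  by_cases h : |x| ≤ y
  · rw [Set.indicator_of_mem (by exact h), tri_in hy h]
    have : 0 ≤ |x| / y := by positivity
    linarith
  · rw [Set.indicator_of_notMem (by exact h), tri_zero hy (not_le.1 h).le]

lemma wgt_le_one (v : ℝ) : wgt v ≤ 1 := by
  unfold wgt
  rw [div_le_one (by positivity)]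
  nlinarith [sq_nonneg v]

end TenAux

open TenAux in
theorem ten : S_TEN := by
  intro RH T y B hT hy hB
  have hT1 : 1 ≤ T := by linarith
  have hX : 0 < Xf T := Xf_pos (by linarith)
  obtain ⟨h, hh⟩ : ∃ h : ℝ → ℝ, h = fun α => H177.Lat.KK y α * Fr T α := ⟨_, rfl⟩
  have hi : Integrable h := by rw [hh]; exact KK_Fr_int RH hy T
  have h0 : ∀ α, 0 ≤ h α := fun α => by
    rw [hh]; exact mul_nonneg (H177.Lat.KK_nonneg hy α) (Fr_nonneg hT1 α)
  have he : ∀ α, h (-α) = h α := fun α => by
    rw [hh]; simp only [KK_even hy, Fr_neg]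
  have e1 : ∫ α in (0 : ℝ)..B, y * Real.sinc (Real.pi * y * α) ^ 2 * Fr T α =
      ∫ α in (0 : ℝ)..B, h α := by
    refine intervalIntegral.integral_congr fun α _ => ?_
    simp only [hh, KK_sinc hy]
  have e2 : ∫ α in (-B)..0, h α = ∫ α in (0 : ℝ)..B, h α := by
    have h1 := intervalIntegral.integral_comp_neg (a := 0) (b := B) h
    rw [neg_zero] at h1
    rw [← h1]
    exact intervalIntegral.integral_congr fun α _ => he α
  have e3 : 2 * (∫ α in (0 : ℝ)..B, h α) = ∫ α in (-B)..B, h α := by
    rw [← intervalIntegral.integral_add_adjacent_intervals (a := -B) (b := 0) (c := B)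
      hi.intervalIntegrable hi.intervalIntegrable, e2]
    ring
  have e4 : ∫ α in (-B)..B, h α ≤ ∫ α, h α := by
    rw [intervalIntegral.integral_of_le (by linarith)]
    exact setIntegral_le_integral hi (Eventually.of_forall h0)
  rw [e1, e3]
  refine e4.trans ?_
  rw [hh, KK_F RH hy T]
  unfold Aa PC
  refine mul_le_mul_of_nonneg_left ?_ (inv_nonneg.2 hX.le)
  refine Finset.sum_le_sum fun s _ => Finset.sum_le_sum fun s' _ => ?_
  refine mul_le_mul_of_nonneg_left ?_ (mul_nonneg (mz_nonneg _) (mz_nonneg _))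
  calc wgt (s.im - s'.im) * H177.Lat.tri y (dd T s s')
      ≤ 1 * H177.Lat.tri y (dd T s s') :=
        mul_le_mul_of_nonneg_right (wgt_le_one _) (H177.Lat.tri_nonneg _ _)
    _ ≤ _ := by rw [one_mul]; exact tri_le_ind hy _

end H479.W
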